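import Pool.Agent.W_e21c_h6.Z2

/-!
# Theorem 2 (MP_e21d3a_lc, natural density; file Z3)
-/

set_option autoImplicit false

noncomputable section

open Finset

namespace Pool.Agent.E21

/-- The iterates of a number which reaches `1` reach `1`. -/
private theorem Z3_iter (n k : ℕ) (h : ∃ j, col^[j] n = 1) : ∃ j, col^[j] (col^[k] n) = 1 := by
  induction k with
  | zero => exact h
  | succ k ih =>
    obtain ⟨j, hj⟩ := ih
    rw [Function.iterate_succ_apply']
    cases j with
    | zero =>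
      have h1 : col^[k] n = 1 := hj
      refine ⟨2, ?_⟩
      rw [h1]
      decide
    | succ j => exact ⟨j, by rwa [Function.iterate_succ_apply] at hj⟩

/-- A uniform time for the numbers `≤ N0` which reach `1`. -/
private theorem Z3_time (N0 : ℕ) : ∃ C0 : ℕ, ∀ M ≤ N0, (∃ j, col^[j] M = 1) →
    ∃ j ≤ C0, col^[j] M = 1 := by
  induction N0 with
  | zero =>
    by_cases h : ∃ j, col^[j] 0 = 1
    · obtain ⟨j, hj⟩ := h
      refine ⟨j, fun M hM _ => ⟨j, le_rfl, ?_⟩⟩
      rw [Nat.le_zero.1 hM]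
      exact hj
    · refine ⟨0, fun M hM h' => ?_⟩
      rw [Nat.le_zero.1 hM] at h'
      exact absurd h' h
  | succ N ih =>
    obtain ⟨C, hC⟩ := ih
    by_cases h : ∃ j, col^[j] (N + 1) = 1
    · obtain ⟨j, hj⟩ := h
      refine ⟨max C j, fun M hM h' => ?_⟩
      rcases Nat.lt_or_eq_of_le hM with h1 | h1
      · obtain ⟨i, hi, hi'⟩ := hC M (by omega) h'
        exact ⟨i, hi.trans (le_max_left _ _), hi'⟩
      · rw [h1]
        exact ⟨j, le_max_right _ _, hj⟩
    · refine ⟨C, fun M hM h' => ?_⟩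
      rcases Nat.lt_or_eq_of_le hM with h1 | h1
      · exact hC M (by omega) h'
      · rw [h1] at h'
        exact absurd h' h

/-- **Theorem 2.** Almost all `n ∈ A` (natural density) reach `1` within `(3 / log (4 / 3) + del) log n` steps. Given `eps` take `N0` from
`theorem_one` for `del / 2`; let `C0` be the maximum over the `M ≤ N0` which reach `1` of the first time they do. If `n` is in `A` and
reaches `M ≤ N0` at time `k ≤ (K* + del / 2) log n`, then `M` reaches `1` (the orbit of `n` reaches `1`; `1` is periodic: if it was reached before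
time `k`, then `M ∈ {1, 2, 4}`), so `n` reaches `1` within `k + C0 ≤ (K* + del) log n` steps for `n ≥ n0`. -/
theorem theorem_two {Cm : ℝ} (hmix : Mix Cm) (del eps : ℝ) (hdel : 0 < del) (heps : 0 < eps) :
    ∃ X0 : ℕ, ∀ X : ℕ, X0 ≤ X →
      (Nat.card {n : ℕ // 1 ≤ n ∧ n ≤ X ∧ (∃ k, col^[k] n = 1) ∧ ¬ ∃ k : ℕ, (k : ℝ) ≤ KK del * Real.log n ∧ col^[k] n = 1} : ℝ)
        ≤ eps * X := by
  classical
  obtain ⟨N0, X1, hN0, h1⟩ := theorem_one hmix (del / 2) (eps / 2) (by positivity) (by positivity)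
  obtain ⟨C0, hC0⟩ := Z3_time N0
  set n0 : ℕ := ⌈Real.exp (2 * C0 / del)⌉₊ with hn0
  refine ⟨max X1 ⌈2 * (n0 : ℝ) / eps⌉₊, fun X hX => ?_⟩
  have hXa : X1 ≤ X := le_trans (le_max_left _ _) hX
  have hXb : 2 * (n0 : ℝ) / eps ≤ X :=
    Nat.ceil_le.1 (le_trans (le_max_right _ _) hX)
  have h2 := h1 X hXa
  set bad1 : ℕ → Prop := fun n =>
    ¬ ∃ k : ℕ, (k : ℝ) ≤ KK (del / 2) * Real.log n ∧ col^[k] n ≤ N0 with hbad1
  set bad2 : ℕ → Prop := fun n => (∃ k, col^[k] n = 1) ∧
    ¬ ∃ k : ℕ, (k : ℝ) ≤ KK del * Real.log n ∧ col^[k] n = 1 with hbad2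
  rw [Nat.subtype_card ((Finset.Icc 1 X).filter bad1)
    (fun x => by rw [mem_filter, mem_Icc, and_assoc])] at h2
  rw [Nat.subtype_card ((Finset.Icc 1 X).filter bad2)
    (fun x => by rw [mem_filter, mem_Icc, and_assoc])]
  have hsub : (Finset.Icc 1 X).filter bad2 ⊆ (Finset.Icc 1 X).filter bad1 ∪ Finset.range n0 := by
    intro n hn
    rw [mem_filter, mem_Icc] at hn
    obtain ⟨⟨hn1, hn2⟩, hr, hb⟩ := hn
    rw [mem_union, mem_filter, mem_Icc, mem_range]
    by_cases hlt : n < n0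
    · exact Or.inr hlt
    · left
      refine ⟨⟨hn1, hn2⟩, ?_⟩
      rintro ⟨k, hk, hkM⟩
      obtain ⟨j, hj, hj1⟩ := hC0 _ hkM (Z3_iter n k hr)
      apply hb
      refine ⟨j + k, ?_, by rw [Function.iterate_add_apply]; exact hj1⟩
      have hlog : 2 * (C0 : ℝ) / del ≤ Real.log n := by
        rw [Real.le_log_iff_exp_le (by exact_mod_cast hn1)]
        have h3 : Real.exp (2 * C0 / del) ≤ n0 := Nat.le_ceil _
        have h4 : (n0 : ℝ) ≤ n := by exact_mod_cast Nat.le_of_not_lt hlt
        exact h3.trans h4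
      have hj' : (j : ℝ) ≤ C0 := by exact_mod_cast hj
      have h5 : (C0 : ℝ) ≤ del / 2 * Real.log n := by
        rw [div_le_iff₀ hdel] at hlog
        linarith
      push_cast
      have h6 : KK del = KK (del / 2) + del / 2 := by
        unfold KK
        ring
      rw [h6, add_mul]
      linarith
  have h3 : (((Finset.Icc 1 X).filter bad2).card : ℝ) ≤
      ((Finset.Icc 1 X).filter bad1).card + n0 := by
    have h4 := (card_le_card hsub).trans (card_union_le _ _)
    rw [card_range] at h4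
    exact_mod_cast h4
  have h4 : (n0 : ℝ) ≤ eps / 2 * X := by
    rw [div_le_iff₀ heps] at hXb
    linarith
  calc (((Finset.Icc 1 X).filter bad2).card : ℝ) ≤ eps / 2 * X + eps / 2 * X := by linarith
    _ = eps * X := by ring

end Pool.Agent.E21
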