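import Mathlib

/-!
# Almost all orbits of the 3n+1 map: definitions (MP_e21d3a_lc; helper6, helper93)

A list `b = [b_1, …, b_n]` of positive integers (`b_1` = the most recent one) is the list of the exponents of `n` steps
`N ↦ (3 N + 1) / 2 ^ b` of the odd numbers: the steps lead from `N` to `M` iff `2 ^ b.sum * M = 3 ^ n * N + G b`.
-/

set_option autoImplicit false

noncomputable section

open Finset

namespace Pool.Agent.E21

/-- The map of the problem. -/
def col (n : ℕ) : ℕ := if n % 2 = 0 then n / 2 else 3 * n + 1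

/-- The constant of the affine map of a list of exponents. -/
def G : List ℕ → ℕ
  | [] => 0
  | _ :: l => 2 ^ l.sum + 3 * G l

/-- The compositions of `l` into `n` positive parts. -/
def comps : ℕ → ℕ → Finset (List ℕ)
  | 0, l => if l = 0 then {[]} else ∅
  | n + 1, l => (Finset.Icc 1 l).biUnion fun b => (comps n (l - b)).image (List.cons b)

/-- `P (b_1 + … + b_n = l)` for independent geometric variables `P (b) = 2 ^ (-b)`. -/
def Pn (n l : ℕ) : ℝ := (comps n l).card / 2 ^ l

open Classical in
/-- `P (b_1 + … + b_n = l and G b ≡ 2 ^ l Y mod 3 ^ m)`. -/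
def nu (m n l Y : ℕ) : ℝ := ((comps n l).filter fun b => G b ≡ 2 ^ l * Y [MOD 3 ^ m]).card / 2 ^ l

/-- `N` has an iterate `≤ N0` among the first `s` ones. -/
def Reach (N0 s N : ℕ) : Prop := ∃ j ≤ s, col^[j] N ≤ N0

theorem mem_comps {n l : ℕ} {b : List ℕ} :
    b ∈ comps n l ↔ b.length = n ∧ b.sum = l ∧ ∀ x ∈ b, 1 ≤ x := by
  induction n generalizing l b with
  | zero =>
    unfold comps
    split_ifs with h
    · subst h
      rw [mem_singleton]
      constructor
      · rintro rfl
        simp
      · rintro ⟨h1, _, _⟩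
        exact List.length_eq_zero_iff.1 h1
    · simp only [notMem_empty, false_iff]
      rintro ⟨h1, h2, _⟩
      rw [List.length_eq_zero_iff.1 h1] at h2
      exact h h2.symm
  | succ n ih =>
    unfold comps
    rw [mem_biUnion]
    constructor
    · rintro ⟨x, hx, hb⟩
      rw [mem_image] at hb
      obtain ⟨c, hc, rfl⟩ := hb
      rw [mem_Icc] at hx
      obtain ⟨h1, h2, h3⟩ := ih.1 hc
      refine ⟨by simp [h1], by simp [h2]; omega, ?_⟩
      intro y hy
      rcases List.mem_cons.1 hy with rfl | hy
      · exact hx.1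
      · exact h3 y hy
    · rintro ⟨h1, h2, h3⟩
      match b, h1, h2, h3 with
      | x :: c, h1, h2, h3 =>
        have hx : 1 ≤ x := h3 x (by simp)
        have h2' : x + c.sum = l := by simpa using h2
        refine ⟨x, mem_Icc.2 ⟨hx, by omega⟩, mem_image.2 ⟨c, ih.2 ⟨by simpa using h1, by omega, ?_⟩, rfl⟩⟩
        intro y hy
        exact h3 y (List.mem_cons_of_mem _ hy)

end Pool.Agent.E21
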