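import Pool.Agent.W_e21c_h6.Dyn

/-!
# Paths (MP_e21d3a_lc, natural density; file A1)
-/

set_option autoImplicit false

noncomputable section

open Finset

namespace Pool.Agent.E21

private theorem A1_mul_syr (N : ℕ) :
    2 ^ padicValNat 2 (3 * N + 1) * syr N = 3 * N + 1 := by
  unfold syr
  exact Nat.mul_div_cancel' pow_padicValNat_dvd

theorem syr_odd (N : ℕ) : syr N % 2 = 1 := by
  by_contra h
  have h0 : 2 ∣ syr N := by omega
  obtain ⟨k, hk⟩ := h0
  have h1 := A1_mul_syr N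
  have h2 : 2 ^ (padicValNat 2 (3 * N + 1) + 1) ∣ 3 * N + 1 :=
    ⟨k, by
      calc 3 * N + 1 = 2 ^ padicValNat 2 (3 * N + 1) * syr N := h1.symm
        _ = 2 ^ padicValNat 2 (3 * N + 1) * (2 * k) := by rw [hk]
        _ = _ := by ring⟩
  have : Fact (Nat.Prime 2) := ⟨Nat.prime_two⟩
  exact pow_succ_padicValNat_not_dvd (by omega) h2

theorem syr_iter_odd {N : ℕ} (hN : N % 2 = 1) (n : ℕ) : syr^[n] N % 2 = 1 := by
  cases n with
  | zero => exact hN
  | succ n => rw [Function.iterate_succ_apply']; exact syr_odd _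

theorem length_vals (n N : ℕ) : (vals n N).length = n := by
  induction n with
  | zero => rfl
  | succ n ih => rw [vals, List.length_cons, ih]

/-- Every path splits off its last step: `2 ^ |b| (2 ^ a M - 1) = 3 (3 ^ n N + G b)`, so `3 ∣ 2 ^ a M - 1`, and
`M' = (2 ^ a M - 1) / 3` is odd (`a ≥ 1`). Conversely `2 ^ (a + |b|) M = 2 ^ |b| (3 M' + 1) = 3 (3 ^ n N + G b) + 2 ^ |b|`. -/
theorem path_cons {a : ℕ} {b : List ℕ} {N M : ℕ} :
    Path (a :: b) N M ↔ 1 ≤ a ∧ M % 2 = 1 ∧ ∃ M', Path b N M' ∧ 2 ^ a * M = 3 * M' + 1 := by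
  constructor
  · rintro ⟨hN, hM, hb, he⟩
    have ha : 1 ≤ a := hb a (by simp)
    refine ⟨ha, hM, ?_⟩
    rw [List.sum_cons, List.length_cons, G, pow_add, pow_succ] at he
    have hpos : 0 < 2 ^ a * M := Nat.mul_pos (by positivity) (by omega)
    obtain ⟨t, ht⟩ : ∃ t, 2 ^ a * M = t + 1 := ⟨2 ^ a * M - 1, by omega⟩
    have h1 : 2 ^ b.sum * t = 3 * (3 ^ b.length * N + G b) := by
      have h2 : 2 ^ b.sum * (2 ^ a * M) = 3 ^ b.length * 3 * N + (2 ^ b.sum + 3 * G b) := by
        rw [← he]; ring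
      rw [ht] at h2
      have h3 : 2 ^ b.sum * (t + 1) = 2 ^ b.sum * t + 2 ^ b.sum := by ring
      have h4 : 3 ^ b.length * 3 * N = 3 * (3 ^ b.length * N) := by ring
      rw [h3, h4] at h2
      rw [mul_add]
      omega
    have h3 : 3 ∣ t := by
      have hc : Nat.Coprime 3 (2 ^ b.sum) := Nat.Coprime.pow_right _ (by norm_num)
      exact hc.dvd_of_dvd_mul_left ⟨_, h1⟩
    obtain ⟨M', rfl⟩ := h3
    refine ⟨M', ⟨hN, ?_, fun x hx => hb x (List.mem_cons_of_mem _ hx), ?_⟩, ht⟩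
    · obtain ⟨a', rfl⟩ : ∃ a', a = a' + 1 := ⟨a - 1, by omega⟩
      have h5 : 2 ^ (a' + 1) * M = 2 * (2 ^ a' * M) := by ring
      rw [h5] at ht
      omega
    · have h6 : 3 * (2 ^ b.sum * M') = 3 * (3 ^ b.length * N + G b) := by
        rw [← h1]; ring
      omega
  · rintro ⟨ha, hM, M', ⟨hN, hM', hb, he⟩, h1⟩
    refine ⟨hN, hM, ?_, ?_⟩
    · intro x hx
      rcases List.mem_cons.1 hx with rfl | hx
      · exact ha
      · exact hb x hx
    · rw [List.sum_cons, List.length_cons, G, pow_add, pow_succ]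
      have h2 : 2 ^ a * 2 ^ b.sum * M = 2 ^ b.sum * (2 ^ a * M) := by ring
      rw [h2, h1]
      have h3 : 2 ^ b.sum * (3 * M' + 1) = 3 * (2 ^ b.sum * M') + 2 ^ b.sum := by ring
      rw [h3, he]
      ring

/-- Induction on `n`: `3 syr^n N + 1 = 2 ^ a syr (syr^n N)` with `a = v_2 (3 syr^n N + 1) ≥ 1` (`syr^n N` is odd). -/
theorem path_vals {N : ℕ} (hN : N % 2 = 1) (n : ℕ) : Path (vals n N) N (syr^[n] N) := by
  induction n with
  | zero => exact ⟨hN, hN, by simp [vals], by simp [vals, G]⟩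
  | succ n ih =>
    rw [vals, path_cons]
    refine ⟨?_, syr_iter_odd hN _, syr^[n] N, ih, ?_⟩
    · have : Fact (Nat.Prime 2) := ⟨Nat.prime_two⟩
      have h := syr_iter_odd hN n
      exact one_le_padicValNat_of_dvd (by omega) (by omega)
    · rw [Function.iterate_succ_apply']
      exact A1_mul_syr _

/-- Induction on `b` with `path_cons`: `2 ^ a M = 3 M' + 1` with `M` odd gives `a = v_2 (3 M' + 1)`, `M = syr M'`. -/
theorem path_unique {b : List ℕ} {N M : ℕ} (h : Path b N M) :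
    b = vals b.length N ∧ M = syr^[b.length] N := by
  induction b generalizing M with
  | nil =>
    obtain ⟨_, _, _, he⟩ := h
    refine ⟨rfl, ?_⟩
    simpa [G] using he
  | cons a b ih =>
    obtain ⟨ha, hM, M', hb, he⟩ := path_cons.1 h
    obtain ⟨h1, h2⟩ := ih hb
    have : Fact (Nat.Prime 2) := ⟨Nat.prime_two⟩
    have hv : padicValNat 2 (3 * M' + 1) = a := by
      rw [← he, padicValNat.mul (by positivity) (by omega), padicValNat.prime_pow,
        padicValNat.eq_zero_of_not_dvd (by omega : ¬ 2 ∣ M), add_zero]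
    have hs : syr M' = M := by
      have h3 := A1_mul_syr M'
      rw [hv, ← he] at h3
      exact Nat.eq_of_mul_eq_mul_left (by positivity) h3
    constructor
    · rw [List.length_cons, vals, ← h2, hv, ← h1]
    · rw [List.length_cons, Function.iterate_succ_apply', ← h2, hs]

end Pool.Agent.E21
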