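import Pool.Agent.W_e21c_h6.Dyn

/-!
# The converse for congruences, the size of G (MP_e21d3a_lc, natural density; file A2)
-/

set_option autoImplicit false

noncomputable section

open Finset

namespace Pool.Agent.E21

private theorem A2_G_le {b : List ℕ} (h : ∀ x ∈ b, 1 ≤ x) :
    2 ^ b.length * G b + 2 ^ b.sum * 2 ^ b.length ≤ 2 ^ b.sum * 3 ^ b.length := by
  induction b with
  | nil => simp [G]
  | cons x l ih =>
    have hx : 1 ≤ x := h x (by simp)
    have ih' := ih (fun y hy => h y (List.mem_cons_of_mem _ hy))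
    obtain ⟨t, ht⟩ : ∃ t, 2 ^ x = 2 + t :=
      Nat.exists_eq_add_of_le (by simpa using Nat.pow_le_pow_right (n := 2) (by norm_num) hx)
    have hAB : 2 ^ l.length ≤ 3 ^ l.length := Nat.pow_le_pow_left (by norm_num) _
    simp only [G, List.length_cons, List.sum_cons, pow_succ, pow_add, ht]
    have h2 := Nat.mul_le_mul_left (t * 2 ^ l.sum) hAB
    nlinarith [Nat.zero_le (t * 2 ^ l.sum * 3 ^ l.length)]

/-- Induction on `b` for the stronger `2 ^ n G b ≤ 2 ^ |b| (3 ^ n - 2 ^ n)` (write it with `+`). -/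
theorem G_le {b : List ℕ} (h : ∀ x ∈ b, 1 ≤ x) : 2 ^ b.length * G b ≤ 2 ^ b.sum * 3 ^ b.length :=
  le_trans (Nat.le_add_right _ _) (A2_G_le h)

private theorem A2_sum_pos {b : List ℕ} (h : ∀ x ∈ b, 1 ≤ x) (hb : b ≠ []) : 1 ≤ b.sum := by
  match b, h, hb with
  | x :: l, h, _ =>
    have hx : 1 ≤ x := h x (by simp)
    simp only [List.sum_cons]
    omega

/-- `G b` is odd if `b` is not empty (entries `≥ 1`). -/
theorem G_odd {b : List ℕ} (h : ∀ x ∈ b, 1 ≤ x) (hb : b ≠ []) : G b % 2 = 1 := by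
  induction b with
  | nil => exact absurd rfl hb
  | cons x l ih =>
    by_cases hl : l = []
    · subst hl
      simp [G]
    · have h' : ∀ y ∈ l, 1 ≤ y := fun y hy => h y (List.mem_cons_of_mem _ hy)
      have ih' := ih h' hl
      have hs := A2_sum_pos h' hl
      obtain ⟨k, hk⟩ := Nat.exists_eq_add_of_le hs
      have h2 : 2 ^ l.sum = 2 * 2 ^ k := by rw [hk, pow_add, pow_one]
      simp only [G]
      omega

/-- `3 ^ n ∣ 2 ^ l M - G b`, the quotient `N` is odd (`G b` odd, `2 ^ l M` even for `n ≥ 1`; `n = 0`: `N = M`). -/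
theorem path_of_mod {n l : ℕ} {b : List ℕ} {M : ℕ} (hb : b ∈ comps n l) (hM : M % 2 = 1)
    (h : G b ≡ 2 ^ l * M [MOD 3 ^ n]) (hlt : G b < 2 ^ l * M) : ∃ N, Path b N M := by
  obtain ⟨h1, h2, h3⟩ := mem_comps.1 hb
  obtain ⟨N, hN⟩ := (Nat.modEq_iff_dvd' hlt.le).1 h
  have hN' : 2 ^ l * M = 3 ^ n * N + G b := by omega
  refine ⟨N, ?_, hM, h3, by rw [h1, h2]; exact hN'⟩
  by_cases hbn : b = []
  · subst hbn
    simp only [List.length_nil, List.sum_nil] at h1 h2
    subst h1
    subst h2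
    simp only [G, pow_zero, one_mul, add_zero] at hN'
    omega
  · have hodd := G_odd h3 hbn
    have hs := A2_sum_pos h3 hbn
    rw [h2] at hs
    obtain ⟨k, hk⟩ := Nat.exists_eq_add_of_le hs
    have h4 : 2 ^ l * M = 2 * (2 ^ k * M) := by rw [hk, pow_add, pow_one]; ring
    by_contra hcon
    have hNe : N % 2 = 0 := by omega
    obtain ⟨c, hc⟩ : 2 ∣ N := Nat.dvd_of_mod_eq_zero hNe
    have h5 : 3 ^ n * N = 2 * (3 ^ n * c) := by rw [hc]; ring
    omega

theorem G_append (b c : List ℕ) : G (b ++ c) = 2 ^ c.sum * G b + 3 ^ b.length * G c := by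
  induction b with
  | nil => simp [G]
  | cons x l ih =>
    simp only [List.cons_append, G, List.length_cons, List.sum_append, ih]
    ring

end Pool.Agent.E21
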