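import Pool.Agent.W_e21c_h6.A1

/-!
# Orbits of col along a path (MP_e21d3a_lc, natural density; file A3)
-/

set_option autoImplicit false

noncomputable section

open Finset

namespace Pool.Agent.E21

private theorem A3_halve (a M : ℕ) : ∀ i ≤ a, col^[i] (2 ^ a * M) = 2 ^ (a - i) * M := by
  intro i
  induction i with
  | zero => intro _; rfl
  | succ i ih =>
    intro hi
    rw [Function.iterate_succ_apply', ih (by omega)]
    obtain ⟨c, hc⟩ : ∃ c, a - i = c + 1 := ⟨a - i - 1, by omega⟩
    have h2 : a - (i + 1) = c := by omega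
    rw [hc, h2]
    have h3 : 2 ^ (c + 1) * M = 2 * (2 ^ c * M) := by ring
    rw [h3, col, if_pos (by omega)]
    omega

private theorem A3_after {a M M' : ℕ} (hM' : M' % 2 = 1) (he : 2 ^ a * M = 3 * M' + 1) {i : ℕ}
    (hi : i ≤ a) : col^[i + 1] M' = 2 ^ (a - i) * M := by
  rw [Function.iterate_succ_apply]
  have h1 : col M' = 2 ^ a * M := by
    rw [col, if_neg (by omega), he]
  rw [h1]
  exact A3_halve a M i hi

/-- Induction on `b` with `path_cons`: `col M' = 3 M' + 1 = 2 ^ a M`, then `a` halvings. -/
theorem col_path {b : List ℕ} {N M : ℕ} (h : Path b N M) : col^[b.length + b.sum] N = M := by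
  induction b generalizing M with
  | nil =>
    obtain ⟨_, _, _, he⟩ := h
    simpa [G] using he.symm
  | cons a b ih =>
    obtain ⟨_, _, M', hb, he⟩ := path_cons.1 h
    have h1 := ih hb
    have h2 : (a :: b).length + (a :: b).sum = (a + 1) + (b.length + b.sum) := by
      rw [List.length_cons, List.sum_cons]; ring
    rw [h2, Function.iterate_add_apply, h1, A3_after hb.2.1 he le_rfl]
    simp

/-- Induction on `b`: for `j ≤ n + |b|` use the shorter path; otherwise `col^j N = 2 ^ (a - i) M` with `i ≤ a`, or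
`3 M' + 1`, and `N ≤ 2 ^ |b| M'` (case `j = n + |b|` of the shorter path), so `N ≤ 2 ^ |b| M' ≤ 2 ^ |b| 2 ^ a M ≤ 2 ^ (a + |b|) col^j N`. -/
theorem le_col_path {b : List ℕ} {N M : ℕ} (h : Path b N M) {j : ℕ} (hj : j ≤ b.length + b.sum) :
    N ≤ 2 ^ b.sum * col^[j] N := by
  induction b generalizing M j with
  | nil =>
    simp only [List.length_nil, List.sum_nil, add_zero, Nat.le_zero] at hj
    subst hj
    simp
  | cons a b ih =>
    obtain ⟨_, _, M', hb, he⟩ := path_cons.1 h
    rw [List.sum_cons]
    by_cases hj' : j ≤ b.length + b.sum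
    · refine (ih hb hj').trans ?_
      apply Nat.mul_le_mul_right
      exact Nat.pow_le_pow_right (by norm_num) (by omega)
    · obtain ⟨i, rfl⟩ : ∃ i, j = (i + 1) + (b.length + b.sum) :=
        ⟨j - (b.length + b.sum) - 1, by omega⟩
      have hi : i ≤ a := by
        rw [List.length_cons, List.sum_cons] at hj
        omega
      rw [Function.iterate_add_apply, col_path hb, A3_after hb.2.1 he hi]
      have h1 := ih hb (le_refl (b.length + b.sum))
      rw [col_path hb] at h1
      calc N ≤ 2 ^ b.sum * M' := h1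
        _ ≤ 2 ^ b.sum * (2 ^ a * M) := Nat.mul_le_mul_left _ (by omega)
        _ = 2 ^ (a + b.sum) * (1 * M) := by rw [pow_add]; ring
        _ ≤ 2 ^ (a + b.sum) * (2 ^ (a - i) * M) :=
          Nat.mul_le_mul_left _ (Nat.mul_le_mul_right _ Nat.one_le_two_pow)

end Pool.Agent.E21
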