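import Pool.Agent.W_e21c_h6.A1
import Pool.Agent.W_e21c_h6.A2

/-!
# The residue class of a vector of exponents (MP_e21d3a_lc, natural density; file A4)
-/

set_option autoImplicit false

noncomputable section

open Finset

namespace Pool.Agent.E21

private theorem A4_key {n l : ℕ} {b : List ℕ} (hb : b ∈ comps n l) (N : ℕ) :
    (N % 2 = 1 ∧ vals n N = b) ↔ 3 ^ n * N + G b ≡ 2 ^ l [MOD 2 ^ (l + 1)] := by
  obtain ⟨hlen, hsum, hpos⟩ := mem_comps.1 hb
  constructor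
  · rintro ⟨hN, hv⟩
    obtain ⟨_, hM, _, he⟩ := path_vals hN n
    rw [hv, hsum, hlen] at he
    rw [← he]
    obtain ⟨k, hk⟩ : ∃ k, syr^[n] N = 2 * k + 1 := ⟨syr^[n] N / 2, by omega⟩
    rw [hk]
    have h1 : 2 ^ l * (2 * k + 1) = 2 ^ l + 2 ^ (l + 1) * k := by ring
    rw [h1]
    exact Nat.add_mul_mod_self_left _ _ _
  · intro h
    have h2 : (3 ^ n * N + G b) % 2 ^ (l + 1) = 2 ^ l := by
      rw [h]
      exact Nat.mod_eq_of_lt (Nat.pow_lt_pow_right (by norm_num) (by omega))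
    obtain ⟨q, hq⟩ : ∃ q, 3 ^ n * N + G b = 2 ^ l * (2 * q + 1) := by
      refine ⟨(3 ^ n * N + G b) / 2 ^ (l + 1), ?_⟩
      have h3 := Nat.div_add_mod (3 ^ n * N + G b) (2 ^ (l + 1))
      rw [h2] at h3
      rw [← h3]
      have : (2 ^ (l + 1) * ((3 ^ n * N + G b) / 2 ^ (l + 1)) + 2 ^ l) / 2 ^ (l + 1) =
        (3 ^ n * N + G b) / 2 ^ (l + 1) := by rw [h3]
      rw [this]
      ring
    have hN : N % 2 = 1 := by
      by_cases hbn : b = []
      · subst hbn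
        have hn : n = 0 := by simpa using hlen.symm
        have hl : l = 0 := by simpa using hsum.symm
        subst hn hl
        simp [G] at hq
        omega
      · have hG := G_odd hpos hbn
        have hl : 1 ≤ l := by
          obtain ⟨x, c, rfl⟩ := List.exists_cons_of_ne_nil hbn
          have := hpos x (by simp)
          rw [List.sum_cons] at hsum
          omega
        obtain ⟨l', rfl⟩ := Nat.exists_eq_add_of_le' hl
        have h4 : 2 ^ (l' + 1) * (2 * q + 1) = 2 * (2 ^ l' * (2 * q + 1)) := by ring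
        rw [h4] at hq
        rcases Nat.mod_two_eq_zero_or_one N with h0 | h0
        · exfalso
          have : (3 ^ n * N) % 2 = 0 := by rw [Nat.mul_mod, h0]; simp
          omega
        · exact h0
    have hp : Path b N (2 * q + 1) := ⟨hN, by omega, hpos, by rw [hsum, hlen]; exact hq.symm⟩
    obtain ⟨h5, _⟩ := path_unique hp
    rw [hlen] at h5
    exact ⟨hN, h5.symm⟩

/-- `Path b N M` for some `M` iff `3 ^ n N + G b ≡ 2 ^ l mod 2 ^ (l + 1)` and `N` is odd (automatic for `n ≥ 1`, since then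
`G b` is odd and `l ≥ 1`; for `n = 0` we have `l = 0` and the class is the odd numbers). `3` is invertible modulo `2 ^ (l + 1)`. -/
theorem class_vals {n l : ℕ} {b : List ℕ} (hb : b ∈ comps n l) :
    ∃ r, ∀ N, (N % 2 = 1 ∧ vals n N = b) ↔ N ≡ r [MOD 2 ^ (l + 1)] := by
  have hc : Nat.Coprime (3 ^ n) (2 ^ (l + 1)) := Nat.Coprime.pow _ _ (by norm_num)
  have h1 : 1 < 2 ^ (l + 1) := Nat.one_lt_two_pow (by omega)
  obtain ⟨u, hu⟩ : ∃ u, 3 ^ n * u ≡ 1 [MOD 2 ^ (l + 1)] := by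
    obtain ⟨u, _, hu⟩ := Nat.exists_mul_mod_eq_one_of_coprime hc h1
    exact ⟨u, by unfold Nat.ModEq; rw [hu, Nat.mod_eq_of_lt h1]⟩
  refine ⟨u * (2 ^ l + (2 ^ (l + 1) - 1) * G b), fun N => ?_⟩
  rw [A4_key hb]
  have hr : 3 ^ n * (u * (2 ^ l + (2 ^ (l + 1) - 1) * G b)) + G b ≡ 2 ^ l [MOD 2 ^ (l + 1)] := by
    have h2 : 3 ^ n * (u * (2 ^ l + (2 ^ (l + 1) - 1) * G b)) + G b =
      3 ^ n * u * (2 ^ l + (2 ^ (l + 1) - 1) * G b) + G b := by ring
    rw [h2]
    have h3 : 3 ^ n * u * (2 ^ l + (2 ^ (l + 1) - 1) * G b) + G b ≡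
      1 * (2 ^ l + (2 ^ (l + 1) - 1) * G b) + G b [MOD 2 ^ (l + 1)] :=
      (hu.mul_right _).add_right _
    refine h3.trans ?_
    have h4 : 1 * (2 ^ l + (2 ^ (l + 1) - 1) * G b) + G b = 2 ^ l + 2 ^ (l + 1) * G b := by
      obtain ⟨w, hw⟩ : ∃ w, 2 ^ (l + 1) = w + 1 := ⟨2 ^ (l + 1) - 1, by omega⟩
      rw [hw, Nat.add_sub_cancel]
      ring
    rw [h4]
    exact Nat.add_mul_mod_self_left _ _ _
  constructor
  · intro h
    have h5 := h.trans hr.symm
    have h6 : 3 ^ n * N ≡ 3 ^ n * (u * (2 ^ l + (2 ^ (l + 1) - 1) * G b)) [MOD 2 ^ (l + 1)] :=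
      Nat.ModEq.add_right_cancel' _ h5
    exact Nat.ModEq.cancel_left_of_coprime hc.symm h6
  · intro h
    exact ((h.mul_left _).add_right _).trans hr

end Pool.Agent.E21
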