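import Pool.Agent.W_e21c_h6.A1
import Pool.Agent.W_e21c_h6.A2

/-!
# The logarithm along a path (MP_e21d3a_lc, natural density; file A5)
-/

set_option autoImplicit false

noncomputable section

open Finset

namespace Pool.Agent.E21

/-- `2 ^ l M = 3 ^ n N + G b ≥ 3 ^ n N`; `n log 3 - l log 2 = - n La - (l - 2 n) log 2`. -/
theorem log_path_ge {b : List ℕ} {N M : ℕ} (h : Path b N M) :
    Real.log N - b.length * La - ((b.sum : ℝ) - 2 * b.length) * Real.log 2 ≤ Real.log M := by
  obtain ⟨hN, hM, _, he⟩ := h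
  have hN0 : (0 : ℝ) < N := by exact_mod_cast (by omega : 0 < N)
  have hM0 : (0 : ℝ) < M := by exact_mod_cast (by omega : 0 < M)
  have h1 : (3 : ℝ) ^ b.length * N ≤ 2 ^ b.sum * M := by
    have : 3 ^ b.length * N ≤ 2 ^ b.sum * M := by omega
    exact_mod_cast this
  have h2 := Real.log_le_log (by positivity) h1
  rw [Real.log_mul (by positivity) hN0.ne', Real.log_mul (by positivity) hM0.ne', Real.log_pow,
    Real.log_pow] at h2
  rw [La_eq]
  linarith

/-- `2 ^ l M = 3 ^ n N (1 + G b / (3 ^ n N))` and `G b / 3 ^ n ≤ 2 ^ l / 2 ^ n` (`G_le`). -/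
theorem log_path_le {b : List ℕ} {N M : ℕ} (h : Path b N M) :
    Real.log M ≤ Real.log N - b.length * La - ((b.sum : ℝ) - 2 * b.length) * Real.log 2 +
      2 ^ b.sum / (2 ^ b.length * N) := by
  obtain ⟨hN, hM, hb, he⟩ := h
  have hN0 : (0 : ℝ) < N := by exact_mod_cast (by omega : 0 < N)
  have hM0 : (0 : ℝ) < M := by exact_mod_cast (by omega : 0 < M)
  have hG : (2 : ℝ) ^ b.length * G b ≤ 2 ^ b.sum * 3 ^ b.length := by exact_mod_cast G_le hb
  have he' : (2 : ℝ) ^ b.sum * M = 3 ^ b.length * N + G b := by exact_mod_cast he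
  set x : ℝ := 2 ^ b.sum / (2 ^ b.length * N) with hx
  have hx0 : 0 ≤ x := by positivity
  have h1 : (2 : ℝ) ^ b.sum * M ≤ 3 ^ b.length * N * (1 + x) := by
    rw [he', mul_add, mul_one]
    have h3 : (G b : ℝ) ≤ 3 ^ b.length * N * x := by
      have h4 : 3 ^ b.length * (N : ℝ) * x = 2 ^ b.sum * 3 ^ b.length / 2 ^ b.length := by
        rw [hx]
        field_simp
      rw [h4, le_div_iff₀ (by positivity)]
      linarith
    linarith
  have h2 := Real.log_le_log (by positivity) h1
  rw [Real.log_mul (by positivity) hM0.ne', Real.log_mul (by positivity) (by positivity),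
    Real.log_mul (by positivity) hN0.ne', Real.log_pow, Real.log_pow] at h2
  have h3 : Real.log (1 + x) ≤ x := by
    have := Real.log_le_sub_one_of_pos (by positivity : (0 : ℝ) < 1 + x)
    linarith
  rw [La_eq]
  linarith

end Pool.Agent.E21
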