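import Pool.Agent.W_e21c_h6.A3
import Pool.Agent.W_e21c_h6.A5

/-!
# Bad numbers along a path (MP_e21d3a_lc, natural density; file A6)
-/

set_option autoImplicit false

noncomputable section

open Finset

namespace Pool.Agent.E21

private theorem A6_KK_La (del : ℝ) : KK del * La = 3 + del * La := by
  unfold KK
  have h := La_pos.ne'
  field_simp

private theorem A6_KK_pos {del : ℝ} (h : 0 < del) : 0 < KK del := by
  unfold KK
  have h1 := La_pos
  positivity

/-- If `k ≤ K log M + c` and `col^k M ≤ N0`, then `col^(n + l + k) N ≤ N0` (`col_path`) and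
`n + l + k ≤ 3 n + lam + c + K (log N - n La + lam log 2 + 1) ≤ K log N` (`log_path_le`, `K La = 3 + del La`). -/
theorem bad_forward {N0 : ℕ} {b : List ℕ} {N M : ℕ} {del c : ℝ} {lam : ℕ} (hdel : 0 < del) (h : Path b N M)
    (hw : b.sum ∈ win b.length lam) (hlam : 1 ≤ lam) (hsm : 2 ^ b.sum ≤ 2 ^ b.length * N)
    (hc : c + (KK del + 1) * (lam + 1) ≤ del * b.length * La) (hN : N ∈ Bd N0 (KK del) 0) :
    M ∈ Bd N0 (KK del) c := by
  refine ⟨h.2.1, ?_⟩
  rintro ⟨k, hk, hk0⟩
  refine hN.2 ⟨k + (b.length + b.sum), ?_, ?_⟩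
  · have hK := A6_KK_pos hdel
    have hKLa := A6_KK_La del
    have hl2 : Real.log 2 ≤ 1 := by
      have := Real.log_two_lt_d9
      linarith
    have hl2' : 0 < Real.log 2 := Real.log_pos (by norm_num)
    have hle := log_path_le h
    have hNpos : (0 : ℝ) < N := by
      have : 0 < N := by have := h.1; omega
      exact_mod_cast this
    have hfrac : (2 : ℝ) ^ b.sum / (2 ^ b.length * N) ≤ 1 := by
      rw [div_le_one (by positivity)]
      exact_mod_cast hsm
    rw [mem_win, abs_le] at hw
    obtain ⟨hw1, hw2⟩ := hw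
    have h1 : -((b.sum : ℝ) - 2 * b.length) * Real.log 2 ≤ lam := by
      have h2 : -((b.sum : ℝ) - 2 * b.length) ≤ lam := by linarith
      calc -((b.sum : ℝ) - 2 * b.length) * Real.log 2 ≤ lam * Real.log 2 :=
            mul_le_mul_of_nonneg_right h2 hl2'.le
        _ ≤ lam * 1 := mul_le_mul_of_nonneg_left hl2 (Nat.cast_nonneg _)
        _ = lam := mul_one _
    have h3 : Real.log M ≤ Real.log N - b.length * La + lam + 1 := by
      linarith
    have h4 : KK del * Real.log M ≤ KK del * (Real.log N - b.length * La + lam + 1) :=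
      mul_le_mul_of_nonneg_left h3 hK.le
    have h5 : KK del * (Real.log N - b.length * La + lam + 1) =
        KK del * Real.log N - b.length * (3 + del * La) + KK del * (lam + 1) := by
      rw [← hKLa]; ring
    rw [Nat.cast_add, Nat.cast_add]
    have h6 : (KK del + 1) * ((lam : ℝ) + 1) = KK del * (lam + 1) + lam + 1 := by ring
    have h7 : (b.length : ℝ) * (3 + del * La) = 3 * b.length + del * b.length * La := by ring
    linarith
  · rw [Function.iterate_add_apply, col_path h]
    exact hk0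

/-- If `col^k N ≤ N0`, `k ≤ K log N`, then `k > n + l` by `le_col_path`, and `k' = k - (n + l)` satisfies `col^k' M ≤ N0` and
`k' ≤ K log N - 3 n + lam ≤ K (log M + n La + lam log 2) - 3 n + lam ≤ K log M + c` (`log_path_ge`). -/
theorem bad_backward {N0 : ℕ} {b : List ℕ} {N M : ℕ} {del c : ℝ} {lam : ℕ} (hdel : 0 < del) (h : Path b N M)
    (hw : b.sum ∈ win b.length lam) (hlam : 1 ≤ lam) (hN0 : 2 ^ b.sum * N0 < N)
    (hc : del * b.length * La + (KK del + 1) * (lam + 1) ≤ c) (hM : M ∈ Bd N0 (KK del) c) :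
    N ∈ Bd N0 (KK del) 0 := by
  refine ⟨h.1, ?_⟩
  rintro ⟨k, hk, hk0⟩
  have hkl : b.length + b.sum < k := by
    by_contra hcon
    have h1 := le_col_path h (not_lt.1 hcon)
    have h2 : 2 ^ b.sum * col^[k] N ≤ 2 ^ b.sum * N0 := Nat.mul_le_mul_left _ hk0
    omega
  obtain ⟨k', rfl⟩ : ∃ k', k = k' + (b.length + b.sum) := ⟨k - (b.length + b.sum), by omega⟩
  refine hM.2 ⟨k', ?_, ?_⟩
  · have hK := A6_KK_pos hdel
    have hKLa := A6_KK_La del
    have hl2 : Real.log 2 ≤ 1 := by
      have := Real.log_two_lt_d9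
      linarith
    have hl2' : 0 < Real.log 2 := Real.log_pos (by norm_num)
    have hge := log_path_ge h
    rw [mem_win, abs_le] at hw
    obtain ⟨hw1, hw2⟩ := hw
    have h1 : ((b.sum : ℝ) - 2 * b.length) * Real.log 2 ≤ lam := by
      calc ((b.sum : ℝ) - 2 * b.length) * Real.log 2 ≤ lam * Real.log 2 :=
            mul_le_mul_of_nonneg_right hw2 hl2'.le
        _ ≤ lam * 1 := mul_le_mul_of_nonneg_left hl2 (Nat.cast_nonneg _)
        _ = lam := mul_one _
    have h3 : Real.log N ≤ Real.log M + b.length * La + lam := by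
      linarith
    have h4 : KK del * Real.log N ≤ KK del * (Real.log M + b.length * La + lam) :=
      mul_le_mul_of_nonneg_left h3 hK.le
    have h5 : KK del * (Real.log M + b.length * La + lam) =
        KK del * Real.log M + b.length * (3 + del * La) + KK del * lam := by
      rw [← hKLa]; ring
    rw [Nat.cast_add, Nat.cast_add] at hk
    have h6 : (KK del + 1) * ((lam : ℝ) + 1) = KK del * lam + lam + KK del + 1 := by ring
    have h7 : (b.length : ℝ) * (3 + del * La) = 3 * b.length + del * b.length * La := by ring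
    linarith
  · rw [Function.iterate_add_apply, col_path h] at hk0
    exact hk0

/-- `k = 0`. -/
theorem not_bad_of_le {N0 M : ℕ} {K c : ℝ} (hK : 0 ≤ K) (hc : 0 ≤ c) (hM : M ≤ N0) : M ∉ Bd N0 K c := by
  rintro ⟨_, h⟩
  refine h ⟨0, ?_, hM⟩
  have h1 : 0 ≤ Real.log M := Real.log_natCast_nonneg M
  have h2 : 0 ≤ K * Real.log M := mul_nonneg hK h1
  push_cast
  linarith

end Pool.Agent.E21
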