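import Pool.Agent.W_e21c_h6.P1

/-!
# Mass and variance (MP_e21d3a_lc, natural density; file P2)
-/

set_option autoImplicit false

noncomputable section

open Finset

namespace Pool.Agent.E21

/-- `Pn (n + 1) (l + 1) = C(l, n) / 2 ^ (l + 1)`; `tsum_choose_mul_geometric_of_norm_lt_one` / `hasSum_choose_mul_geometric_of_norm_lt_one`
with `r = 1 / 2`. -/
theorem hasSum_Pn (n : ℕ) : HasSum (Pn n) 1 := by
  cases n with
  | zero =>
    have h0 : Pn 0 0 = 1 := by
      unfold Pn comps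
      simp
    rw [← h0]
    refine hasSum_single 0 fun l hl => ?_
    unfold Pn comps
    rw [if_neg hl]
    simp
  | succ k =>
    have h1 := hasSum_choose_mul_geometric_of_norm_lt_one (𝕜 := ℝ) k (r := 1 / 2)
      (by rw [Real.norm_eq_abs, abs_of_pos (by norm_num)]; norm_num)
    have h2 : (1 : ℝ) / (1 - 1 / 2) ^ (k + 1) = 2 ^ (k + 1) := by
      rw [show (1 : ℝ) - 1 / 2 = 2⁻¹ by norm_num, inv_pow]
      simp
    rw [h2] at h1
    have h3 := h1.mul_left (((2 : ℝ) ^ (k + 1))⁻¹)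
    rw [inv_mul_cancel₀ (by positivity)] at h3
    have h4 : (fun j : ℕ => ((2 : ℝ) ^ (k + 1))⁻¹ * (((j + k).choose k : ℝ) * (1 / 2) ^ j)) =
        fun j => Pn (k + 1) (j + (k + 1)) := by
      funext j
      rw [← add_assoc, Pn_succ, pow_add, pow_add, pow_one, pow_add, one_div, inv_pow]
      field_simp
    rw [h4] at h3
    have h5 := (hasSum_nat_add_iff (k + 1)).mp h3
    rw [Finset.sum_eq_zero (fun i hi => Pn_eq_zero (Finset.mem_range.mp hi)), add_zero] at h5
    exact h5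

theorem sum_Pn_le (n : ℕ) (s : Finset ℕ) : ∑ l ∈ s, Pn n l ≤ 1 :=
  sum_le_hasSum s (fun l _ => Pn_nonneg n l) (hasSum_Pn n)

private theorem P2_mom (n l : ℕ) : (l : ℝ) * Pn n l = 2 * n * Pn (n + 1) (l + 1) := by
  cases n with
  | zero =>
    rcases Nat.eq_zero_or_pos l with h | h
    · subst h
      simp
    · have : Pn 0 l = 0 := by
        unfold Pn comps
        rw [if_neg (by omega)]
        simp
      rw [this]
      simp
  | succ m =>
    cases l with
    | zero =>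
      rw [Pn_succ]
      simp
    | succ k =>
      rw [Pn_succ, Pn_succ]
      have h := Nat.add_one_mul_choose_eq k m
      have h' : ((k : ℝ) + 1) * (k.choose m : ℝ) = ((k + 1).choose (m + 1) : ℝ) * (m + 1) := by
        exact_mod_cast h
      push_cast
      rw [pow_succ (2 : ℝ) (k + 1)]
      field_simp
      linarith

private theorem P2_mom2 (n l : ℕ) :
    (l : ℝ) * (l + 1) * Pn n l = 4 * n * (n + 1) * Pn (n + 2) (l + 2) := by
  have h1 := P2_mom n l
  have h2 := P2_mom (n + 1) (l + 1)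
  push_cast at h2
  have e : n + 1 + 1 = n + 2 := rfl
  have e' : l + 1 + 1 = l + 2 := rfl
  rw [e, e'] at h2
  calc (l : ℝ) * (l + 1) * Pn n l = (l + 1) * (l * Pn n l) := by ring
    _ = 2 * n * ((l + 1) * Pn (n + 1) (l + 1)) := by rw [h1]; ring
    _ = _ := by rw [h2]; ring

private theorem P2_shift (n k : ℕ) : HasSum (fun l => Pn (n + k) (l + k)) 1 := by
  have h5 := (hasSum_nat_add_iff' k).mpr (hasSum_Pn (n + k))
  rw [Finset.sum_eq_zero (fun i hi => Pn_eq_zero (by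
    have := Finset.mem_range.mp hi
    omega)), sub_zero] at h5
  exact h5

/-- `l Pn n l = 2 n Pn (n + 1) (l + 1)` and `l (l + 1) Pn n l = 4 n (n + 1) Pn (n + 2) (l + 2)`, so
`∑ (l - 2 n) ^ 2 Pn n l = 4 n (n + 1) - 2 n - 8 n ^ 2 + 4 n ^ 2 = 2 n`. -/
theorem hasSum_var (n : ℕ) : HasSum (fun l : ℕ => ((l : ℝ) - 2 * n) ^ 2 * Pn n l) (2 * (n : ℝ)) := by
  have h0 := (hasSum_Pn n).mul_left (4 * (n : ℝ) ^ 2)
  have h1 := (P2_shift n 1).mul_left (-(1 + 4 * (n : ℝ)) * (2 * n))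
  have h2 := (P2_shift n 2).mul_left (4 * (n : ℝ) * (n + 1))
  have h := (h0.add h1).add h2
  have e3 : (fun l : ℕ => ((l : ℝ) - 2 * n) ^ 2 * Pn n l) = fun b : ℕ =>
      4 * (n : ℝ) ^ 2 * Pn n b + -(1 + 4 * (n : ℝ)) * (2 * n) * Pn (n + 1) (b + 1) +
        4 * (n : ℝ) * (n + 1) * Pn (n + 2) (b + 2) := by
    funext l
    have e1 := P2_mom n l
    have e2 := P2_mom2 n l
    calc ((l : ℝ) - 2 * n) ^ 2 * Pn n l
        = 4 * (n : ℝ) ^ 2 * Pn n l + -(1 + 4 * (n : ℝ)) * (l * Pn n l) +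
          (l : ℝ) * (l + 1) * Pn n l := by ring
      _ = _ := by rw [e1, e2]; ring
  have e4 : 2 * (n : ℝ) = 4 * (n : ℝ) ^ 2 * 1 + -(1 + 4 * (n : ℝ)) * (2 * n) * 1 +
      4 * (n : ℝ) * (n + 1) * 1 := by ring
  rw [← e4] at h
  rw [e3]
  exact h

/-- Chebyshev. -/
theorem tail_le (n lam : ℕ) (h : 1 ≤ lam) : 1 - ∑ l ∈ win n lam, Pn n l ≤ 2 * n / lam ^ 2 := by
  have hl : (0 : ℝ) < (lam : ℝ) ^ 2 := by
    have : (0 : ℝ) < lam := by exact_mod_cast h
    positivity
  have h1 : HasSum (fun l => if l ∈ win n lam then Pn n l else 0) (∑ l ∈ win n lam, Pn n l) := by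
    have h2 : HasSum (fun l => if l ∈ win n lam then Pn n l else 0)
        (∑ l ∈ win n lam, if l ∈ win n lam then Pn n l else 0) :=
      hasSum_sum_of_ne_finset_zero fun l hl => if_neg hl
    rwa [Finset.sum_congr rfl fun l hl => if_pos hl] at h2
  have h2 := h1.add ((hasSum_var n).div_const ((lam : ℝ) ^ 2))
  have h3 := hasSum_le (fun l => ?_) (hasSum_Pn n) h2
  · linarith
  · show Pn n l ≤ (if l ∈ win n lam then Pn n l else 0) +
      ((l : ℝ) - 2 * n) ^ 2 * Pn n l / (lam : ℝ) ^ 2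
    split_ifs with hw
    · have : 0 ≤ ((l : ℝ) - 2 * n) ^ 2 * Pn n l / (lam : ℝ) ^ 2 :=
        div_nonneg (mul_nonneg (sq_nonneg _) (Pn_nonneg n l)) hl.le
      linarith
    · rw [mem_win, not_le] at hw
      rw [zero_add, le_div_iff₀ hl, mul_comm]
      refine mul_le_mul_of_nonneg_right ?_ (Pn_nonneg n l)
      rw [← sq_abs ((l : ℝ) - 2 * n)]
      exact pow_le_pow_left₀ (by positivity) hw.le 2

end Pool.Agent.E21
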