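import Pool.Agent.W_e21c_h6.W1

/-!
# Sums with periodic weights over a window (MP_e21d3a_lc, natural density; file W2)
-/

set_option autoImplicit false

noncomputable section

open Finset

namespace Pool.Agent.E21

/-- The odd numbers are the class `1` modulo `2`. -/
theorem sum_Ow_le (T W : ℝ) (hW : 0 ≤ W) : ∑ N ∈ Ow T W, (1 : ℝ) / N ≤ W / 2 + Real.exp (-T) := by
  classical
  have h1 := ap_upper 2 1 (by norm_num) T W hW
  have h2 : Ow T W = (Fw T W).filter (fun N => N ≡ 1 [MOD 2]) := by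
    ext N
    rw [mem_Ow, mem_filter, mem_Fw]
    constructor
    · rintro ⟨h3, h4, h5⟩
      exact ⟨⟨by omega, h4, h5⟩, h3⟩
    · rintro ⟨⟨_, h4, h5⟩, h6⟩
      exact ⟨h6, h4, h5⟩
  rw [h2]
  push_cast at h1
  exact h1

theorem W2_per (n : ℕ) (psi : ℕ → ℝ) (hp : ∀ M, psi (M + 3 ^ n) = psi M) (M : ℕ) :
    psi M = psi (M % 3 ^ n) := by
  have h1 : ∀ (s r : ℕ), psi (r + 3 ^ n * s) = psi r := by
    intro s r
    induction s with
    | zero => simp
    | succ s ih => rw [Nat.mul_succ, ← Nat.add_assoc, hp, ih]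
  have h2 := Nat.mod_add_div M (3 ^ n)
  conv_lhs => rw [← h2]
  exact h1 _ _

/-- Group `M` by its class `Y` modulo `3 ^ n`: the odd numbers of the class form one class modulo `2 * 3 ^ n`;
`ap_upper` and `exp (-T) ≤ 1 / 3 ^ n`. -/
theorem sum_periodic (n : ℕ) (psi : ℕ → ℝ) (h0 : ∀ M, 0 ≤ psi M) (hp : ∀ M, psi (M + 3 ^ n) = psi M)
    (T W : ℝ) (hT : n * Real.log 3 ≤ T) (hW : 0 ≤ W) :
    ∑ M ∈ Ow T W, psi M / M ≤ (W / 2 + 1) / 3 ^ n * ∑ Y ∈ range (3 ^ n), psi Y := by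
  classical
  have h3 : 0 < 3 ^ n := by positivity
  have hmaps : ∀ M ∈ Ow T W, M % 3 ^ n ∈ range (3 ^ n) := fun M _ => mem_range.2 (Nat.mod_lt _ h3)
  rw [← sum_fiberwise_of_maps_to hmaps, mul_sum]
  refine sum_le_sum fun Y hY => ?_
  rw [mem_range] at hY
  have hcop : Nat.Coprime 2 (3 ^ n) := Nat.Coprime.pow_right n (by norm_num)
  obtain ⟨r, hr1, hr2⟩ := Nat.chineseRemainder hcop 1 Y
  have hset : (Ow T W).filter (fun M => M % 3 ^ n = Y) = (Fw T W).filter (fun N => N ≡ r [MOD 2 * 3 ^ n]) := by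
    ext N
    rw [mem_filter, mem_Ow, mem_filter, mem_Fw, ← Nat.modEq_and_modEq_iff_modEq_mul hcop]
    constructor
    · rintro ⟨⟨h4, h5, h6⟩, h7⟩
      refine ⟨⟨by omega, h5, h6⟩, ?_, ?_⟩
      · exact Nat.ModEq.trans (show N ≡ 1 [MOD 2] from h4) hr1.symm
      · refine Nat.ModEq.trans ?_ hr2.symm
        show N % 3 ^ n = Y % 3 ^ n
        rw [h7, Nat.mod_eq_of_lt hY]
    · rintro ⟨⟨_, h5, h6⟩, h7, h8⟩
      refine ⟨⟨h7.trans hr1, h5, h6⟩, ?_⟩
      have h9 : N % 3 ^ n = Y % 3 ^ n := h8.trans hr2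
      rw [h9, Nat.mod_eq_of_lt hY]
  rw [hset]
  have h4 : ∀ M ∈ (Fw T W).filter (fun N => N ≡ r [MOD 2 * 3 ^ n]), psi M / M = psi Y * ((1 : ℝ) / M) := by
    intro M hM
    rw [← hset, mem_filter] at hM
    rw [W2_per n psi hp M, hM.2]
    ring
  rw [sum_congr rfl h4, ← mul_sum]
  have h5 := ap_upper (2 * 3 ^ n) r (by omega) T W hW
  have h6 : Real.exp (-T) ≤ 1 / (3 : ℝ) ^ n := by
    have h7 : (1 : ℝ) / 3 ^ n = Real.exp (-(n * Real.log 3)) := by
      rw [Real.exp_neg, mul_comm, Real.exp_mul, Real.exp_log (by norm_num), Real.rpow_natCast, one_div]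
    rw [h7]
    apply Real.exp_le_exp.2
    linarith
  have h7 : ∑ M ∈ (Fw T W).filter (fun N => N ≡ r [MOD 2 * 3 ^ n]), (1 : ℝ) / M ≤ (W / 2 + 1) / 3 ^ n := by
    refine h5.trans ?_
    push_cast
    have h8 : (W / 2 + 1) / (3 : ℝ) ^ n = W / (2 * 3 ^ n) + 1 / 3 ^ n := by
      field_simp
    rw [h8]
    linarith
  rw [mul_comm]
  exact mul_le_mul_of_nonneg_right h7 (h0 Y)

end Pool.Agent.E21
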