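import Pool.Agent.W_e21c_h6.A1
import Pool.Agent.W_e21c_h6.A4
import Pool.Agent.W_e21c_h6.P2
import Pool.Agent.W_e21c_h6.W2

/-!
# The weight of the untypical numbers (MP_e21d3a_lc, natural density; file C1)
-/

set_option autoImplicit false

noncomputable section

open Finset

namespace Pool.Agent.E21

private theorem C1_num {T : ℝ} {n : ℕ} (hT : 4 ≤ T) (hn : (n : ℝ) ≤ T / 4) :
    (1 + 2 ^ (3 * n + 1)) * Real.exp (-T) ≤ 1 := by
  have h1 : (2 : ℝ) ^ (3 * n + 1) = 2 * Real.exp ((n : ℝ) * (3 * Real.log 2)) := by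
    rw [pow_succ, pow_mul, mul_comm]
    congr 1
    have : Real.exp ((n : ℝ) * (3 * Real.log 2)) = (Real.exp (Real.log 2)) ^ (3 * n) := by
      rw [← Real.exp_nat_mul]
      congr 1
      push_cast
      ring
    rw [this, Real.exp_log (by norm_num), pow_mul]
  have h2 : (n : ℝ) * (3 * Real.log 2) ≤ T * (3 / 5) := by
    have h3 : Real.log 2 < 0.7 := by
      have := Real.log_two_lt_d9
      linarith
    have h4 : 0 < Real.log 2 := Real.log_pos (by norm_num)
    have h5 : (n : ℝ) * (3 * Real.log 2) ≤ T / 4 * (3 * Real.log 2) :=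
      mul_le_mul_of_nonneg_right hn (by linarith)
    have h6 : T / 4 * (3 * Real.log 2) ≤ T / 4 * (3 * 0.7) :=
      mul_le_mul_of_nonneg_left (by linarith) (by linarith)
    linarith
  have h7 : Real.exp ((n : ℝ) * (3 * Real.log 2)) * Real.exp (-T) ≤ Real.exp (-(T * (2 / 5))) := by
    rw [← Real.exp_add]
    apply Real.exp_le_exp.2
    linarith
  have h8 : Real.exp (-(T * (2 / 5))) ≤ Real.exp (-(3 / 2)) := by
    apply Real.exp_le_exp.2
    linarith
  have h9 : Real.exp (-T) ≤ Real.exp (-3) := by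
    apply Real.exp_le_exp.2
    linarith
  have h10 : Real.exp (-(3 / 2 : ℝ)) ≤ 2 / 5 := by
    rw [Real.exp_neg]
    have : (5 / 2 : ℝ) ≤ Real.exp (3 / 2) := by
      have := Real.add_one_le_exp (3 / 2 : ℝ)
      linarith
    calc (Real.exp (3 / 2))⁻¹ ≤ (5 / 2)⁻¹ := inv_anti₀ (by norm_num) this
      _ = 2 / 5 := by norm_num
  have h11 : Real.exp (-3 : ℝ) ≤ 4 / 25 := by
    have : Real.exp (-3 : ℝ) = Real.exp (-(3 / 2)) * Real.exp (-(3 / 2)) := by
      rw [← Real.exp_add]
      norm_num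
    rw [this]
    have h0 : 0 ≤ Real.exp (-(3 / 2 : ℝ)) := (Real.exp_pos _).le
    nlinarith
  rw [h1]
  linarith [h7, h8, h9, h10, h11]

/-- **C1.** Total weight `≤ W / 2 + exp (-T)` (`sum_Ow_le`). For `l ∈ win n lam`, `b ∈ comps n l` the numbers with
`vals n N = b` are one class modulo `2 ^ (l + 1)` (`class_vals`), weight `≥ W / 2 ^ (l + 1) - exp (-T)` (`ap_lower`). Summed over
these `b` (at most `2 ^ (3 n + 1)`, as `card_comps_le` and `l ≤ 3 n`): `≥ (W / 2) ∑_{win} Pn - 2 ^ (3 n + 1) exp (-T)`.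
`(1 + 2 ^ (3 n + 1)) exp (-T) ≤ 1` for `n ≤ T / 4`, `T ≥ T0`. Use `tail_le`. -/
theorem bad_weight : ∃ T0 : ℝ, 0 < T0 ∧ ∀ (T W : ℝ) (n lam : ℕ), T0 ≤ T → (n : ℝ) ≤ T / 4 → 1 ≤ lam → lam ≤ n →
    0 ≤ W → ∑ N ∈ (Ow T W).filter (fun N => (vals n N).sum ∉ win n lam), (1 : ℝ) / N ≤ W * (n / lam ^ 2) + 1 := by
  classical
  refine ⟨4, by norm_num, ?_⟩
  intro T W n lam hT hn hlam hlamn hW
  have hT0 : (0 : ℝ) ≤ T := by linarith
  -- total
  have htot := sum_Ow_le T W hW
  have hsplit := Finset.sum_filter_add_sum_filter_not (Ow T W) (fun N => (vals n N).sum ∈ win n lam)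
    (fun N : ℕ => (1 : ℝ) / N)
  -- one vector
  have hone : ∀ l b, b ∈ comps n l →
      W / 2 ^ (l + 1) - Real.exp (-T) ≤ ∑ N ∈ (Ow T W).filter (fun N => vals n N = b), (1 : ℝ) / N := by
    intro l b hb
    obtain ⟨r, hr⟩ := class_vals hb
    have h1 := ap_lower (2 ^ (l + 1)) r (Nat.one_le_two_pow) T W hT0 hW
    have h2 : (Fw T W).filter (fun N => N ≡ r [MOD 2 ^ (l + 1)]) =
        (Ow T W).filter (fun N => vals n N = b) := by
      ext N
      rw [mem_filter, mem_filter, mem_Fw, mem_Ow, ← hr N]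
      constructor
      · rintro ⟨⟨_, h3, h4⟩, h5, h6⟩
        exact ⟨⟨h5, h3, h4⟩, h6⟩
      · rintro ⟨⟨h5, h3, h4⟩, h6⟩
        exact ⟨⟨by omega, h3, h4⟩, h5, h6⟩
    rw [h2] at h1
    push_cast at h1
    exact h1
  -- the good part
  have hgood : (∑ N ∈ (Ow T W).filter (fun N => (vals n N).sum ∈ win n lam), (1 : ℝ) / N) =
      ∑ l ∈ win n lam, ∑ b ∈ comps n l, ∑ N ∈ (Ow T W).filter (fun N => vals n N = b), (1 : ℝ) / N := by
    rw [← Finset.sum_fiberwise_of_maps_to (s := (Ow T W).filter (fun N => (vals n N).sum ∈ win n lam))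
      (t := win n lam) (g := fun N => (vals n N).sum) (fun N hN => (mem_filter.1 hN).2)]
    refine Finset.sum_congr rfl fun l hl => ?_
    rw [Finset.filter_filter]
    rw [← Finset.sum_fiberwise_of_maps_to
      (s := (Ow T W).filter (fun N => (vals n N).sum ∈ win n lam ∧ (vals n N).sum = l))
      (t := comps n l) (g := fun N => vals n N)]
    · refine Finset.sum_congr rfl fun b hb => ?_
      rw [Finset.filter_filter]
      refine Finset.sum_congr ?_ fun _ _ => rfl
      ext N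
      rw [mem_filter, mem_filter]
      constructor
      · rintro ⟨h1, _, h2⟩
        exact ⟨h1, h2⟩
      · rintro ⟨h1, h2⟩
        have h3 : (vals n N).sum = l := by rw [h2]; exact (mem_comps.1 hb).2.1
        exact ⟨h1, ⟨by rw [h3]; exact hl, h3⟩, h2⟩
    · intro N hN
      obtain ⟨h1, _, h2⟩ := mem_filter.1 hN
      have hodd : N % 2 = 1 := (mem_Ow.1 h1).1
      exact mem_comps.2 ⟨length_vals n N, h2, (path_vals hodd n).2.2.1⟩
  have hgood2 : W / 2 * (∑ l ∈ win n lam, Pn n l) - 2 ^ (3 * n + 1) * Real.exp (-T) ≤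
      ∑ N ∈ (Ow T W).filter (fun N => (vals n N).sum ∈ win n lam), (1 : ℝ) / N := by
    rw [hgood]
    have h1 : ∀ l ∈ win n lam, W / 2 * Pn n l - 2 ^ l * Real.exp (-T) ≤
        ∑ b ∈ comps n l, ∑ N ∈ (Ow T W).filter (fun N => vals n N = b), (1 : ℝ) / N := by
      intro l _
      have h2 := Finset.card_nsmul_le_sum (comps n l)
        (fun b => ∑ N ∈ (Ow T W).filter (fun N => vals n N = b), (1 : ℝ) / N)
        (W / 2 ^ (l + 1) - Real.exp (-T)) (fun b hb => hone l b hb)
      rw [nsmul_eq_mul] at h2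
      refine le_trans ?_ h2
      have h3 : ((comps n l).card : ℝ) ≤ 2 ^ l := by exact_mod_cast card_comps_le n l
      have h4 : W / 2 * Pn n l = (comps n l).card * (W / 2 ^ (l + 1)) := by
        unfold Pn
        rw [pow_succ]
        field_simp
      rw [h4, mul_sub]
      have h5 := mul_le_mul_of_nonneg_right h3 (Real.exp_pos (-T)).le
      linarith
    have h2 := Finset.sum_le_sum h1
    refine le_trans ?_ h2
    rw [Finset.sum_sub_distrib, ← Finset.mul_sum, ← Finset.sum_mul]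
    have h3 : (∑ l ∈ win n lam, (2 : ℝ) ^ l) ≤ 2 ^ (3 * n + 1) := by
      have h4 : win n lam ⊆ Finset.range (3 * n + 1) := by
        intro l hl
        unfold win at hl
        rw [mem_Icc] at hl
        rw [mem_range]
        omega
      have h5 : (∑ l ∈ win n lam, (2 : ℝ) ^ l) ≤ ∑ l ∈ Finset.range (3 * n + 1), (2 : ℝ) ^ l :=
        Finset.sum_le_sum_of_subset_of_nonneg h4 fun _ _ _ => by positivity
      have h6 : (∑ l ∈ Finset.range (3 * n + 1), (2 : ℝ) ^ l) = 2 ^ (3 * n + 1) - 1 := by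
        rw [geom_sum_eq (by norm_num)]
        norm_num
      linarith
    have h7 := mul_le_mul_of_nonneg_right h3 (Real.exp_pos (-T)).le
    linarith
  have htail := tail_le n lam hlam
  have hnum := C1_num hT hn
  have hfin : W / 2 * (1 - ∑ l ∈ win n lam, Pn n l) ≤ W / 2 * (2 * n / lam ^ 2) :=
    mul_le_mul_of_nonneg_left htail (by linarith)
  have hfin2 : W / 2 * (2 * n / lam ^ 2) = W * (n / lam ^ 2) := by ring
  linarith

end Pool.Agent.E21
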