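import Pool.Agent.W_e21c_h6.P1
import Pool.Agent.W_e21c_h6.A2

/-!
# nu: periodicity, sums, convolution (MP_e21d3a_lc, natural density; file P4)
-/

set_option autoImplicit false

noncomputable section

open Finset

namespace Pool.Agent.E21

theorem nu_nonneg (m n l Y : ℕ) : 0 ≤ nu m n l Y := by
  unfold nu
  positivity

theorem nu_periodic (m n l Y : ℕ) : nu m n l (Y + 3 ^ m) = nu m n l Y := by
  unfold nu
  have h : ∀ b : List ℕ, (G b ≡ 2 ^ l * (Y + 3 ^ m) [MOD 3 ^ m]) ↔ (G b ≡ 2 ^ l * Y [MOD 3 ^ m]) := by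
    intro b
    have h1 : 2 ^ l * (Y + 3 ^ m) ≡ 2 ^ l * Y [MOD 3 ^ m] := by
      rw [mul_add]
      unfold Nat.ModEq
      rw [Nat.add_mul_mod_self_right]
    exact ⟨fun h => h.trans h1, fun h => h.trans h1.symm⟩
  simp only [h]

private theorem P4_inv (l m : ℕ) : ∃ u : ℕ, 2 ^ l * u ≡ 1 [MOD 3 ^ m] := by
  rcases Nat.eq_zero_or_pos m with rfl | hm
  · exact ⟨0, by simp [Nat.modEq_one]⟩
  · have hc : Nat.Coprime (2 ^ l) (3 ^ m) := Nat.Coprime.pow _ _ (by norm_num)
    have h1 : 1 < 3 ^ m := Nat.one_lt_pow (by omega) (by norm_num)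
    obtain ⟨u, _, hu⟩ := Nat.exists_mul_mod_eq_one_of_coprime hc h1
    refine ⟨u, ?_⟩
    unfold Nat.ModEq
    rw [hu, Nat.mod_eq_of_lt h1]

/-- Every `b` has exactly one class `Y` modulo `3 ^ m` (`2` is invertible). -/
theorem sum_nu (m n l : ℕ) : ∑ Y ∈ range (3 ^ m), nu m n l Y = Pn n l := by
  classical
  unfold nu Pn
  rw [← Finset.sum_div, ← Nat.cast_sum]
  congr 2
  obtain ⟨u, hu⟩ := P4_inv l m
  have hpos : 0 < 3 ^ m := by positivity
  rw [Finset.card_eq_sum_card_fiberwise (f := fun b => (u * G b) % 3 ^ m)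
    (s := comps n l) (t := range (3 ^ m))
    (fun b _ => by simpa using Nat.mod_lt _ hpos)]
  refine Finset.sum_congr rfl fun Y hY => ?_
  rw [mem_range] at hY
  apply congrArg
  apply Finset.filter_congr
  intro b _
  constructor
  · intro h
    have h1 : u * G b ≡ u * (2 ^ l * Y) [MOD 3 ^ m] := h.mul_left u
    have h2 : u * (2 ^ l * Y) ≡ 1 * Y [MOD 3 ^ m] := by
      have := hu.mul_right Y
      rw [show u * (2 ^ l * Y) = 2 ^ l * u * Y by ring]
      exact this
    have h3 := h1.trans h2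
    rw [one_mul] at h3
    have h4 : (u * G b) % 3 ^ m = Y % 3 ^ m := h3
    rw [Nat.mod_eq_of_lt hY] at h4
    exact h4
  · intro h
    have h1 : Y ≡ u * G b [MOD 3 ^ m] := by
      have h2 : (u * G b) % 3 ^ m ≡ u * G b [MOD 3 ^ m] := Nat.mod_modEq _ _
      rw [← h]
      exact h2
    have h2 : 2 ^ l * Y ≡ 2 ^ l * (u * G b) [MOD 3 ^ m] := h1.mul_left _
    have h3 : 2 ^ l * (u * G b) ≡ 1 * G b [MOD 3 ^ m] := by
      rw [← mul_assoc]
      exact hu.mul_right _
    rw [one_mul] at h3
    exact (h2.trans h3).symm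

/-- `b = be ++ ga` with `be` of length `m`; `G (be ++ ga) = 2 ^ |ga| G be + 3 ^ m G ga` (`G_append`), so the congruence modulo
`3 ^ m` for `b`, `l` is the congruence for `be`, `l - |ga|` (cancel `2 ^ |ga|`). -/
theorem nu_conv {m n : ℕ} (h : m ≤ n) (l Y : ℕ) :
    nu m n l Y = ∑ v ∈ range (l + 1), nu m m (l - v) Y * Pn (n - m) v := by
  classical
  obtain ⟨k, rfl⟩ : ∃ k, n = m + k := ⟨n - m, by omega⟩
  have hk : m + k - m = k := by omega
  rw [hk]
  have hcong : ∀ be ga : List ℕ, be.length = m → be.sum + ga.sum = l →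
      (G (be ++ ga) ≡ 2 ^ l * Y [MOD 3 ^ m] ↔ G be ≡ 2 ^ be.sum * Y [MOD 3 ^ m]) := by
    intro be ga h1 h2
    have hc : Nat.gcd (3 ^ m) (2 ^ ga.sum) = 1 :=
      Nat.Coprime.pow _ _ (by norm_num)
    have h3 : G (be ++ ga) ≡ 2 ^ ga.sum * G be [MOD 3 ^ m] := by
      rw [G_append, h1]
      unfold Nat.ModEq
      rw [Nat.add_mul_mod_self_left]
    have h4 : 2 ^ l * Y = 2 ^ ga.sum * (2 ^ be.sum * Y) := by
      rw [← h2, pow_add]; ring
    rw [h4]
    constructor
    · intro h5
      exact Nat.ModEq.cancel_left_of_coprime hc (h3.symm.trans h5)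
    · intro h5
      exact h3.trans (h5.mul_left _)
  have hcard : ((comps (m + k) l).filter fun b => G b ≡ 2 ^ l * Y [MOD 3 ^ m]).card =
      ∑ v ∈ range (l + 1), ((comps m (l - v)).filter fun b => G b ≡ 2 ^ (l - v) * Y [MOD 3 ^ m]).card *
        (comps k v).card := by
    simp_rw [← Finset.card_product]
    rw [← Finset.card_sigma]
    refine Finset.card_bij' (fun b _ => ⟨(b.drop m).sum, (b.take m, b.drop m)⟩)
      (fun p _ => p.2.1 ++ p.2.2) ?_ ?_ ?_ ?_
    · intro b hb
      rw [Finset.mem_filter, mem_comps] at hb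
      obtain ⟨⟨h1, h2, h3⟩, h4⟩ := hb
      have h5 : (b.take m).sum + (b.drop m).sum = l := by
        rw [← List.sum_append, List.take_append_drop]; exact h2
      have h6 : (b.take m).length = m := by
        rw [List.length_take]; omega
      simp only [Finset.mem_sigma, Finset.mem_range, Finset.mem_product, Finset.mem_filter,
        mem_comps]
      refine ⟨by omega, ⟨⟨h6, by omega, fun x hx => h3 x (List.mem_of_mem_take hx)⟩, ?_⟩,
        by rw [List.length_drop]; omega, trivial, fun x hx => h3 x (List.mem_of_mem_drop hx)⟩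
      have h7 := (hcong (b.take m) (b.drop m) h6 h5).1 (by rw [List.take_append_drop]; exact h4)
      rw [show l - (b.drop m).sum = (b.take m).sum by omega]
      exact h7
    · rintro ⟨v, be, ga⟩ hp
      simp only [Finset.mem_sigma, Finset.mem_range, Finset.mem_product, Finset.mem_filter,
        mem_comps] at hp
      obtain ⟨h1, ⟨⟨h2, h3, h4⟩, h5⟩, h6, h7, h8⟩ := hp
      rw [Finset.mem_filter, mem_comps]
      refine ⟨⟨by simp [h2, h6], by rw [List.sum_append, h3, h7]; omega, ?_⟩, ?_⟩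
      · intro x hx
        rcases List.mem_append.1 hx with hx | hx
        · exact h4 x hx
        · exact h8 x hx
      · refine (hcong be ga h2 (by rw [h3, h7]; omega)).2 ?_
        rw [h3]; exact h5
    · intro b hb
      exact List.take_append_drop m b
    · rintro ⟨v, be, ga⟩ hp
      simp only [Finset.mem_sigma, Finset.mem_range, Finset.mem_product, Finset.mem_filter,
        mem_comps] at hp
      obtain ⟨h1, ⟨⟨h2, h3, h4⟩, h5⟩, h6, h7, h8⟩ := hp
      subst h7
      have e1 : (be ++ ga).drop m = ga := by rw [← h2]; exact List.drop_left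
      have e2 : (be ++ ga).take m = be := by rw [← h2]; exact List.take_left
      simp only [e1, e2]
  unfold nu Pn
  rw [hcard, Nat.cast_sum, Finset.sum_div]
  refine Finset.sum_congr rfl fun v hv => ?_
  rw [mem_range] at hv
  have h5 : (2 : ℝ) ^ l = 2 ^ (l - v) * 2 ^ v := by
    rw [← pow_add]; congr 1; omega
  rw [h5, Nat.cast_mul, div_mul_div_comm]

end Pool.Agent.E21
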