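import Pool.Agent.W_e21c_h6.A1
import Pool.Agent.W_e21c_h6.A5
import Pool.Agent.W_e21c_h6.P4

/-!
# Counting formula, upper bound (MP_e21d3a_lc, natural density; file C2)
-/

set_option autoImplicit false

noncomputable section

open Finset

namespace Pool.Agent.E21

/-- The error `2 ^ (l - n) / N`. -/
theorem C2_err {T : ℝ} {n l N : ℕ} (hT : 1 ≤ T) (hn : (n : ℝ) ≤ T / 4) (hl : l ≤ 3 * n) (hN : Real.exp T ≤ N) :
    (2 : ℝ) ^ l / (2 ^ n * N) ≤ Real.exp (-T / 2) := by
  have hN0 : (0 : ℝ) < N := lt_of_lt_of_le (Real.exp_pos T) hN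
  have h1 : (2 : ℝ) ^ l ≤ 2 ^ (3 * n) := pow_le_pow_right₀ (by norm_num) hl
  have h2 : (2 : ℝ) ^ (3 * n) = 2 ^ n * 4 ^ n := by
    rw [show 3 * n = n + 2 * n by ring, pow_add, pow_mul (2 : ℝ) 2 n]
    norm_num
  have h3 : (4 : ℝ) ^ n ≤ Real.exp (T / 2) := by
    have h4 : (4 : ℝ) ^ n = Real.exp (n * Real.log 4) := by
      rw [mul_comm, Real.exp_mul, Real.exp_log (by norm_num), Real.rpow_natCast]
    rw [h4]
    apply Real.exp_le_exp.2
    have h5 : Real.log 4 ≤ 2 := by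
      have h6 : Real.log 4 = 2 * Real.log 2 := by
        rw [show (4 : ℝ) = 2 ^ 2 by norm_num, Real.log_pow]
        norm_num
      have := Real.log_two_lt_d9
      linarith
    have h7 : (0 : ℝ) ≤ n := Nat.cast_nonneg n
    nlinarith
  rw [div_le_iff₀ (by positivity)]
  have h8 : Real.exp (T / 2) ≤ Real.exp (-T / 2) * N := by
    calc Real.exp (T / 2) = Real.exp (-T / 2) * Real.exp T := by
          rw [← Real.exp_add]
          congr 1
          ring
      _ ≤ Real.exp (-T / 2) * N := mul_le_mul_of_nonneg_left hN (Real.exp_pos _).le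
  calc (2 : ℝ) ^ l ≤ 2 ^ n * 4 ^ n := by rw [← h2]; exact h1
    _ ≤ 2 ^ n * (Real.exp (-T / 2) * N) := mul_le_mul_of_nonneg_left (h3.trans h8) (by positivity)
    _ = Real.exp (-T / 2) * (2 ^ n * N) := by ring

open Classical in
/-- **C2.** `N ↦ (M, b)`, `M = syr^n N`, `b = vals n N` is injective (`path_vals`), `b ∈ comps n l`, `G b ≡ 2 ^ l M mod 3 ^ n`.
`3 ^ n N ≤ 2 ^ l M ≤ 3 ^ n N (1 + 2 ^ (l - n) / N)` (`G_le`) and `2 ^ (l - n) / N ≤ 2 ^ (2 n) exp (-T) ≤ exp (-T / 2)`, so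
`1 / N ≤ (1 + exp (-T / 2)) 3 ^ n / (2 ^ l M)`; `log M` by `log_path_ge`, `log_path_le`. The number of `b` with the congruence is
`2 ^ l nu n n l M`. -/
theorem count_upper : ∃ T0 : ℝ, 0 < T0 ∧ ∀ (T W : ℝ) (n lam : ℕ) (E : Set ℕ), T0 ≤ T → (n : ℝ) ≤ T / 4 → 1 ≤ lam →
    lam ≤ n → 0 ≤ W →
    ∑ N ∈ (Ow T W).filter (fun N => (vals n N).sum ∈ win n lam ∧ syr^[n] N ∈ E), (1 : ℝ) / N ≤
      (1 + Real.exp (-T / 2)) * ∑ M ∈ (Ow (T - n * La - (lam + 1)) (W + 2 * (lam + 1))).filter (· ∈ E),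
        (1 / (M : ℝ)) * (3 ^ n * ∑ l ∈ win n lam, nu n n l M) := by
  refine ⟨1, one_pos, ?_⟩
  intro T W n lam E hT hn hlam hlamn _
  set A := (Ow (T - n * La - (lam + 1)) (W + 2 * (lam + 1))).filter (· ∈ E) with hA
  set S := (Ow T W).filter (fun N => (vals n N).sum ∈ win n lam ∧ syr^[n] N ∈ E) with hS
  set R : Finset (Σ _ : ℕ, Σ _ : ℕ, List ℕ) := A.sigma fun M => (win n lam).sigma fun l =>
    (comps n l).filter fun b => G b ≡ 2 ^ l * M [MOD 3 ^ n] with hR
  set F : (Σ _ : ℕ, Σ _ : ℕ, List ℕ) → ℝ := fun x => (1 / (x.1 : ℝ)) * (3 ^ n * (1 / 2 ^ x.2.1)) with hF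
  -- the right side
  have hRHS : ∑ M ∈ A, (1 / (M : ℝ)) * (3 ^ n * ∑ l ∈ win n lam, nu n n l M) = ∑ x ∈ R, F x := by
    rw [hR, sum_sigma]
    refine sum_congr rfl fun M _ => ?_
    rw [sum_sigma, mul_sum, mul_sum]
    refine sum_congr rfl fun l _ => ?_
    simp only [hF]
    rw [sum_const, nsmul_eq_mul]
    unfold nu
    ring
  rw [hRHS, mul_sum]
  -- the map
  set i : ℕ → (Σ _ : ℕ, Σ _ : ℕ, List ℕ) := fun N => ⟨syr^[n] N, (vals n N).sum, vals n N⟩ with hi
  have hfacts : ∀ N ∈ S, i N ∈ R ∧ (1 : ℝ) / N ≤ (1 + Real.exp (-T / 2)) * F (i N) := by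
    intro N hN
    rw [hS, mem_filter, mem_Ow] at hN
    obtain ⟨⟨hodd, hT1, hT2⟩, hwin, hE⟩ := hN
    have hN1 : 0 < N := by omega
    have hNR : (0 : ℝ) < N := by exact_mod_cast hN1
    have hexp : Real.exp T ≤ N := (Real.le_log_iff_exp_le hNR).1 hT1
    have hp := path_vals hodd n
    have hlen := length_vals n N
    obtain ⟨_, hMo, hpos, heq⟩ := hp
    have hp := path_vals hodd n
    rw [hlen] at heq
    set b := vals n N with hb
    set M := syr^[n] N with hM
    have hMpos : 0 < M := by omega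
    have hMR : (0 : ℝ) < M := by exact_mod_cast hMpos
    have hwin' := hwin
    unfold win at hwin'
    rw [mem_Icc] at hwin'
    have hl3 : b.sum ≤ 3 * n := by omega
    have herr := C2_err hT hn hl3 hexp
    have hwabs := mem_win.1 hwin
    rw [abs_le] at hwabs
    have hl2 := Real.log_two_lt_d9
    have hl2' := Real.log_two_gt_d9
    have hexp1 : Real.exp (-T / 2) ≤ 1 := by
      rw [Real.exp_le_one_iff]
      linarith
    have hlamR : (1 : ℝ) ≤ lam := by exact_mod_cast hlam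
    have hge := log_path_ge hp
    have hle := log_path_le hp
    rw [hlen] at hge hle
    have hd1 : ((b.sum : ℝ) - 2 * n) * Real.log 2 ≤ lam := by nlinarith
    have hd2 : -(lam : ℝ) ≤ ((b.sum : ℝ) - 2 * n) * Real.log 2 := by nlinarith
    constructor
    · rw [hR, mem_sigma]
      refine ⟨?_, ?_⟩
      · rw [hA, mem_filter, mem_Ow]
        refine ⟨⟨hMo, ?_, ?_⟩, hE⟩
        · show T - n * La - (lam + 1) ≤ Real.log M
          linarith
        · show Real.log M < T - n * La - (lam + 1) + (W + 2 * (lam + 1))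
          linarith
      · show (⟨b.sum, b⟩ : Σ _ : ℕ, List ℕ) ∈ (win n lam).sigma fun l =>
          (comps n l).filter fun b => G b ≡ 2 ^ l * M [MOD 3 ^ n]
        rw [mem_sigma]
        refine ⟨hwin, ?_⟩
        rw [mem_filter, mem_comps]
        refine ⟨⟨hlen, rfl, hpos⟩, ?_⟩
        rw [heq]
        have : 3 ^ n * N + G b ≡ 0 + G b [MOD 3 ^ n] :=
          Nat.ModEq.add_right _ ((Nat.modEq_zero_iff_dvd).2 ⟨N, rfl⟩)
        rw [zero_add] at this
        exact this.symm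
    · simp only [hi, hF]
      have hG := G_le hpos
      rw [hlen] at hG
      have hGR : (2 : ℝ) ^ n * (G b : ℝ) ≤ 2 ^ b.sum * 3 ^ n := by exact_mod_cast hG
      have heqR : (2 : ℝ) ^ b.sum * (M : ℝ) = 3 ^ n * N + G b := by exact_mod_cast heq
      have h1 : (G b : ℝ) ≤ Real.exp (-T / 2) * (3 ^ n * N) := by
        rw [div_le_iff₀ (by positivity)] at herr
        have h2 : (2 : ℝ) ^ n * (G b : ℝ) ≤ 2 ^ n * (Real.exp (-T / 2) * (3 ^ n * N)) := by
          calc (2 : ℝ) ^ n * (G b : ℝ) ≤ 2 ^ b.sum * 3 ^ n := hGR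
            _ ≤ (Real.exp (-T / 2) * (2 ^ n * N)) * 3 ^ n := mul_le_mul_of_nonneg_right herr (by positivity)
            _ = 2 ^ n * (Real.exp (-T / 2) * (3 ^ n * N)) := by ring
        exact le_of_mul_le_mul_left h2 (by positivity)
      have h2 : (2 : ℝ) ^ b.sum * M ≤ (1 + Real.exp (-T / 2)) * 3 ^ n * N := by
        rw [heqR]
        nlinarith
      have h3 : (1 + Real.exp (-T / 2)) * (1 / (M : ℝ) * (3 ^ n * (1 / 2 ^ b.sum))) =
          ((1 + Real.exp (-T / 2)) * 3 ^ n) / (2 ^ b.sum * M) := by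
        field_simp
      rw [h3, div_le_div_iff₀ hNR (by positivity), one_mul]
      exact h2
  have hinj : Set.InjOn i (S : Set ℕ) := by
    intro N hN N' hN' hNN
    rw [mem_coe, hS, mem_filter, mem_Ow] at hN hN'
    have hp := path_vals hN.1.1 n
    have hp' := path_vals hN'.1.1 n
    have hlen := length_vals n N
    have hlen' := length_vals n N'
    simp only [hi, Sigma.mk.injEq] at hNN
    obtain ⟨h1, h2⟩ := hNN
    have h2' := eq_of_heq h2
    simp only [Sigma.mk.injEq] at h2'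
    obtain ⟨h3, h4⟩ := h2'
    have h4' := eq_of_heq h4
    have e1 := hp.2.2.2
    have e2 := hp'.2.2.2
    rw [hlen] at e1
    rw [hlen'] at e2
    rw [h1, h4'] at e1
    have e3 : 3 ^ n * N = 3 ^ n * N' := by omega
    exact Nat.eq_of_mul_eq_mul_left (by positivity) e3
  have hF0 : ∀ x ∈ R, 0 ≤ (1 + Real.exp (-T / 2)) * F x := by
    intro x _
    simp only [hF]
    positivity
  calc ∑ N ∈ S, (1 : ℝ) / N ≤ ∑ N ∈ S, (1 + Real.exp (-T / 2)) * F (i N) :=
        sum_le_sum fun N hN => (hfacts N hN).2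
    _ = ∑ x ∈ S.image i, (1 + Real.exp (-T / 2)) * F x :=
        (sum_image (f := fun x => (1 + Real.exp (-T / 2)) * F x) hinj).symm
    _ ≤ ∑ x ∈ R, (1 + Real.exp (-T / 2)) * F x := by
        apply sum_le_sum_of_subset_of_nonneg
        · intro x hx
          obtain ⟨N, hN, rfl⟩ := mem_image.1 hx
          exact (hfacts N hN).1
        · intro x hx _
          exact hF0 x hx

end Pool.Agent.E21
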