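import Pool.Agent.W_e21c_h6.A1
import Pool.Agent.W_e21c_h6.A5
import Pool.Agent.W_e21c_h6.P4

/-!
# Counting formula, lower bound (MP_e21d3a_lc, natural density; file C3)
-/

set_option autoImplicit false

noncomputable section

open Finset

namespace Pool.Agent.E21

theorem C3_key (T W : ℝ) (n lam : ℕ) (hT : 1 ≤ T) (hn : (n : ℝ) ≤ T / 4)
    {M l : ℕ} {b : List ℕ} (hM : M ∈ Ow (T - n * La + (lam + 1)) (W - 2 * (lam + 1)))
    (hl : l ∈ win n lam) (hb : b ∈ comps n l) (hG : G b ≡ 2 ^ l * M [MOD 3 ^ n]) :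
    ∃ N, Path b N M ∧ N ∈ Ow T W := by
  rw [mem_Ow] at hM
  obtain ⟨hMo, hM1, hM2⟩ := hM
  obtain ⟨hb1, hb2, hb3⟩ := mem_comps.1 hb
  have hMpos : 0 < M := by omega
  have hMposR : (0 : ℝ) < M := by exact_mod_cast hMpos
  have hl2 := Real.log_two_lt_d9
  have hl2' := Real.log_two_gt_d9
  have hwin : (2 * (n : ℝ) - lam ≤ l) ∧ ((l : ℝ) ≤ 2 * n + lam) := by
    unfold win at hl
    rw [mem_Icc] at hl
    constructor
    · have : 2 * n ≤ l + lam := by omega
      have : (2 * (n : ℝ)) ≤ l + lam := by exact_mod_cast this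
      linarith
    · exact_mod_cast hl.2
  have hn0 : (0 : ℝ) ≤ n := Nat.cast_nonneg n
  have hlam0 : (0 : ℝ) ≤ lam := Nat.cast_nonneg lam
  -- 2 (3/2)^n ≤ M
  have hLa : La + Real.log (3 / 2) = Real.log 2 := by
    unfold La
    rw [← Real.log_mul (by norm_num) (by norm_num)]
    norm_num
  have hbig : 2 * (3 / 2 : ℝ) ^ n ≤ M := by
    have e1 : 2 * (3 / 2 : ℝ) ^ n = Real.exp (Real.log 2 + n * Real.log (3 / 2)) := by
      rw [Real.exp_add, Real.exp_log (by norm_num), Real.exp_nat_mul,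
        Real.exp_log (by norm_num)]
    rw [e1, ← Real.exp_log hMposR]
    apply Real.exp_le_exp.2
    refine le_trans ?_ hM1
    have : (n : ℝ) * La + n * Real.log (3 / 2) = n * Real.log 2 := by rw [← mul_add, hLa]
    nlinarith
  have hGR : 2 * (G b : ℝ) ≤ 2 ^ l * M := by
    have h1 := G_le hb3
    rw [hb1, hb2] at h1
    have h2 : (2 : ℝ) ^ n * G b ≤ 2 ^ l * 3 ^ n := by exact_mod_cast h1
    have h3 : (G b : ℝ) ≤ 2 ^ l * (3 / 2) ^ n := by
      rw [div_pow, ← mul_div_assoc, le_div_iff₀ (by positivity)]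
      linarith
    have h4 : (2 : ℝ) ^ l * (2 * (3 / 2 : ℝ) ^ n) ≤ 2 ^ l * M :=
      mul_le_mul_of_nonneg_left hbig (by positivity)
    linarith
  have hGlt : G b < 2 ^ l * M := by
    have h1 : (0 : ℝ) < 2 ^ l * M := by positivity
    have h2 : (G b : ℝ) < 2 ^ l * M := by
      have : (0 : ℝ) ≤ G b := Nat.cast_nonneg _
      linarith
    exact_mod_cast h2
  obtain ⟨N, hN⟩ := path_of_mod hb hMo hG hGlt
  refine ⟨N, hN, ?_⟩
  have hNo := hN.1
  have hNpos : 0 < N := by omega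
  have hNposR : (0 : ℝ) < N := by exact_mod_cast hNpos
  have heq : (2 : ℝ) ^ l * M = 3 ^ n * N + G b := by
    have := hN.2.2.2
    rw [hb1, hb2] at this
    exact_mod_cast this
  have hge := log_path_ge hN
  have hle := log_path_le hN
  rw [hb1, hb2] at hge hle
  have herr : (2 : ℝ) ^ l / (2 ^ n * N) ≤ 1 := by
    rw [div_le_one (by positivity)]
    have h1 : (2 : ℝ) ^ l * M ≤ 2 * 3 ^ n * N := by linarith
    have h2 : (2 : ℝ) ^ l * (2 * (3 / 2 : ℝ) ^ n) ≤ 2 ^ l * M :=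
      mul_le_mul_of_nonneg_left hbig (by positivity)
    have h3 : (2 : ℝ) ^ l * (3 / 2 : ℝ) ^ n ≤ 3 ^ n * N := by linarith
    rw [div_pow, ← mul_div_assoc, div_le_iff₀ (by positivity)] at h3
    have h4 : (2 : ℝ) ^ l * 3 ^ n ≤ (2 ^ n * N) * 3 ^ n := by linarith
    exact le_of_mul_le_mul_right h4 (by positivity)
  rw [mem_Ow]
  refine ⟨hNo, ?_, ?_⟩
  · have h5 : -(lam : ℝ) * Real.log 2 ≤ ((l : ℝ) - 2 * n) * Real.log 2 := by
      apply mul_le_mul_of_nonneg_right _ (by linarith)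
      linarith
    nlinarith
  · have h5 : ((l : ℝ) - 2 * n) * Real.log 2 ≤ (lam : ℝ) * Real.log 2 := by
      apply mul_le_mul_of_nonneg_right _ (by linarith)
      linarith
    nlinarith

open Classical in
/-- **C3.** For `M` in the window, `M ∈ E`, `l ∈ win n lam`, `b ∈ comps n l` with `G b ≡ 2 ^ l M mod 3 ^ n`: `G b ≤ 2 ^ l (3/2) ^ n
< 2 ^ l M` (`G_le`, `log M ≥ T - n La ≥ n log (3/2)`), so `path_of_mod` gives `N` with `Path b N M` (`N` odd, `b = vals n N`,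
`M = syr^n N`). `1 / N ≥ 3 ^ n / (2 ^ l M)`. `log N ≤ log M + n La + (l - 2 n) log 2 < T + W` (`log_path_ge`) and `log N ≥ T`
(`log_path_le`; the error term `2 ^ l / (2 ^ n N)` is at most `1 - log 2` because `3 ^ n N = 2 ^ l M - G b ≥ 2 ^ l M / 2`).
`(M, l, b) ↦ N` is injective. -/
theorem count_lower : ∃ T0 : ℝ, 0 < T0 ∧ ∀ (T W : ℝ) (n lam : ℕ) (E : Set ℕ), T0 ≤ T → (n : ℝ) ≤ T / 4 → 1 ≤ lam →
    lam ≤ n → 0 ≤ W →
    ∑ M ∈ (Ow (T - n * La + (lam + 1)) (W - 2 * (lam + 1))).filter (· ∈ E),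
        (1 / (M : ℝ)) * (3 ^ n * ∑ l ∈ win n lam, nu n n l M) ≤
      ∑ N ∈ (Ow T W).filter (fun N => (vals n N).sum ∈ win n lam ∧ syr^[n] N ∈ E), (1 : ℝ) / N := by
  refine ⟨1, one_pos, ?_⟩
  intro T W n lam E hT hn _ _ _
  have hLHS : ∑ M ∈ (Ow (T - n * La + (lam + 1)) (W - 2 * (lam + 1))).filter (· ∈ E),
        (1 / (M : ℝ)) * (3 ^ n * ∑ l ∈ win n lam, nu n n l M) =
      ∑ x ∈ ((Ow (T - n * La + (lam + 1)) (W - 2 * (lam + 1))).filter (· ∈ E)).sigma
        (fun M => (win n lam).sigma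
          (fun l => (comps n l).filter fun b => G b ≡ 2 ^ l * M [MOD 3 ^ n])),
        (3 : ℝ) ^ n / (2 ^ x.2.1 * x.1) := by
    rw [Finset.sum_sigma]
    apply Finset.sum_congr rfl
    intro M _
    rw [Finset.sum_sigma, Finset.mul_sum, Finset.mul_sum]
    apply Finset.sum_congr rfl
    intro l _
    simp only [Finset.sum_const, nsmul_eq_mul]
    unfold nu
    by_cases hM0 : (M : ℝ) = 0
    · rw [hM0]
      simp
    · field_simp
  rw [hLHS]
  set D := ((Ow (T - n * La + (lam + 1)) (W - 2 * (lam + 1))).filter (· ∈ E)).sigma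
        (fun M => (win n lam).sigma
          (fun l => (comps n l).filter fun b => G b ≡ 2 ^ l * M [MOD 3 ^ n])) with hD
  have hex : ∀ x ∈ D, ∃ N, Path x.2.2 N x.1 ∧ N ∈ Ow T W := by
    rintro ⟨M, l, b⟩ hx
    rw [hD, Finset.mem_sigma, Finset.mem_sigma, Finset.mem_filter, Finset.mem_filter] at hx
    exact C3_key T W n lam hT hn hx.1.1 hx.2.1 hx.2.2.1 hx.2.2.2
  choose! f hf using hex
  have hlen : ∀ x ∈ D, x.2.2.length = n ∧ x.2.2.sum = x.2.1 := by
    rintro ⟨M, l, b⟩ hx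
    rw [hD, Finset.mem_sigma, Finset.mem_sigma, Finset.mem_filter, Finset.mem_filter] at hx
    obtain ⟨hb1, hb2, _⟩ := mem_comps.1 hx.2.2.1
    exact ⟨hb1, hb2⟩
  have hinj : Set.InjOn f (D : Set (Σ _ : ℕ, Σ _ : ℕ, List ℕ)) := by
    intro x hx y hy hxy
    have h1 := path_unique (hf x hx).1
    have h2 := path_unique (hf y hy).1
    rw [(hlen x hx).1] at h1
    rw [(hlen y hy).1] at h2
    rw [← hxy] at h2
    have hb : x.2.2 = y.2.2 := by rw [h1.1, h2.1]
    have hM : x.1 = y.1 := by rw [h1.2, h2.2]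
    have hl : x.2.1 = y.2.1 := by rw [← (hlen x hx).2, ← (hlen y hy).2, hb]
    obtain ⟨M, l, b⟩ := x
    obtain ⟨M', l', b'⟩ := y
    simp only at hb hM hl
    subst hb hM hl
    rfl
  have hstep : ∑ x ∈ D, (3 : ℝ) ^ n / (2 ^ x.2.1 * x.1) ≤ ∑ x ∈ D, (1 : ℝ) / (f x) := by
    apply Finset.sum_le_sum
    intro x hx
    have hp := (hf x hx).1
    have hNo := hp.1
    have hMo := hp.2.1
    have hNpos : 0 < f x := by omega
    have hMpos : 0 < x.1 := by omega
    have hNposR : (0 : ℝ) < f x := by exact_mod_cast hNpos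
    have hMposR : (0 : ℝ) < x.1 := by exact_mod_cast hMpos
    have heq := hp.2.2.2
    rw [(hlen x hx).1, (hlen x hx).2] at heq
    have heqR : (2 : ℝ) ^ x.2.1 * x.1 = 3 ^ n * (f x) + G x.2.2 := by exact_mod_cast heq
    have hG0 : (0 : ℝ) ≤ G x.2.2 := Nat.cast_nonneg _
    rw [div_le_div_iff₀ (by positivity) hNposR]
    linarith
  refine le_trans hstep ?_
  rw [← Finset.sum_image (f := fun N : ℕ => (1 : ℝ) / N) hinj]
  apply Finset.sum_le_sum_of_subset_of_nonneg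
  · intro N hN
    rw [Finset.mem_image] at hN
    obtain ⟨x, hx, rfl⟩ := hN
    rw [Finset.mem_filter]
    refine ⟨(hf x hx).2, ?_⟩
    have h1 := path_unique (hf x hx).1
    rw [(hlen x hx).1] at h1
    rw [← h1.1, ← h1.2, (hlen x hx).2]
    rw [hD, Finset.mem_sigma, Finset.mem_sigma, Finset.mem_filter, Finset.mem_filter] at hx
    exact ⟨hx.2.1, hx.1.2⟩
  · intro N _ _
    positivity

end Pool.Agent.E21
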