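import Pool.Agent.W_e21c_h6.W3

/-!
# Mixing inside the counting formula (MP_e21d3a_lc, natural density; file C4)
-/

set_option autoImplicit false

noncomputable section

open Finset

namespace Pool.Agent.E21

private theorem C4_periodic {m n : ℕ} (hmn : m ≤ n) (l Y : ℕ) : nu m n l (Y + 3 ^ n) = nu m n l Y := by
  have h : ∀ k : ℕ, nu m n l (Y + k * 3 ^ m) = nu m n l Y := by
    intro k
    induction k with
    | zero => simp
    | succ k ih => rw [Nat.succ_mul, ← add_assoc, nu_periodic, ih]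
  have h2 : 3 ^ n = 3 ^ (n - m) * 3 ^ m := by rw [← pow_add, Nat.sub_add_cancel hmn]
  rw [h2]
  exact h _

private def C4_psi (m n lam M : ℕ) : ℝ :=
  3 ^ n * ∑ l ∈ win n lam, |nu n n l M - nu m n l M / 3 ^ (n - m)|

private theorem C4_psi_nonneg (m n lam M : ℕ) : 0 ≤ C4_psi m n lam M := by
  unfold C4_psi
  exact mul_nonneg (by positivity) (Finset.sum_nonneg fun _ _ => abs_nonneg _)

private theorem C4_abs {m n : ℕ} (hmn : m ≤ n) (lam M : ℕ) :
    |3 ^ n * ∑ l ∈ win n lam, nu n n l M - 3 ^ m * ∑ l ∈ win n lam, nu m n l M| ≤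
      C4_psi m n lam M := by
  unfold C4_psi
  have h : (3 : ℝ) ^ n = 3 ^ (n - m) * 3 ^ m := by rw [← pow_add, Nat.sub_add_cancel hmn]
  have h1 : (3 : ℝ) ^ n * ∑ l ∈ win n lam, nu n n l M - 3 ^ m * ∑ l ∈ win n lam, nu m n l M =
      3 ^ n * ∑ l ∈ win n lam, (nu n n l M - nu m n l M / 3 ^ (n - m)) := by
    rw [Finset.sum_sub_distrib, ← Finset.sum_div, mul_sub]
    congr 1
    rw [h]
    have : (3 : ℝ) ^ (n - m) ≠ 0 := by positivity
    field_simp
  rw [h1, abs_mul, abs_of_nonneg (by positivity : (0 : ℝ) ≤ 3 ^ n)]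
  exact mul_le_mul_of_nonneg_left (Finset.abs_sum_le_sum_abs _ _) (by positivity)

private theorem C4_sum_psi {Cm : ℝ} (hmix : Mix Cm) (m n lam : ℕ) (hm : 1 ≤ m) (hmn : m ≤ n)
    (T W : ℝ) (hT : n * Real.log 3 ≤ T) (hW : 0 ≤ W) :
    ∑ M ∈ Ow T W, C4_psi m n lam M / M ≤ (W / 2 + 1) * (Cm / m) := by
  have h1 := sum_periodic n (C4_psi m n lam) (C4_psi_nonneg m n lam) (by
    intro M
    unfold C4_psi
    simp only [C4_periodic hmn, C4_periodic le_rfl]) T W hT hW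
  refine h1.trans ?_
  have h2 : ∑ Y ∈ range (3 ^ n), C4_psi m n lam Y = 3 ^ n * ∑ l ∈ win n lam,
      ∑ Y ∈ range (3 ^ n), |nu n n l Y - nu m n l Y / 3 ^ (n - m)| := by
    unfold C4_psi
    rw [← Finset.mul_sum, Finset.sum_comm]
  rw [h2]
  have h3 := hmix.2 m n hm hmn (win n lam)
  have h4 : (W / 2 + 1) / 3 ^ n * (3 ^ n * ∑ l ∈ win n lam,
      ∑ Y ∈ range (3 ^ n), |nu n n l Y - nu m n l Y / 3 ^ (n - m)|) =
      (W / 2 + 1) * ∑ l ∈ win n lam,
        ∑ Y ∈ range (3 ^ n), |nu n n l Y - nu m n l Y / 3 ^ (n - m)| := by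
    have : (3 : ℝ) ^ n ≠ 0 := by positivity
    rw [← mul_assoc, div_mul_cancel₀ _ this]
  rw [h4]
  exact mul_le_mul_of_nonneg_left h3 (by positivity)

open Classical in
/-- **C4.** `3 ^ n ∑_l nu n n l M ≤ 3 ^ m ∑_l nu m n l M + 3 ^ n ∑_l |nu n n l M - nu m n l M / 3 ^ (n - m)|`; the second term
is periodic modulo `3 ^ n` (`nu_periodic`), use `sum_periodic` and `Mix`; the first one is `≤ cm m M` (`nu_le_cm`). -/
theorem mix_upper {Cm : ℝ} (hmix : Mix Cm) (m n lam : ℕ) (hm : 1 ≤ m) (hmn : m ≤ n) (T W : ℝ) (E : Set ℕ)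
    (hT : n * Real.log 3 ≤ T) (hW : 0 ≤ W) :
    ∑ M ∈ (Ow T W).filter (· ∈ E), (1 / (M : ℝ)) * (3 ^ n * ∑ l ∈ win n lam, nu n n l M) ≤
      Bm m T W E + (W / 2 + 1) * (Cm / m) := by
  have h1 := C4_sum_psi hmix m n lam hm hmn T W hT hW
  have h2 : ∑ M ∈ (Ow T W).filter (· ∈ E), (1 / (M : ℝ)) * (3 ^ n * ∑ l ∈ win n lam, nu n n l M) ≤
      ∑ M ∈ (Ow T W).filter (· ∈ E), (cm m M / M + C4_psi m n lam M / M) := by
    refine Finset.sum_le_sum fun M _ => ?_
    have h3 := (abs_le.1 (C4_abs hmn lam M)).2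
    have h4 := nu_le_cm hmn (win n lam) M
    rw [← add_div, one_div, inv_mul_eq_div]
    exact div_le_div_of_nonneg_right (by linarith) (Nat.cast_nonneg _)
  refine h2.trans ?_
  rw [Finset.sum_add_distrib]
  refine add_le_add le_rfl (le_trans ?_ h1)
  exact Finset.sum_le_sum_of_subset_of_nonneg (Finset.filter_subset _ _) fun M _ _ =>
    div_nonneg (C4_psi_nonneg _ _ _ _) (Nat.cast_nonneg _)

open Classical in
/-- The other direction: moreover `∑_M (cm m M - 3 ^ m ∑_l nu m n l M) / M ≤ (W / 2 + 1) (1 - ∑_{win} Pn n l)` by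
`sum_periodic`, `sum_cm_sub`, and `tail_le`. -/
theorem mix_lower {Cm : ℝ} (hmix : Mix Cm) (m n lam : ℕ) (hm : 1 ≤ m) (hmn : m ≤ n) (hlam : 1 ≤ lam) (T W : ℝ) (E : Set ℕ)
    (hT : n * Real.log 3 ≤ T) (hW : 0 ≤ W) :
    Bm m T W E ≤ ∑ M ∈ (Ow T W).filter (· ∈ E), (1 / (M : ℝ)) * (3 ^ n * ∑ l ∈ win n lam, nu n n l M) +
      (W / 2 + 1) * (Cm / m + 2 * n / lam ^ 2) := by
  have h1 := C4_sum_psi hmix m n lam hm hmn T W hT hW
  have hTm : m * Real.log 3 ≤ T := by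
    refine le_trans (mul_le_mul_of_nonneg_right (by exact_mod_cast hmn) ?_) hT
    exact Real.log_nonneg (by norm_num)
  have h5 := sum_periodic m (fun M => cm m M - 3 ^ m * ∑ l ∈ win n lam, nu m n l M)
    (fun M => sub_nonneg.2 (nu_le_cm hmn (win n lam) M)) (by
      intro M
      simp only [cm_periodic, nu_periodic]) T W hTm hW
  rw [sum_cm_sub hmn] at h5
  have h6 := tail_le n lam hlam
  have h7 : (W / 2 + 1) / 3 ^ m * (3 ^ m * (1 - ∑ l ∈ win n lam, Pn n l)) =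
      (W / 2 + 1) * (1 - ∑ l ∈ win n lam, Pn n l) := by
    have : (3 : ℝ) ^ m ≠ 0 := by positivity
    field_simp
  rw [h7] at h5
  have h8 : (W / 2 + 1) * (1 - ∑ l ∈ win n lam, Pn n l) ≤ (W / 2 + 1) * (2 * n / lam ^ 2) :=
    mul_le_mul_of_nonneg_left h6 (by positivity)
  have h2 : Bm m T W E ≤
      ∑ M ∈ (Ow T W).filter (· ∈ E), ((1 / (M : ℝ)) * (3 ^ n * ∑ l ∈ win n lam, nu n n l M) +
        C4_psi m n lam M / M + (cm m M - 3 ^ m * ∑ l ∈ win n lam, nu m n l M) / M) := by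
    unfold Bm
    refine Finset.sum_le_sum fun M _ => ?_
    have h3 := (abs_le.1 (C4_abs hmn lam M)).1
    rw [one_div, inv_mul_eq_div, ← add_div, ← add_div]
    exact div_le_div_of_nonneg_right (by linarith) (Nat.cast_nonneg _)
  refine h2.trans ?_
  rw [Finset.sum_add_distrib, Finset.sum_add_distrib, add_assoc]
  refine add_le_add le_rfl ?_
  rw [mul_add]
  refine add_le_add (le_trans ?_ h1) (le_trans ?_ (h5.trans h8))
  · exact Finset.sum_le_sum_of_subset_of_nonneg (Finset.filter_subset _ _) fun M _ _ =>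
      div_nonneg (C4_psi_nonneg _ _ _ _) (Nat.cast_nonneg _)
  · exact Finset.sum_le_sum_of_subset_of_nonneg (Finset.filter_subset _ _) fun M _ _ =>
      div_nonneg (sub_nonneg.2 (nu_le_cm hmn (win n lam) M)) (Nat.cast_nonneg _)

end Pool.Agent.E21
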