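import Pool.Agent.W_e21c_h6.C1
import Pool.Agent.W_e21c_h6.C2
import Pool.Agent.W_e21c_h6.C3
import Pool.Agent.W_e21c_h6.C4

/-!
# The transfer theorem (MP_e21d3a_lc, natural density; file C5)
-/

set_option autoImplicit false

noncomputable section

open Finset

namespace Pool.Agent.E21

/-- Conditions on the parameters: `n log 3 ≤ T - n La - (lam + 1)`. -/
theorem transfer_cond {T : ℝ} {n lam : ℕ} (hT : 3 ≤ T) (hn : (n : ℝ) ≤ T / 4) (hlam : lam ≤ n) :
    n * Real.log 3 ≤ T - n * La - (lam + 1) := by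
  have h1 : (lam : ℝ) ≤ n := by exact_mod_cast hlam
  have h2 : n * Real.log 3 + n * La = 2 * n * Real.log 2 := by rw [La_eq]; ring
  have h3 := Real.log_two_lt_d9
  have h4 : (2 * n : ℝ) * Real.log 2 ≤ (T / 2) * 0.7 := by
    have h5 : (0 : ℝ) ≤ n := Nat.cast_nonneg n
    have h6 : 0 < Real.log 2 := Real.log_pos (by norm_num)
    nlinarith
  linarith

/-- The factor `1 + exp (-T / 2)` costs a constant. -/
theorem transfer_exp {T x c : ℝ} (hT : 0 ≤ T) (hc : 0 ≤ c) (hx : x ≤ c * (T + 4)) :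
    Real.exp (-T / 2) * x ≤ 4 * c := by
  have h1 : T / 2 + 1 ≤ Real.exp (T / 2) := Real.add_one_le_exp _
  have h2 : Real.exp (-T / 2) * Real.exp (T / 2) = 1 := by
    rw [← Real.exp_add]
    have : -T / 2 + T / 2 = 0 := by ring
    rw [this, Real.exp_zero]
  have h3 : 0 < Real.exp (-T / 2) := Real.exp_pos _
  have h4 : T + 4 ≤ 4 * Real.exp (T / 2) := by linarith
  calc Real.exp (-T / 2) * x ≤ Real.exp (-T / 2) * (c * (T + 4)) :=
        mul_le_mul_of_nonneg_left hx h3.le
    _ ≤ Real.exp (-T / 2) * (c * (4 * Real.exp (T / 2))) := by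
        apply mul_le_mul_of_nonneg_left _ h3.le
        exact mul_le_mul_of_nonneg_left h4 hc
    _ = 4 * c * (Real.exp (-T / 2) * Real.exp (T / 2)) := by ring
    _ = 4 * c := by rw [h2, mul_one]

/-- **C5.** Put together `bad_weight`, `count_upper`, `count_lower`, `mix_upper`, `mix_lower`, `Bm_wide`, `Bm_narrow` with
`kap = lam + 1`; `Ls T W (Pull n E)` is the sum over the typical plus the sum over the untypical `N`. Conditions:
`n (log 3 + La) = 2 n log 2 ≤ .35 T` and `kap ≤ T / 4 + 1`, so `n log 3 ≤ T - n La - kap` for `T ≥ T0`; the factor `1 + exp (-T / 2)`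
costs at most `exp (-T / 2) (W + ...) ≤ 1` as `W ≤ T`. If `W < 2 kap` in `count_lower`, the window is empty; use `Bm_le`. -/
theorem transfer {Cm : ℝ} (hmix : Mix Cm) : ∃ C T0 : ℝ, 0 < C ∧ 0 < T0 ∧
    ∀ (T W : ℝ) (m n lam : ℕ) (E : Set ℕ), T0 ≤ T → 1 ≤ m → m ≤ n → (n : ℝ) ≤ T / 4 → 1 ≤ lam → lam ≤ n → 0 ≤ W → W ≤ T →
    |Ls T W (Pull n E) - Bm m (T - n * La) W E| ≤ C * (lam + 1) + C * (W + lam + 1) * (1 / m + n / lam ^ 2) := by
  classical
  obtain ⟨T1, hT1, hbad⟩ := bad_weight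
  obtain ⟨T2, hT2, hup⟩ := count_upper
  obtain ⟨T3, hT3, hlo⟩ := count_lower
  have hCm : 1 ≤ Cm := hmix.1
  refine ⟨20 * Cm, max (max T1 T2) (max T3 3), by linarith, ?_, ?_⟩
  · exact lt_of_lt_of_le hT1 (le_trans (le_max_left _ _) (le_max_left _ _))
  intro T W m n lam E hT hm hmn hn hlam hlamn hW hWT
  have hT1' : T1 ≤ T := le_trans (le_trans (le_max_left _ _) (le_max_left _ _)) hT
  have hT2' : T2 ≤ T := le_trans (le_trans (le_max_right _ _) (le_max_left _ _)) hT
  have hT3' : T3 ≤ T := le_trans (le_trans (le_max_left _ _) (le_max_right _ _)) hT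
  have hT4' : 3 ≤ T := le_trans (le_trans (le_max_right _ _) (le_max_right _ _)) hT
  have hcond := transfer_cond hT4' hn hlamn
  have hlog3 : 0 < Real.log 3 := Real.log_pos (by norm_num)
  have hmnR : (m : ℝ) ≤ n := by exact_mod_cast hmn
  have hlamR : (1 : ℝ) ≤ lam := by exact_mod_cast hlam
  have hlamnR : (lam : ℝ) ≤ n := by exact_mod_cast hlamn
  have hmR : (1 : ℝ) ≤ m := by exact_mod_cast hm
  have hkap : (0 : ℝ) ≤ (lam : ℝ) + 1 := by linarith
  have hcondm : m * Real.log 3 ≤ T - n * La - (lam + 1) :=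
    le_trans (mul_le_mul_of_nonneg_right hmnR hlog3.le) hcond
  have hcondm' : m * Real.log 3 ≤ T - n * La := by linarith
  -- the three sums
  set A : ℝ := ∑ N ∈ (Ow T W).filter (fun N => (vals n N).sum ∈ win n lam ∧ syr^[n] N ∈ E), (1 : ℝ) / N
    with hA
  set B : ℝ := ∑ N ∈ (Ow T W).filter (fun N => (vals n N).sum ∉ win n lam), (1 : ℝ) / N with hB
  have hpos : ∀ N : ℕ, (0 : ℝ) ≤ 1 / N := fun N => by positivity
  have hLs_le : Ls T W (Pull n E) ≤ A + B := by
    rw [hA, hB]
    unfold Ls Pull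
    simp only [Finset.sum_filter]
    rw [← Finset.sum_add_distrib]
    apply Finset.sum_le_sum
    intro N _
    have := hpos N
    simp only [Set.mem_ofPred_eq]
    by_cases h1 : (vals n N).sum ∈ win n lam <;> by_cases h2 : syr^[n] N ∈ E <;>
      simp only [h1, h2, if_true, if_false, and_self, and_true, true_and, false_and, and_false,
        not_true_eq_false, not_false_eq_true, add_zero, zero_add, le_refl, this]
  have hA_le : A ≤ Ls T W (Pull n E) := by
    rw [hA]
    unfold Ls Pull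
    simp only [Finset.sum_filter]
    apply Finset.sum_le_sum
    intro N _
    have := hpos N
    simp only [Set.mem_ofPred_eq]
    by_cases h1 : (vals n N).sum ∈ win n lam <;> by_cases h2 : syr^[n] N ∈ E <;>
      simp only [h1, h2, if_true, if_false, and_self, and_true, true_and, false_and, and_false,
        le_refl, this]
  have hB_le : B ≤ W * (n / lam ^ 2) + 1 := hbad T W n lam hT1' hn hlam hlamn hW
  have hA_up := hup T W n lam E hT2' hn hlam hlamn hW
  have hA_lo := hlo T W n lam E hT3' hn hlam hlamn hW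
  have hBm0 : 0 ≤ Bm m (T - n * La) W E := Bm_nonneg _ _ _ _
  have hLs0 : 0 ≤ Ls T W (Pull n E) := Ls_nonneg _ _ _
  have hBmle : Bm m (T - n * La) W E ≤ W / 2 + 1 := Bm_le m _ W E hcondm' hW
  set q : ℝ := (n : ℝ) / lam ^ 2 with hq
  have hq0 : 0 ≤ q := by positivity
  set u : ℝ := 1 / (m : ℝ) with hu
  have hu0 : 0 ≤ u := by positivity
  have hu1 : u ≤ 1 := by rw [hu, div_le_one (by linarith)]; exact hmR
  have hCmu : Cm / m = Cm * u := by rw [hu]; ring
  rw [abs_sub_le_iff]
  constructor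
  · -- upper bound
    set X : ℝ := ∑ M ∈ (Ow (T - n * La - (lam + 1)) (W + 2 * (lam + 1))).filter (· ∈ E),
        (1 / (M : ℝ)) * (3 ^ n * ∑ l ∈ win n lam, nu n n l M) with hX
    have hX_le : X ≤ Bm m (T - n * La - (lam + 1)) (W + 2 * (lam + 1)) E +
        ((W + 2 * (lam + 1)) / 2 + 1) * (Cm / m) :=
      mix_upper hmix m n lam hm hmn _ _ E hcond (by linarith)
    have hwide : Bm m (T - n * La - (lam + 1)) (W + 2 * (lam + 1)) E ≤
        Bm m (T - n * La) W E + ((lam + 1) + 2) :=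
      Bm_wide m (T - n * La) W (lam + 1) E hcondm hW hkap
    rw [hCmu] at hX_le
    have hX_le' : X ≤ Bm m (T - n * La) W E + ((lam : ℝ) + 3) + (W / 2 + lam + 2) * (Cm * u) := by
      calc X ≤ _ := hX_le
        _ ≤ Bm m (T - n * La) W E + ((lam + 1) + 2) + ((W + 2 * (lam + 1)) / 2 + 1) * (Cm * u) := by
            linarith only [hwide]
        _ = _ := by ring
    have hCu : Cm * u ≤ Cm := by nlinarith only [hu1, hCm]
    have hCu0 : 0 ≤ Cm * u := by positivity
    have hexp : Real.exp (-T / 2) * X ≤ 4 * (2 * Cm) := by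
      apply transfer_exp (by linarith only [hn, hlamR, hlamnR]) (by linarith only [hCm])
      have h1 : (W / 2 + lam + 2) * (Cm * u) ≤ (W / 2 + lam + 2) * Cm :=
        mul_le_mul_of_nonneg_left hCu (by linarith only [hW, hlamR])
      have h2 : (W / 2 + lam + 2) * Cm ≤ (T / 2 + T / 4 + 2) * Cm :=
        mul_le_mul_of_nonneg_right (by linarith only [hn, hWT, hlamnR]) (by linarith only [hCm])
      have h3 : X ≤ (T / 2 + 1) + (T / 4 + 3) + (T / 2 + T / 4 + 2) * Cm := by linarith only [hn, hWT, hlamnR, hBmle, hX_le, hwide, h1, h2]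
      nlinarith only [hCm, hn, hWT, hlamnR, hBmle, hX_le, hwide, h1, h2]
    have hA_up' : A ≤ X + 8 * Cm := by
      calc A ≤ (1 + Real.exp (-T / 2)) * X := hA_up
        _ = X + Real.exp (-T / 2) * X := by ring
        _ ≤ X + 8 * Cm := by linarith only [hexp]
    have h1 : (W / 2 + lam + 2) * (Cm * u) ≤ 20 * Cm * (W + lam + 1) * u := by
      have : (W / 2 + lam + 2) ≤ 20 * (W + lam + 1) := by linarith only [hW, hlamR]
      calc (W / 2 + lam + 2) * (Cm * u) ≤ (20 * (W + lam + 1)) * (Cm * u) :=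
            mul_le_mul_of_nonneg_right this hCu0
        _ = _ := by ring
    have h2 : W * q ≤ 20 * Cm * (W + lam + 1) * q := by
      apply mul_le_mul_of_nonneg_right _ hq0
      nlinarith only [hCm, hW, hlamR]
    have h3 : 1 + ((lam : ℝ) + 3) + 8 * Cm ≤ 20 * Cm * (lam + 1) := by nlinarith only [hCm]
    calc Ls T W (Pull n E) - Bm m (T - n * La) W E ≤
        1 + ((lam : ℝ) + 3) + 8 * Cm + (W / 2 + lam + 2) * (Cm * u) + W * q := by linarith only [hLs_le, hB_le, hA_up, hX_le, hwide, hexp]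
      _ ≤ 20 * Cm * (lam + 1) + 20 * Cm * (W + lam + 1) * u + 20 * Cm * (W + lam + 1) * q := by
          linarith only [h1, h2, h3]
      _ = _ := by ring
  · -- lower bound
    have hR0 : 0 ≤ 20 * Cm * (W + lam + 1) * (u + q) := by positivity
    by_cases hW2 : 0 ≤ W - 2 * ((lam : ℝ) + 1)
    · have hnarrow : Bm m (T - n * La) W E ≤
          Bm m (T - n * La + (lam + 1)) (W - 2 * (lam + 1)) E + ((lam + 1) + 2) :=
        Bm_narrow m (T - n * La) W (lam + 1) E hcondm hW hkap
      have hmixl := mix_lower hmix m n lam hm hmn hlam (T - n * La + (lam + 1))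
        (W - 2 * (lam + 1)) E (by linarith) hW2
      have hq2 : (2 : ℝ) * n / lam ^ 2 = 2 * q := by rw [hq]; ring
      rw [hCmu, hq2] at hmixl
      have h1 : ((W - 2 * ((lam : ℝ) + 1)) / 2 + 1) * (Cm * u + 2 * q) ≤
          20 * Cm * (W + lam + 1) * (u + q) := by
        have h2 : Cm * u + 2 * q ≤ 2 * Cm * (u + q) := by nlinarith only [hu0, hCm, hq0, mul_nonneg hu0 (by linarith : (0:ℝ) ≤ Cm)]
        have h3 : (W - 2 * ((lam : ℝ) + 1)) / 2 + 1 ≤ 10 * (W + lam + 1) := by linarith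
        have h4 : 0 ≤ (W - 2 * ((lam : ℝ) + 1)) / 2 + 1 := by linarith
        have h5 : 0 ≤ 2 * Cm * (u + q) := by positivity
        calc ((W - 2 * ((lam : ℝ) + 1)) / 2 + 1) * (Cm * u + 2 * q) ≤
            ((W - 2 * ((lam : ℝ) + 1)) / 2 + 1) * (2 * Cm * (u + q)) :=
              mul_le_mul_of_nonneg_left h2 h4
          _ ≤ (10 * (W + lam + 1)) * (2 * Cm * (u + q)) := mul_le_mul_of_nonneg_right h3 h5
          _ = _ := by ring
      have h6 : ((lam : ℝ) + 1) + 2 ≤ 20 * Cm * (lam + 1) := by nlinarith only [hCm]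
      linarith only [hA_le, hA_lo, hnarrow, hmixl, h1, h6]
    · have h6 : (W : ℝ) / 2 + 1 ≤ 20 * Cm * (lam + 1) := by
        rw [not_le] at hW2
        nlinarith only [hCm, hW2]
      linarith

end Pool.Agent.E21
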