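import Pool.Agent.W_e21c_h6.A6
import Pool.Agent.W_e21c_h6.C1

/-!
# Bad numbers and the window (MP_e21d3a_lc, natural density; file D1)
-/

set_option autoImplicit false

noncomputable section

open Finset

namespace Pool.Agent.E21

/-- Splitting off the untypical numbers. -/
private theorem D1_split (T W : ℝ) (n lam : ℕ) (E F : Set ℕ)
    (h : ∀ N ∈ Ow T W, (vals n N).sum ∈ win n lam → N ∈ E → N ∈ F) :
    Ls T W E ≤ Ls T W F +
      ∑ N ∈ (Ow T W).filter (fun N => (vals n N).sum ∉ win n lam), (1 : ℝ) / N := by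
  classical
  unfold Ls
  have hsub : (Ow T W).filter (· ∈ E) ⊆
      (Ow T W).filter (· ∈ F) ∪ (Ow T W).filter (fun N => (vals n N).sum ∉ win n lam) := by
    intro N hN
    rw [mem_filter] at hN
    rw [mem_union, mem_filter, mem_filter]
    by_cases hw : (vals n N).sum ∈ win n lam
    · exact Or.inl ⟨hN.1, h N hN.1 hw hN.2⟩
    · exact Or.inr ⟨hN.1, hw⟩
  have h1 : ∑ N ∈ (Ow T W).filter (· ∈ E), (1 : ℝ) / N ≤
      ∑ N ∈ (Ow T W).filter (· ∈ F) ∪ (Ow T W).filter (fun N => (vals n N).sum ∉ win n lam),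
        (1 : ℝ) / N :=
    sum_le_sum_of_subset_of_nonneg hsub (fun N _ _ => by positivity)
  refine h1.trans ?_
  have h2 := sum_union_inter (s₁ := (Ow T W).filter (· ∈ F))
    (s₂ := (Ow T W).filter (fun N => (vals n N).sum ∉ win n lam)) (f := fun N : ℕ => (1 : ℝ) / N)
  have h3 : 0 ≤ ∑ N ∈ (Ow T W).filter (· ∈ F) ∩
      (Ow T W).filter (fun N => (vals n N).sum ∉ win n lam), (1 : ℝ) / N :=
    sum_nonneg fun N _ => by positivity
  linarith

private theorem D1_sum_le {n lam l : ℕ} (h : l ∈ win n lam) : l ≤ 2 * n + lam := by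
  unfold win at h
  exact (mem_Icc.1 h).2

private theorem D1_pow (m : ℕ) : (2 : ℝ) ^ m = Real.exp (m * Real.log 2) := by
  rw [mul_comm, Real.exp_mul, Real.exp_log (by norm_num), Real.rpow_natCast]

private theorem D1_log2 : Real.log 2 < 0.6932 := by
  have := Real.log_two_lt_d9
  linarith

private theorem D1_log2' : 0 < Real.log 2 := Real.log_pos (by norm_num)

/-- Typical `N ∈ Bd 0` have `syr^n N ∈ Bd c` (`bad_forward`; `2 ^ l ≤ 2 ^ n N` since `l ≤ 3 n`, `2 ^ (2 n) ≤ exp T ≤ N`). -/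
theorem Ls_forward : ∃ T0 : ℝ, 0 < T0 ∧ ∀ (T W : ℝ) (n lam N0 : ℕ) (del c : ℝ), T0 ≤ T → (n : ℝ) ≤ T / 4 → 1 ≤ lam →
    lam ≤ n → 0 ≤ W → 0 < del → c + (KK del + 1) * (lam + 1) ≤ del * n * La →
    Ls T W (Bd N0 (KK del) 0) ≤ Ls T W (Pull n (Bd N0 (KK del) c)) + (W * (n / lam ^ 2) + 1) := by
  obtain ⟨T0, hT0, hbw⟩ := bad_weight
  refine ⟨T0, hT0, ?_⟩
  intro T W n lam N0 del c hT hn hlam hln hW hdel hc
  have hbw' := hbw T W n lam hT hn hlam hln hW
  have hTp : 0 < T := lt_of_lt_of_le hT0 hT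
  refine (D1_split T W n lam (Bd N0 (KK del) 0) (Pull n (Bd N0 (KK del) c)) ?_).trans
    (by linarith)
  intro N hN hw hB
  rw [mem_Ow] at hN
  obtain ⟨hN1, hN2, hN3⟩ := hN
  have hNp : (0 : ℝ) < N := by exact_mod_cast (by omega : 0 < N)
  have hlen : (vals n N).length = n := length_vals n N
  have hl := D1_sum_le hw
  refine bad_forward hdel (path_vals hN1 n) (by rw [hlen]; exact hw) hlam ?_ (by rw [hlen]; exact hc)
    hB
  rw [hlen]
  have h1 : (2 : ℝ) ^ (2 * n) ≤ N := by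
    rw [D1_pow, ← Real.exp_log hNp]
    apply Real.exp_le_exp.2
    have h2 := D1_log2
    have h3 : ((2 * n : ℕ) : ℝ) * Real.log 2 ≤ 2 * (T / 4) * 1 := by
      push_cast
      have h4 : (0 : ℝ) ≤ n := Nat.cast_nonneg n
      have h5 : 2 * (n : ℝ) ≤ 2 * (T / 4) := by linarith
      exact mul_le_mul h5 (by linarith) D1_log2'.le (by positivity)
    linarith
  have h2 : 2 ^ (2 * n) ≤ N := by exact_mod_cast h1
  calc 2 ^ (vals n N).sum ≤ 2 ^ (n + 2 * n) := Nat.pow_le_pow_right (by norm_num) (by omega)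
    _ = 2 ^ n * 2 ^ (2 * n) := by rw [pow_add]
    _ ≤ 2 ^ n * N := Nat.mul_le_mul_left _ h2

/-- Typical `N` with `syr^n N ∈ Bd c` are in `Bd 0` (`bad_backward`; `2 ^ l N0 < N` since `l ≤ 3 n`). -/
theorem Ls_backward : ∃ T0 : ℝ, 0 < T0 ∧ ∀ (T W : ℝ) (n lam N0 : ℕ) (del c : ℝ), T0 ≤ T → (n : ℝ) ≤ T / 4 → 1 ≤ lam →
    lam ≤ n → 0 ≤ W → 0 < del → 1 ≤ N0 → Real.log N0 + 3 * n * Real.log 2 < T →
    del * n * La + (KK del + 1) * (lam + 1) ≤ c →
    Ls T W (Pull n (Bd N0 (KK del) c)) ≤ Ls T W (Bd N0 (KK del) 0) + (W * (n / lam ^ 2) + 1) := by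
  obtain ⟨T0, hT0, hbw⟩ := bad_weight
  refine ⟨T0, hT0, ?_⟩
  intro T W n lam N0 del c hT hn hlam hln hW hdel hN0 hlog hc
  have hbw' := hbw T W n lam hT hn hlam hln hW
  refine (D1_split T W n lam (Pull n (Bd N0 (KK del) c)) (Bd N0 (KK del) 0) ?_).trans
    (by linarith)
  intro N hN hw hB
  rw [mem_Ow] at hN
  obtain ⟨hN1, hN2, hN3⟩ := hN
  have hNp : (0 : ℝ) < N := by exact_mod_cast (by omega : 0 < N)
  have hN0p : (0 : ℝ) < N0 := by exact_mod_cast (by omega : 0 < N0)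
  have hlen : (vals n N).length = n := length_vals n N
  have hl := D1_sum_le hw
  refine bad_backward hdel (path_vals hN1 n) (by rw [hlen]; exact hw) hlam ?_
    (by rw [hlen]; exact hc) hB
  have h1 : (2 : ℝ) ^ (vals n N).sum * N0 < N := by
    rw [D1_pow, ← Real.exp_log hNp]
    conv_lhs => rw [← Real.exp_log hN0p]
    rw [← Real.exp_add]
    apply Real.exp_lt_exp.2
    have h3 : ((vals n N).sum : ℝ) * Real.log 2 ≤ 3 * n * Real.log 2 := by
      apply mul_le_mul_of_nonneg_right _ D1_log2'.le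
      have h4 : (vals n N).sum ≤ 3 * n := by omega
      exact_mod_cast h4
    linarith
  exact_mod_cast h1

/-- Typical `N` with `log N < T + W ≤ log N0`: `M = syr^n N ≤ N (3 / 4) ^ n 2 ^ lam + (3 / 2) ^ n ≤ N ≤ N0`
(`2 ^ l M = 3 ^ n N + G b`, `l ≥ 2 n - lam`, `G b ≤ 2 ^ l (3/2) ^ n`, `5 lam ≤ n`), so `M ∉ Bd c` (`not_bad_of_le`). -/
theorem Ls_base : ∃ T0 : ℝ, 0 < T0 ∧ ∀ (T W : ℝ) (n lam N0 : ℕ) (del c : ℝ), T0 ≤ T → (n : ℝ) ≤ T / 4 → 1 ≤ lam →
    5 * lam ≤ n → 0 ≤ W → 0 < del → 1 ≤ N0 → T + W ≤ Real.log N0 → 0 ≤ c →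
    Ls T W (Pull n (Bd N0 (KK del) c)) ≤ W * (n / lam ^ 2) + 1 := by
  obtain ⟨T0, hT0, hbw⟩ := bad_weight
  refine ⟨max T0 2, lt_max_of_lt_left hT0, ?_⟩
  intro T W n lam N0 del c hT hn hlam hln hW hdel hN0 hlog hc
  have hT1 : T0 ≤ T := le_trans (le_max_left _ _) hT
  have hT2 : 2 ≤ T := le_trans (le_max_right _ _) hT
  have hbw' := hbw T W n lam hT1 hn hlam (by omega) hW
  have hemp : Ls T W (∅ : Set ℕ) = 0 := by
    unfold Ls
    simp
  refine (D1_split T W n lam (Pull n (Bd N0 (KK del) c)) ∅ ?_).trans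
    (by rw [hemp]; linarith)
  intro N hN hw hB
  exfalso
  rw [mem_Ow] at hN
  obtain ⟨hN1, hN2, hN3⟩ := hN
  have hNp : (0 : ℝ) < N := by exact_mod_cast (by omega : 0 < N)
  have hN0p : (0 : ℝ) < N0 := by exact_mod_cast (by omega : 0 < N0)
  have hlen : (vals n N).length = n := length_vals n N
  have hl := D1_sum_le hw
  have hpath := path_vals hN1 n
  have hMp : (0 : ℝ) < ((syr^[n] N : ℕ) : ℝ) := by
    have := hpath.2.1
    exact_mod_cast (by omega : 0 < syr^[n] N)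
  have h1 := log_path_le hpath
  rw [hlen] at h1
  have hw' := mem_win.1 hw
  rw [abs_le] at hw'
  have hnr : (5 : ℝ) * lam ≤ n := by exact_mod_cast hln
  have hlr : (1 : ℝ) ≤ lam := by exact_mod_cast hlam
  have hLa : 1 / 4 ≤ La := by
    unfold La
    have h2 := Real.one_sub_inv_le_log_of_pos (show (0 : ℝ) < 4 / 3 by norm_num)
    linarith [show (1 : ℝ) - (4 / 3)⁻¹ = 1 / 4 by norm_num]
  have h2 : (2 : ℝ) ^ (vals n N).sum / (2 ^ n * N) ≤ 1 / 2 := by
    have h3 : (2 : ℝ) ^ (vals n N).sum ≤ 2 ^ n * 2 ^ (2 * n) := by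
      rw [← pow_add]
      exact pow_le_pow_right₀ (by norm_num) (by omega)
    have h4 : (2 : ℝ) ^ (2 * n) ≤ N * Real.exp (-1) := by
      rw [D1_pow]
      conv_rhs => rw [← Real.exp_log hNp]
      rw [← Real.exp_add]
      apply Real.exp_le_exp.2
      have h5 := D1_log2
      have h6 : ((2 * n : ℕ) : ℝ) * Real.log 2 ≤ 2 * (T / 4) * 1 := by
        push_cast
        have h7 : (0 : ℝ) ≤ n := Nat.cast_nonneg n
        have h8 : 2 * (n : ℝ) ≤ 2 * (T / 4) := by linarith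
        exact mul_le_mul h8 (by linarith) D1_log2'.le (by positivity)
      linarith
    have h5 : Real.exp (-1) ≤ 1 / 2 := by
      have := Real.exp_neg_one_lt_d9
      linarith
    rw [div_le_iff₀ (by positivity)]
    calc (2 : ℝ) ^ (vals n N).sum ≤ 2 ^ n * 2 ^ (2 * n) := h3
      _ ≤ 2 ^ n * (N * Real.exp (-1)) := mul_le_mul_of_nonneg_left h4 (by positivity)
      _ ≤ 2 ^ n * (N * (1 / 2)) := by gcongr
      _ = 1 / 2 * (2 ^ n * N) := by ring
  have h3 : -(((vals n N).sum : ℝ) - 2 * n) * Real.log 2 ≤ lam * Real.log 2 :=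
    mul_le_mul_of_nonneg_right (by linarith) D1_log2'.le
  have h4 : (lam : ℝ) * Real.log 2 ≤ lam * 0.6932 :=
    mul_le_mul_of_nonneg_left D1_log2.le (by linarith)
  have h5 : (n : ℝ) * (1 / 4) ≤ n * La :=
    mul_le_mul_of_nonneg_left hLa (Nat.cast_nonneg n)
  have h6 : Real.log ((syr^[n] N : ℕ) : ℝ) < Real.log N0 := by
    linarith
  have h7 : ((syr^[n] N : ℕ) : ℝ) < N0 := (Real.log_lt_log_iff hMp hN0p).1 h6
  have h8 : syr^[n] N ≤ N0 := by
    have : syr^[n] N < N0 := by exact_mod_cast h7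
    omega
  have hK : 0 ≤ KK del := by
    unfold KK
    have := La_pos
    positivity
  exact not_bad_of_le hK hc h8 hB

end Pool.Agent.E21
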