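import Pool.Agent.W_e21c_h6.Defs

/-!
# Almost all orbits of the 3n+1 map: dynamics, windows (MP_e21d3a_lc; helper6, proofs row 504)
-/

set_option autoImplicit false

noncomputable section

open Finset

namespace Pool.Agent.E21

/-- The odd part of `3 N + 1`. -/
def syr (N : ℕ) : ℕ := (3 * N + 1) / 2 ^ padicValNat 2 (3 * N + 1)

/-- The exponents of the first `n` odd steps, the last one first. -/
def vals : ℕ → ℕ → List ℕ
  | 0, _ => []
  | n + 1, N => padicValNat 2 (3 * syr^[n] N + 1) :: vals n N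

/-- The exponents `b` lead from `N` to `M`. -/
def Path (b : List ℕ) (N M : ℕ) : Prop :=
  N % 2 = 1 ∧ M % 2 = 1 ∧ (∀ x ∈ b, 1 ≤ x) ∧ 2 ^ b.sum * M = 3 ^ b.length * N + G b

/-- `log (4 / 3)`. -/
def La : ℝ := Real.log (4 / 3)

/-- The constant of the number of steps. -/
def KK (del : ℝ) : ℝ := 3 / La + del

/-- The odd numbers which do not reach `[0, N0]` in `K log N + c` steps of `col`. -/
def Bd (N0 : ℕ) (K c : ℝ) : Set ℕ :=
  {N | N % 2 = 1 ∧ ¬ ∃ k : ℕ, (k : ℝ) ≤ K * Real.log N + c ∧ col^[k] N ≤ N0}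

/-- `{l : |l - 2 n| ≤ lam}`. -/
def win (n lam : ℕ) : Finset ℕ := Finset.Icc (2 * n - lam) (2 * n + lam)

/-- The odd numbers `N` with `T ≤ log N < T + W`. -/
def Ow (T W : ℝ) : Finset ℕ :=
  (Finset.range ⌈Real.exp (T + W)⌉₊).filter fun N => N % 2 = 1 ∧ T ≤ Real.log N ∧ Real.log N < T + W

/-- The positive numbers `N` with `T ≤ log N < T + W`. -/
def Fw (T W : ℝ) : Finset ℕ :=
  (Finset.range ⌈Real.exp (T + W)⌉₊).filter fun N => 1 ≤ N ∧ T ≤ Real.log N ∧ Real.log N < T + W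

open Classical in
/-- The logarithmic weight of `E` in the window. -/
def Ls (T W : ℝ) (E : Set ℕ) : ℝ := ∑ N ∈ (Ow T W).filter (· ∈ E), (1 : ℝ) / N

/-- The preimage of `E` under `n` odd steps. -/
def Pull (n : ℕ) (E : Set ℕ) : Set ℕ := {N | syr^[n] N ∈ E}

/-- `3 ^ m` times the probability of the class of `M` modulo `3 ^ m`. -/
def cm (m M : ℕ) : ℝ := 3 ^ m * ∑' l, nu m m l M

open Classical in
/-- The weight of `E` in the window with the density `cm m`. -/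
def Bm (m : ℕ) (T W : ℝ) (E : Set ℕ) : ℝ := ∑ M ∈ (Ow T W).filter (· ∈ E), cm m M / M

/-- The odd numbers `N` with `y ≤ N < 2 y`. -/
def Od (y : ℝ) : Finset ℕ := (Finset.range ⌈2 * y⌉₊).filter fun N => N % 2 = 1 ∧ y ≤ N

/-- **Mixing** (the input of this part; proved in sections S4, S5 of helper93, proofs rows 498, 499). -/
def Mix (Cm : ℝ) : Prop := 1 ≤ Cm ∧ ∀ m n : ℕ, 1 ≤ m → m ≤ n → ∀ LL : Finset ℕ,
  ∑ l ∈ LL, ∑ Y ∈ Finset.range (3 ^ n), |nu n n l Y - nu m n l Y / 3 ^ (n - m)| ≤ Cm / m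

/-- The scale of `T`. -/
def jj (T : ℝ) : ℕ := Nat.log 32 ⌊T⌋₊

/-- The length of the window at `T`. -/
def ww (T : ℝ) : ℝ := 16 ^ jj T

/-- The logarithmic density of the bad numbers in the window at `T`. -/
def be (N0 : ℕ) (K T : ℝ) : ℝ := 2 / ww T * Ls T (ww T) (Bd N0 K 0)

theorem mem_Ow {T W : ℝ} {N : ℕ} : N ∈ Ow T W ↔ N % 2 = 1 ∧ T ≤ Real.log N ∧ Real.log N < T + W := by
  unfold Ow
  rw [mem_filter, mem_range]
  constructor
  · exact fun h => h.2
  · intro h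
    refine ⟨?_, h⟩
    have hN : 0 < N := by omega
    rw [Nat.lt_ceil]
    exact (Real.log_lt_iff_lt_exp (by exact_mod_cast hN)).1 h.2.2

theorem mem_Fw {T W : ℝ} {N : ℕ} : N ∈ Fw T W ↔ 1 ≤ N ∧ T ≤ Real.log N ∧ Real.log N < T + W := by
  unfold Fw
  rw [mem_filter, mem_range]
  constructor
  · exact fun h => h.2
  · intro h
    refine ⟨?_, h⟩
    rw [Nat.lt_ceil]
    exact (Real.log_lt_iff_lt_exp (by exact_mod_cast h.1)).1 h.2.2

theorem mem_Od {y : ℝ} {N : ℕ} : N ∈ Od y ↔ N % 2 = 1 ∧ y ≤ N ∧ (N : ℝ) < 2 * y := by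
  unfold Od
  rw [mem_filter, mem_range, Nat.lt_ceil]
  tauto

theorem mem_win {n lam l : ℕ} : l ∈ win n lam ↔ |(l : ℝ) - 2 * n| ≤ lam := by
  unfold win
  rw [mem_Icc, abs_le]
  constructor
  · rintro ⟨h1, h2⟩
    have h3 : 2 * n ≤ l + lam := by omega
    have h3' : (2 * n : ℝ) ≤ l + lam := by exact_mod_cast h3
    have h2' : (l : ℝ) ≤ 2 * n + lam := by exact_mod_cast h2
    constructor <;> linarith
  · rintro ⟨h1, h2⟩
    have h3' : (2 * n : ℝ) ≤ l + lam := by linarith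
    have h2' : (l : ℝ) ≤ 2 * n + lam := by linarith
    have h3 : 2 * n ≤ l + lam := by exact_mod_cast h3'
    have h4 : l ≤ 2 * n + lam := by exact_mod_cast h2'
    omega

theorem La_eq : La = 2 * Real.log 2 - Real.log 3 := by
  unfold La
  rw [Real.log_div (by norm_num) (by norm_num)]
  rw [show (4 : ℝ) = 2 ^ 2 by norm_num, Real.log_pow]
  push_cast
  ring

theorem La_pos : 0 < La := Real.log_pos (by norm_num)

end Pool.Agent.E21
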