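import Pool.Agent.W_e21c_h6.C5
import Pool.Agent.W_e21c_h6.D1

/-!
# Comparison of two scales (MP_e21d3a_lc, natural density; file E1)
-/

set_option autoImplicit false

noncomputable section

open Finset

namespace Pool.Agent.E21

private theorem E1_La : 1 / 4 ≤ La ∧ La ≤ 1 / 3 := by
  constructor
  · have h := Real.one_sub_inv_le_log_of_pos (show (0 : ℝ) < 4 / 3 by norm_num)
    unfold La
    norm_num at h ⊢
    linarith
  · have h := Real.log_le_sub_one_of_pos (show (0 : ℝ) < 4 / 3 by norm_num)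
    unfold La
    norm_num at h ⊢
    linarith

private theorem E1_KK {del : ℝ} (hdel : 0 < del) : 0 < KK del := by
  unfold KK
  have := La_pos
  positivity

/-- The error terms. -/
private theorem E1_err {C u n2 : ℝ} (hC : 0 < C) (hu : 1 ≤ u) (hn2 : n2 ≤ 17 * u ^ 5) :
    (C * (u ^ 3 + 1) + C * (u ^ 4 + u ^ 3 + 1) * (1 / u ^ 4 + u ^ 4 / (u ^ 3) ^ 2)) +
    (C * (u ^ 3 + 1) + C * (u ^ 4 + u ^ 3 + 1) * (1 / u ^ 4 + n2 / (u ^ 3) ^ 2)) +
    (u ^ 4 * (u ^ 4 / (u ^ 3) ^ 2) + 1) + (u ^ 4 * (n2 / (u ^ 3) ^ 2) + 1) + 2 ≤ (64 * C + 22) * (u ^ 4 / u) := by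
  have hu0 : 0 < u := by linarith
  have h1 : u ^ 4 / u = u ^ 3 := by field_simp
  have h2 : u ^ 4 / (u ^ 3) ^ 2 = 1 / u ^ 2 := by field_simp
  have h3 : n2 / (u ^ 3) ^ 2 ≤ 17 / u := by
    rw [div_le_div_iff₀ (by positivity) hu0]
    calc n2 * u ≤ 17 * u ^ 5 * u := mul_le_mul_of_nonneg_right hn2 hu0.le
      _ = 17 * (u ^ 3) ^ 2 := by ring
  have h4 : 1 / u ^ 4 ≤ 1 / u := by
    apply one_div_le_one_div_of_le hu0
    calc u = u ^ 1 := (pow_one u).symm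
      _ ≤ u ^ 4 := pow_le_pow_right₀ hu (by norm_num)
  have h5 : 1 / u ^ 2 ≤ 1 / u := by
    apply one_div_le_one_div_of_le hu0
    calc u = u ^ 1 := (pow_one u).symm
      _ ≤ u ^ 2 := pow_le_pow_right₀ hu (by norm_num)
  have h6 : (1 : ℝ) ≤ u ^ 3 := one_le_pow₀ hu
  have h7 : u ^ 3 ≤ u ^ 4 := pow_le_pow_right₀ hu (by norm_num)
  have hw : 0 < u ^ 4 := by positivity
  have h8 : u ^ 4 + u ^ 3 + 1 ≤ 3 * u ^ 4 := by linarith
  have h9 : u ^ 4 * (1 / u) = u ^ 3 := by field_simp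
  rw [h1, h2]
  have a1 : C * (u ^ 4 + u ^ 3 + 1) * (1 / u ^ 4 + 1 / u ^ 2) ≤ C * (3 * u ^ 4) * (2 * (1 / u)) := by
    apply mul_le_mul
    · exact mul_le_mul_of_nonneg_left h8 hC.le
    · linarith
    · positivity
    · positivity
  have a2 : C * (u ^ 4 + u ^ 3 + 1) * (1 / u ^ 4 + n2 / (u ^ 3) ^ 2) ≤ C * (3 * u ^ 4) * (18 * (1 / u)) := by
    have hb : 1 / u ^ 4 + n2 / (u ^ 3) ^ 2 ≤ 18 * (1 / u) := by
      have : (17 : ℝ) / u = 17 * (1 / u) := by ring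
      linarith
    calc C * (u ^ 4 + u ^ 3 + 1) * (1 / u ^ 4 + n2 / (u ^ 3) ^ 2)
        ≤ C * (u ^ 4 + u ^ 3 + 1) * (18 * (1 / u)) := mul_le_mul_of_nonneg_left hb (by positivity)
      _ ≤ C * (3 * u ^ 4) * (18 * (1 / u)) :=
          mul_le_mul_of_nonneg_right (mul_le_mul_of_nonneg_left h8 hC.le) (by positivity)
  have a1' : C * (3 * u ^ 4) * (2 * (1 / u)) = 6 * C * u ^ 3 := by
    calc C * (3 * u ^ 4) * (2 * (1 / u)) = 6 * C * (u ^ 4 * (1 / u)) := by ring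
      _ = 6 * C * u ^ 3 := by rw [h9]
  have a2' : C * (3 * u ^ 4) * (18 * (1 / u)) = 54 * C * u ^ 3 := by
    calc C * (3 * u ^ 4) * (18 * (1 / u)) = 54 * C * (u ^ 4 * (1 / u)) := by ring
      _ = 54 * C * u ^ 3 := by rw [h9]
  have a3 : u ^ 4 * (1 / u ^ 2) ≤ u ^ 3 := by
    calc u ^ 4 * (1 / u ^ 2) ≤ u ^ 4 * (1 / u) := mul_le_mul_of_nonneg_left h5 hw.le
      _ = u ^ 3 := h9
  have a4 : u ^ 4 * (n2 / (u ^ 3) ^ 2) ≤ 17 * u ^ 3 := by
    calc u ^ 4 * (n2 / (u ^ 3) ^ 2) ≤ u ^ 4 * (17 / u) := mul_le_mul_of_nonneg_left h3 hw.le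
      _ = 17 * (u ^ 4 * (1 / u)) := by ring
      _ = 17 * u ^ 3 := by rw [h9]
  have a5 : C * (u ^ 3 + 1) ≤ 2 * C * u ^ 3 := by nlinarith only [hC, h6]
  linarith

/-- **E1.** `n1 = m = 16 ^ j`, `lam = 8 ^ j`, `W = 16 ^ j`, `n2 = n1 + ⌊(T2 - T1) / La⌋ ≤ T2 / 4`, `T2 - n2 La = T1 - n1 La + x`,
`0 ≤ x < La`, `c = del n2 La - (K + 1) (lam + 1) ≥ del n1 La + (K + 1) (lam + 1)` for `j ≥ js del`.
`Ls_forward` at `T2`; `transfer` at `(T2, n2)`; `Bm_shift`; `transfer` at `(T1, n1)`; `Ls_base` resp. `Ls_backward` at `T1`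
(`T1 - log N0 ≥ T1 (1 - 1 / 1.005) > 3 n1 log 2`). All errors divided by `W` are `≤ const * 2 ^ (-j)`:
`lam / W = 2 ^ (-j)`, `1 / m = 16 ^ (-j)`, `n2 / lam ^ 2 ≤ 2 ^ (5 j + 6) / 2 ^ (6 j)`. The constant `C1` does not depend on `del`. -/
theorem compare {Cm : ℝ} (hmix : Mix Cm) : ∃ C1 : ℝ, 0 < C1 ∧ ∀ del : ℝ, 0 < del → ∃ js : ℕ, ∀ j : ℕ, js ≤ j →
    ∀ (N0 : ℕ) (T1 T2 : ℝ), 1 ≤ N0 → (2 : ℝ) ^ (5 * j) ≤ 2 * T1 → T1 ≤ 2 ^ (5 * j + 6) → 1.005 * T1 ≤ T2 → T2 ≤ 1.06 * T1 →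
    ((T1 + 16 ^ j ≤ Real.log N0 → Ls T2 (16 ^ j) (Bd N0 (KK del) 0) ≤ C1 * (16 ^ j / 2 ^ j)) ∧
     (1.005 * Real.log N0 ≤ T1 → Ls T2 (16 ^ j) (Bd N0 (KK del) 0) ≤
        Ls T1 (16 ^ j) (Bd N0 (KK del) 0) + C1 * (16 ^ j / 2 ^ j))) := by
  obtain ⟨C, Ta, hC, hTa, htr⟩ := transfer hmix
  obtain ⟨Tf, hTf, hfw⟩ := Ls_forward
  obtain ⟨Tb, hTb, hbw⟩ := Ls_backward
  obtain ⟨Tc, hTc, hbs⟩ := Ls_base
  refine ⟨64 * C + 22, by positivity, fun del hdel => ?_⟩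
  have hK := E1_KK hdel
  obtain ⟨hLa1, hLa2⟩ := E1_La
  set u0 : ℝ := 1000 + 2 * (Ta + Tf + Tb + Tc) + 2000 * (KK del + 1) / del with hu0
  obtain ⟨js, hjs⟩ := pow_unbounded_of_one_lt u0 (one_lt_two : (1 : ℝ) < 2)
  refine ⟨js, fun j hj N0 T1 T2 hN0 hT1 hT1' hT2 hT2' => ?_⟩
  set u : ℝ := (2 : ℝ) ^ j with hu
  have huge : u0 ≤ u := hjs.le.trans (pow_le_pow_right₀ (by norm_num) hj)
  have hpos : 0 < 2000 * (KK del + 1) / del := by positivity
  have hu1000 : 1000 ≤ u := by linarith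
  have huT : 2 * (Ta + Tf + Tb + Tc) ≤ u := by linarith
  have huK : 2000 * (KK del + 1) / del ≤ u := by linarith
  have hu1 : 1 ≤ u := by linarith
  have hupos : 0 < u := by linarith
  have e16 : (16 : ℝ) ^ j = u ^ 4 := by
    rw [hu, ← pow_mul, mul_comm, pow_mul]
    norm_num
  have e8 : (8 : ℝ) ^ j = u ^ 3 := by
    rw [hu, ← pow_mul, mul_comm, pow_mul]
    norm_num
  have e5 : (2 : ℝ) ^ (5 * j) = u ^ 5 := by
    rw [hu, ← pow_mul, mul_comm]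
  have e56 : (2 : ℝ) ^ (5 * j + 6) = 64 * u ^ 5 := by
    rw [pow_add, e5]
    norm_num
    ring
  rw [e5] at hT1
  rw [e56] at hT1'
  rw [e16]
  -- basic sizes
  have hu4 : u ^ 4 * 1000 ≤ u ^ 5 := by
    have : u ^ 5 = u ^ 4 * u := by ring
    rw [this]
    exact mul_le_mul_of_nonneg_left hu1000 (by positivity)
  have hu34 : u ^ 3 ≤ u ^ 4 := pow_le_pow_right₀ hu1 (by norm_num)
  have hu14 : u ≤ u ^ 4 := by
    calc u = u ^ 1 := (pow_one u).symm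
      _ ≤ u ^ 4 := pow_le_pow_right₀ hu1 (by norm_num)
  have hu3 : 1 ≤ u ^ 3 := one_le_pow₀ hu1
  have hu4p : 0 < u ^ 4 := by positivity
  have hT1p : 500 * u ^ 4 ≤ T1 := by linarith
  have hT1T2 : T1 ≤ T2 := by linarith
  have hT1pos : 0 < T1 := by linarith
  have hT1big : Ta + Tf + Tb + Tc ≤ T1 := by linarith
  -- the naturals
  set n1 : ℕ := 16 ^ j with hn1
  set lam : ℕ := 8 ^ j with hlam
  have cn1 : (n1 : ℝ) = u ^ 4 := by rw [hn1, ← e16]; push_cast; rfl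
  have clam : (lam : ℝ) = u ^ 3 := by rw [hlam, ← e8]; push_cast; rfl
  have hn1_1 : 1 ≤ n1 := Nat.one_le_pow _ _ (by norm_num)
  have hlam_1 : 1 ≤ lam := Nat.one_le_pow _ _ (by norm_num)
  have hlamn1 : 5 * lam ≤ n1 := by
    have : (5 * lam : ℝ) ≤ n1 := by
      rw [cn1, clam]
      have : u ^ 4 = u ^ 3 * u := by ring
      rw [this]
      nlinarith only [hTa, hTf, hTb, hTc, huge, hpos, hu14, hu3, clam]
    exact_mod_cast this
  set q : ℕ := ⌊(T2 - T1) / La⌋₊ with hq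
  set n2 : ℕ := n1 + q with hn2
  have hLap : 0 < La := La_pos
  have hd0 : 0 ≤ (T2 - T1) / La := div_nonneg (by linarith) hLap.le
  have hq1 : (q : ℝ) ≤ (T2 - T1) / La := Nat.floor_le hd0
  have hq2 : (T2 - T1) / La < q + 1 := Nat.lt_floor_add_one _
  have hq1' : q * La ≤ T2 - T1 := (le_div_iff₀ hLap).1 hq1
  have hq2' : T2 - T1 < (q + 1) * La := (div_lt_iff₀ hLap).1 hq2
  have hq3 : (q : ℝ) ≤ 0.24 * T1 := by
    have : (q : ℝ) * (1 / 4) ≤ q * La := mul_le_mul_of_nonneg_left hLa1 (Nat.cast_nonneg q)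
    linarith
  have cn2 : (n2 : ℝ) = u ^ 4 + q := by rw [hn2]; push_cast; rw [cn1]
  have hn2T : (n2 : ℝ) ≤ T2 / 4 := by
    rw [cn2]
    have h1 : (q : ℝ) * (1 / 4) ≤ T2 - T1 :=
      (mul_le_mul_of_nonneg_left hLa1 (Nat.cast_nonneg q)).trans hq1'
    -- `q ≤ 4 (T2 - T1) ≤ 0.24 T1`
    linarith
  have hn2u : (n2 : ℝ) ≤ 17 * u ^ 5 := by linarith
  have hn1n2 : n1 ≤ n2 := Nat.le_add_right _ _
  have hW1 : u ^ 4 ≤ T1 := by linarith
  have hlog2 : Real.log 2 ≤ 0.7 := by have := Real.log_two_lt_d9; linarith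
  have hlog3 : Real.log 3 ≤ 1.2 := by
    have h := La_eq
    linarith
  -- c
  set c : ℝ := del * n2 * La - (KK del + 1) * (lam + 1) with hc
  have hKd : 2000 * (KK del + 1) ≤ del * u := by
    rw [div_le_iff₀ hdel] at huK
    linarith
  have hc0 : 0 ≤ c := by
    have h1 : del * u ^ 4 * (1 / 4) ≤ del * n2 * La := by
      rw [cn2]
      apply mul_le_mul _ hLa1 (by norm_num) (by positivity)
      apply mul_le_mul_of_nonneg_left _ hdel.le
      have : (0 : ℝ) ≤ q := Nat.cast_nonneg q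
      linarith
    have h2 : (KK del + 1) * (lam + 1) ≤ del * u ^ 4 * (1 / 4) := by
      rw [clam]
      have h3 : (KK del + 1) * (u ^ 3 + 1) ≤ (KK del + 1) * (2 * u ^ 3) := by
        apply mul_le_mul_of_nonneg_left _ (by positivity)
        linarith
      have h4 : (KK del + 1) * (2 * u ^ 3) ≤ del * u * u ^ 3 * (1 / 4) := by
        have h5 : 8 * (KK del + 1) ≤ del * u := by linarith
        have h6 := mul_le_mul_of_nonneg_right h5 (by positivity : (0 : ℝ) ≤ u ^ 3)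
        linarith
      calc (KK del + 1) * (u ^ 3 + 1) ≤ (KK del + 1) * (2 * u ^ 3) := h3
        _ ≤ del * u * u ^ 3 * (1 / 4) := h4
        _ = del * u ^ 4 * (1 / 4) := by ring
    linarith
  have hcb : del * n1 * La + (KK del + 1) * (lam + 1) ≤ c := by
    have h1 : del * n2 * La = del * n1 * La + del * (q * La) := by rw [hn2]; push_cast; ring
    have h2 : 0.002 * u ^ 5 ≤ q * La := by
      have : (1 : ℝ) ≤ u ^ 5 := one_le_pow₀ hu1
      have h7 : (1000 : ℝ) ≤ u ^ 5 := by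
        calc (1000 : ℝ) ≤ u := hu1000
          _ = u ^ 1 := (pow_one u).symm
          _ ≤ u ^ 5 := pow_le_pow_right₀ hu1 (by norm_num)
      linarith only [hTa, hTf, hTb, hTc, hLa2, hT2, hT1, huge, hpos, hu4, hu14, hLap, hq2']
    have h3 : del * (0.002 * u ^ 5) ≤ del * (q * La) := mul_le_mul_of_nonneg_left h2 hdel.le
    have h4 : 2 * ((KK del + 1) * (lam + 1)) ≤ del * (0.002 * u ^ 5) := by
      rw [clam]
      have h5 : 2 * ((KK del + 1) * (u ^ 3 + 1)) ≤ 4 * (KK del + 1) * u ^ 3 := by nlinarith only [hu3, hK]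
      have h6 : 4 * (KK del + 1) * u ^ 3 ≤ 0.002 * (del * u) * u ^ 3 := by
        apply mul_le_mul_of_nonneg_right _ (by positivity)
        linarith only [hKd]
      have h7 : 0.002 * (del * u) * u ^ 3 ≤ del * (0.002 * u ^ 5) := by
        have : u ^ 4 ≤ u ^ 5 := pow_le_pow_right₀ hu1 (by norm_num)
        have h8 := mul_le_mul_of_nonneg_left this (by positivity : (0 : ℝ) ≤ 0.002 * del)
        calc 0.002 * (del * u) * u ^ 3 = 0.002 * del * u ^ 4 := by ring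
          _ ≤ 0.002 * del * u ^ 5 := h8
          _ = del * (0.002 * u ^ 5) := by ring
      linarith only [h5, h6, h7]
    rw [hc, h1]
    linarith
  -- the chain
  have g1 := hfw T2 (u ^ 4) n2 lam N0 del c (by linarith only [hTa, hTf, hTb, hTc, hLa2, hT2, hT1, huge, hpos, hu4, hu14, hLap]) hn2T hlam_1 (by omega) hu4p.le hdel (by rw [hc]; linarith)
  have g2 := htr T2 (u ^ 4) n1 n2 lam (Bd N0 (KK del) c) (by linarith) hn1_1 hn1n2 hn2T hlam_1 (by omega) hu4p.le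
    (by linarith)
  have g3 := htr T1 (u ^ 4) n1 n1 lam (Bd N0 (KK del) c) (by linarith only [hTa, hTf, hTb, hTc, hLa2, hT1, huge, hpos, hu4, hu14, hLap]) hn1_1 le_rfl (by rw [cn1]; linarith) hlam_1
    (by omega) hu4p.le hW1
  set x : ℝ := T2 - T1 - q * La with hx
  have hx0 : 0 ≤ x := by rw [hx]; linarith
  have hx1 : x ≤ 1 := by rw [hx]; linarith
  have g4 := Bm_shift n1 (T1 - n1 * La) (u ^ 4) x (Bd N0 (KK del) c)
    (by
      rw [cn1]
      have h1 : u ^ 4 * Real.log 3 ≤ u ^ 4 * 1.2 := mul_le_mul_of_nonneg_left hlog3 hu4p.le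
      have h2 : u ^ 4 * La ≤ u ^ 4 * (1 / 3) := mul_le_mul_of_nonneg_left hLa2 hu4p.le
      linarith only [hTa, hTf, hTb, hTc, hLa2, hT1, huge, hpos, hu4, hu14, hLap, h1, h2]) hu4p.le hx0
  have e : T2 - n2 * La = T1 - n1 * La + x := by
    rw [hx, hn2]
    push_cast
    ring
  rw [e] at g2
  have herr := E1_err (n2 := (n2 : ℝ)) hC hu1 hn2u
  rw [cn1, clam] at g3
  rw [clam] at g2 g1
  rw [cn1] at g2 g4
  have g2' := (abs_le.1 g2).2
  have g3' := (abs_le.1 g3).1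
  constructor
  · intro hL
    have g5 := hbs T1 (u ^ 4) n1 lam N0 del c (by linarith only [hTa, hTf, hTb, hTc, hLa2, hT1, huge, hpos, hu4, hu14, hLap]) (by rw [cn1]; linarith only [hTa, hTf, hTb, hTc, hLa2, hT1, huge, hpos, hu4, hu14, hLap]) hlam_1 hlamn1 hu4p.le hdel hN0 hL hc0
    rw [cn1, clam] at g5
    linarith only [hLa2, hLap, hq2', g1, g4, herr, g2', g3', g5]
  · intro hL
    have g5 := hbw T1 (u ^ 4) n1 lam N0 del c (by linarith only [hTa, hTf, hTb, hTc, hLa2, hT1, huge, hpos, hu4, hu14, hLap]) (by rw [cn1]; linarith only [hTa, hTf, hTb, hTc, hLa2, hT1, huge, hpos, hu4, hu14, hLap]) hlam_1 (by omega) hu4p.le hdel hN0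
      (by
        rw [cn1]
        have h1 : u ^ 4 * Real.log 2 ≤ u ^ 4 * 0.7 := mul_le_mul_of_nonneg_left hlog2 hu4p.le
        linarith only [hTa, hTf, hTb, hTc, hLa2, hT1, huge, hpos, hu4, hu14, hLap, hL, h1]) hcb
    rw [cn1, clam] at g5
    linarith only [hLa2, hLap, hq2', g1, g4, herr, g2', g3', g5]

end Pool.Agent.E21
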