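import Pool.Agent.W_e21c_h6.P1

/-!
# The largest probability (MP_e21d3a_lc, natural density; file P3)
-/

set_option autoImplicit false

noncomputable section

open Finset

namespace Pool.Agent.E21

theorem P3_central (n : ℕ) : ((Nat.centralBinom n : ℝ) / 4 ^ n) ^ 2 ≤ 1 / (2 * n + 1) := by
  induction n with
  | zero => simp
  | succ n ih =>
    have h1 := Nat.succ_mul_centralBinom_succ n
    have h2 : ((n : ℝ) + 1) * (Nat.centralBinom (n + 1) : ℝ) = 2 * (2 * n + 1) * Nat.centralBinom n := by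
      exact_mod_cast h1
    have hn : (0 : ℝ) < (n : ℝ) + 1 := by positivity
    have h3 : (Nat.centralBinom (n + 1) : ℝ) / 4 ^ (n + 1) =
        ((Nat.centralBinom n : ℝ) / 4 ^ n) * ((2 * n + 1) / (2 * (n + 1))) := by
      rw [div_mul_div_comm, div_eq_div_iff (by positivity) (by positivity), pow_succ]
      linear_combination (2 * 4 ^ n : ℝ) * h2
    rw [h3, mul_pow]
    have h4 : ((2 * (n : ℝ) + 1) / (2 * (n + 1))) ^ 2 * (1 / (2 * n + 1)) ≤ 1 / (2 * ((n + 1 : ℕ) : ℝ) + 1) := by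
      push_cast
      rw [div_pow, div_mul_div_comm, div_le_div_iff₀ (by positivity) (by positivity)]
      nlinarith [sq_nonneg ((n : ℝ))]
    calc ((Nat.centralBinom n : ℝ) / 4 ^ n) ^ 2 * ((2 * (n : ℝ) + 1) / (2 * (n + 1))) ^ 2
        ≤ 1 / (2 * n + 1) * ((2 * (n : ℝ) + 1) / (2 * (n + 1))) ^ 2 :=
          mul_le_mul_of_nonneg_right ih (by positivity)
      _ = ((2 * (n : ℝ) + 1) / (2 * (n + 1))) ^ 2 * (1 / (2 * n + 1)) := by ring
      _ ≤ _ := h4

theorem P3_half (K : ℕ) : ((K.choose (K / 2) : ℝ) / 2 ^ K) ^ 2 ≤ 1 / (K + 1) := by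
  rcases Nat.even_or_odd' K with ⟨n, hn | hn⟩
  · subst hn
    have h1 := P3_central n
    have h2 : 2 * n / 2 = n := by omega
    rw [h2, pow_mul, show (2 : ℝ) ^ 2 = 4 by norm_num]
    rw [Nat.centralBinom_eq_two_mul_choose] at h1
    push_cast
    exact h1
  · subst hn
    have h1 := P3_central (n + 1)
    have h2 : (2 * n + 1) / 2 = n := by omega
    rw [h2]
    rw [Nat.centralBinom_eq_two_mul_choose] at h1
    have h3 : (2 * (n + 1)).choose (n + 1) = 2 * (2 * n + 1).choose n := by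
      have h4 : (2 * (n + 1)).choose (n + 1) = (2 * n + 1).choose n + (2 * n + 1).choose (n + 1) := by
        rw [show 2 * (n + 1) = (2 * n + 1) + 1 by ring, Nat.choose_succ_succ]
      have h5 : (2 * n + 1).choose (n + 1) = (2 * n + 1).choose n := by
        rw [← Nat.choose_symm (show n ≤ 2 * n + 1 by omega)]
        congr 1
        omega
      rw [h4, h5]
      ring
    rw [h3] at h1
    have h6 : ((2 * (2 * n + 1).choose n : ℕ) : ℝ) / 4 ^ (n + 1) = ((2 * n + 1).choose n : ℝ) / 2 ^ (2 * n + 1) := by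
      push_cast
      rw [show (4 : ℝ) = 2 ^ 2 by norm_num, ← pow_mul, div_eq_div_iff (by positivity) (by positivity)]
      ring
    rw [h6] at h1
    refine h1.trans ?_
    push_cast
    apply one_div_le_one_div_of_le (by positivity)
    linarith

/-- `C(N, k) ≤ C(N, N / 2)` and `C(N, N/2) sqrt (N + 1) ≤ 2 ^ N` (induction in steps of two). -/
theorem choose_le_sqrt (N k : ℕ) : (Nat.choose N k : ℝ) ≤ 2 ^ N / Real.sqrt (N + 1) := by
  have h1 : (Nat.choose N k : ℝ) ≤ (Nat.choose N (N / 2) : ℝ) := by exact_mod_cast Nat.choose_le_middle k N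
  refine h1.trans ?_
  have h2 := P3_half N
  have h3 : 0 < Real.sqrt (N + 1) := Real.sqrt_pos.2 (by positivity)
  have h4 : (Nat.choose N (N / 2) : ℝ) / 2 ^ N ≤ 1 / Real.sqrt (N + 1) := by
    apply le_of_sq_le_sq _ (by positivity)
    rw [div_pow 1, Real.sq_sqrt (by positivity), one_pow]
    exact h2
  rw [div_le_div_iff₀ (by positivity) h3] at h4
  rw [le_div_iff₀ h3]
  linarith

/-- `Pn n l = C(l - 1, n - 1) / 2 ^ l ≤ 1 / (2 sqrt l)` and `Pn n l = 0` for `l < n`. -/
theorem Pn_le {n : ℕ} (hn : 1 ≤ n) (l : ℕ) : Pn n l ≤ 1 / (2 * Real.sqrt n) := by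
  rcases Nat.lt_or_ge l n with h | h
  · rw [Pn_eq_zero h]
    positivity
  · obtain ⟨n, rfl⟩ : ∃ k, n = k + 1 := ⟨n - 1, by omega⟩
    obtain ⟨l, rfl⟩ : ∃ k, l = k + 1 := ⟨l - 1, by omega⟩
    rw [Pn_succ]
    have h1 := choose_le_sqrt l n
    have h2 : 0 < Real.sqrt (l + 1) := Real.sqrt_pos.2 (by positivity)
    have h3 : 0 < Real.sqrt ((n + 1 : ℕ) : ℝ) := Real.sqrt_pos.2 (by positivity)
    have h4 : Real.sqrt ((n + 1 : ℕ) : ℝ) ≤ Real.sqrt (l + 1) := by
      apply Real.sqrt_le_sqrt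
      exact_mod_cast h
    calc (Nat.choose l n : ℝ) / 2 ^ (l + 1) ≤ (2 ^ l / Real.sqrt (l + 1)) / 2 ^ (l + 1) :=
          div_le_div_of_nonneg_right h1 (by positivity)
      _ = 1 / (2 * Real.sqrt (l + 1)) := by
          rw [pow_succ]
          field_simp
      _ ≤ 1 / (2 * Real.sqrt ((n + 1 : ℕ) : ℝ)) := by
          apply one_div_le_one_div_of_le (by positivity)
          linarith

end Pool.Agent.E21
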