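import Pool.Agent.W_e21c_h6.P2
import Pool.Agent.W_e21c_h6.P3
import Pool.Agent.W_e21c_h6.P4

/-!
# The density cm (MP_e21d3a_lc, natural density; file P5)
-/

set_option autoImplicit false

noncomputable section

open Finset

namespace Pool.Agent.E21

theorem nu_le_Pn (m n l Y : ℕ) : nu m n l Y ≤ Pn n l := by
  unfold nu Pn
  gcongr
  exact Finset.filter_subset _ _

/-- `nu m m l M ≤ Pn m l` is summable. -/
theorem summable_nu (m n Y : ℕ) : Summable fun l => nu m n l Y :=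
  Summable.of_nonneg_of_le (fun l => nu_nonneg m n l Y) (fun l => nu_le_Pn m n l Y)
    (hasSum_Pn n).summable

/-- `nu_conv` and `hasSum_Pn` (Cauchy product). -/
theorem tsum_nu {m n : ℕ} (h : m ≤ n) (Y : ℕ) : ∑' l, nu m n l Y = ∑' l, nu m m l Y := by
  have h1 : Summable fun l => ‖Pn (n - m) l‖ := by
    refine (hasSum_Pn (n - m)).summable.congr fun l => ?_
    rw [Real.norm_of_nonneg (Pn_nonneg _ _)]
  have h2 : Summable fun l => ‖nu m m l Y‖ := by
    refine (summable_nu m m Y).congr fun l => ?_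
    rw [Real.norm_of_nonneg (nu_nonneg _ _ _ _)]
  have h3 := tsum_mul_tsum_eq_tsum_sum_range_of_summable_norm h1 h2
  rw [(hasSum_Pn (n - m)).tsum_eq, one_mul] at h3
  rw [h3]
  refine tsum_congr fun l => ?_
  rw [nu_conv h]
  exact Finset.sum_congr rfl fun v _ => mul_comm _ _

theorem cm_nonneg (m M : ℕ) : 0 ≤ cm m M := by
  unfold cm
  have h : 0 ≤ ∑' l, nu m m l M := tsum_nonneg fun l => nu_nonneg m m l M
  positivity

theorem cm_periodic (m M : ℕ) : cm m (M + 3 ^ m) = cm m M := by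
  unfold cm
  simp only [nu_periodic]

theorem sum_cm (m : ℕ) : ∑ Y ∈ range (3 ^ m), cm m Y = 3 ^ m := by
  unfold cm
  rw [← Finset.mul_sum, ← Summable.tsum_finsetSum (fun Y _ => summable_nu m m Y)]
  simp only [sum_nu]
  rw [(hasSum_Pn m).tsum_eq, mul_one]

theorem nu_le_cm {m n : ℕ} (h : m ≤ n) (LL : Finset ℕ) (M : ℕ) : 3 ^ m * ∑ l ∈ LL, nu m n l M ≤ cm m M := by
  unfold cm
  rw [← tsum_nu h M]
  have h1 := (summable_nu m n M).sum_le_tsum LL (fun l _ => nu_nonneg m n l M)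
  gcongr

theorem sum_cm_sub {m n : ℕ} (h : m ≤ n) (LL : Finset ℕ) :
    ∑ Y ∈ range (3 ^ m), (cm m Y - 3 ^ m * ∑ l ∈ LL, nu m n l Y) = 3 ^ m * (1 - ∑ l ∈ LL, Pn n l) := by
  rw [Finset.sum_sub_distrib, sum_cm, ← Finset.mul_sum, Finset.sum_comm]
  simp only [sum_nu]
  ring

/-- `nu_conv`, `Pn_le` and `∑ v, nu m m (l - v) M ≤ cm m M / 3 ^ m`. -/
theorem nu_le_sqrt {m n : ℕ} (h : m < n) (l M : ℕ) :
    3 ^ m * nu m n l M ≤ cm m M / (2 * Real.sqrt ((n - m : ℕ) : ℝ)) := by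
  rw [nu_conv h.le]
  have hpos : (0 : ℝ) < ((n - m : ℕ) : ℝ) := by
    exact_mod_cast (by omega : 0 < n - m)
  have hs : 0 < 2 * Real.sqrt ((n - m : ℕ) : ℝ) := by
    have := Real.sqrt_pos.2 hpos
    linarith
  have h1 : ∑ v ∈ range (l + 1), nu m m (l - v) M * Pn (n - m) v ≤
      (∑ v ∈ range (l + 1), nu m m (l - v) M) * (1 / (2 * Real.sqrt ((n - m : ℕ) : ℝ))) := by
    rw [Finset.sum_mul]
    refine Finset.sum_le_sum fun v _ => ?_
    exact mul_le_mul_of_nonneg_left (Pn_le (by omega) v) (nu_nonneg _ _ _ _)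
  have h2 : ∑ v ∈ range (l + 1), nu m m (l - v) M = ∑ v ∈ range (l + 1), nu m m v M := by
    have h3 := Finset.sum_range_reflect (fun v => nu m m v M) (l + 1)
    rw [← h3]
    refine Finset.sum_congr rfl fun v _ => ?_
    congr 1
  have h4 : ∑ v ∈ range (l + 1), nu m m v M ≤ ∑' l, nu m m l M :=
    (summable_nu m m M).sum_le_tsum _ (fun l _ => nu_nonneg m m l M)
  unfold cm
  rw [le_div_iff₀ hs]
  calc 3 ^ m * (∑ v ∈ range (l + 1), nu m m (l - v) M * Pn (n - m) v) *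
        (2 * Real.sqrt ((n - m : ℕ) : ℝ))
      ≤ 3 ^ m * ((∑' l, nu m m l M) * (1 / (2 * Real.sqrt ((n - m : ℕ) : ℝ)))) *
        (2 * Real.sqrt ((n - m : ℕ) : ℝ)) := by
        gcongr
        refine h1.trans ?_
        rw [h2]
        exact mul_le_mul_of_nonneg_right h4 (by positivity)
    _ = 3 ^ m * ∑' l, nu m m l M := by
        field_simp

end Pool.Agent.E21
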