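import Pool.Agent.W_e21c_h6.W2
import Pool.Agent.W_e21c_h6.P5

/-!
# Sums of cm over a window (MP_e21d3a_lc, natural density; file W3)
-/

set_option autoImplicit false

noncomputable section

open Finset

namespace Pool.Agent.E21

theorem W3_mem_Ow {T W : ℝ} {N : ℕ} :
    N ∈ Ow T W ↔ N % 2 = 1 ∧ T ≤ Real.log N ∧ Real.log N < T + W := by
  unfold Ow
  rw [mem_filter, mem_range]
  refine ⟨fun h => h.2, fun h => ⟨?_, h⟩⟩
  have hN : (0 : ℝ) < (N : ℝ) := by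
    have : 0 < N := by omega
    exact_mod_cast this
  have h1 : (N : ℝ) < Real.exp (T + W) := by
    rw [← Real.exp_log hN]
    exact Real.exp_lt_exp.mpr h.2.2
  have h2 : (N : ℝ) < (⌈Real.exp (T + W)⌉₊ : ℝ) := lt_of_lt_of_le h1 (Nat.le_ceil _)
  exact_mod_cast h2

theorem sum_cm_Ow (m : ℕ) (T W : ℝ) (hT : m * Real.log 3 ≤ T) (hW : 0 ≤ W) :
    ∑ M ∈ Ow T W, cm m M / M ≤ W / 2 + 1 := by
  have h := sum_periodic m (cm m) (cm_nonneg m) (cm_periodic m) T W hT hW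
  rw [sum_cm] at h
  refine h.trans (le_of_eq ?_)
  have : (3 : ℝ) ^ m ≠ 0 := by positivity
  field_simp

theorem W3_term_nonneg (m M : ℕ) : 0 ≤ cm m M / M :=
  div_nonneg (cm_nonneg m M) (Nat.cast_nonneg M)

theorem Bm_nonneg (m : ℕ) (T W : ℝ) (E : Set ℕ) : 0 ≤ Bm m T W E := by
  unfold Bm
  exact sum_nonneg fun M _ => W3_term_nonneg m M

theorem Ls_nonneg (T W : ℝ) (E : Set ℕ) : 0 ≤ Ls T W E := by
  unfold Ls
  exact sum_nonneg fun M _ => by positivity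

theorem Bm_le (m : ℕ) (T W : ℝ) (E : Set ℕ) (hT : m * Real.log 3 ≤ T) (hW : 0 ≤ W) : Bm m T W E ≤ W / 2 + 1 := by
  classical
  unfold Bm
  refine (sum_le_sum_of_subset_of_nonneg (filter_subset _ _) fun M _ _ => W3_term_nonneg m M).trans ?_
  exact sum_cm_Ow m T W hT hW

/-- two windows cover -/
theorem W3_cover2 (m : ℕ) (E : Set ℕ) {T W T1 W1 T2 W2 : ℝ}
    (h : ∀ N ∈ Ow T W, N ∈ Ow T1 W1 ∨ N ∈ Ow T2 W2) :
    Bm m T W E ≤ Bm m T1 W1 E + Bm m T2 W2 E := by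
  classical
  unfold Bm
  have h1 : (Ow T W).filter (· ∈ E) ⊆ (Ow T1 W1).filter (· ∈ E) ∪ (Ow T2 W2).filter (· ∈ E) := by
    intro N hN
    rw [mem_filter] at hN
    rw [mem_union, mem_filter, mem_filter]
    rcases h N hN.1 with h' | h'
    · exact Or.inl ⟨h', hN.2⟩
    · exact Or.inr ⟨h', hN.2⟩
  refine (sum_le_sum_of_subset_of_nonneg h1 fun M _ _ => W3_term_nonneg m M).trans ?_
  have h2 := sum_union_inter (s₁ := (Ow T1 W1).filter (· ∈ E)) (s₂ := (Ow T2 W2).filter (· ∈ E))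
    (f := fun M => cm m M / (M : ℝ))
  have h3 : 0 ≤ ∑ M ∈ (Ow T1 W1).filter (· ∈ E) ∩ (Ow T2 W2).filter (· ∈ E), cm m M / (M : ℝ) :=
    sum_nonneg fun M _ => W3_term_nonneg m M
  linarith

/-- three windows cover -/
theorem W3_cover3 (m : ℕ) (E : Set ℕ) {T W T1 W1 T2 W2 T3 W3 : ℝ}
    (h : ∀ N ∈ Ow T W, N ∈ Ow T1 W1 ∨ N ∈ Ow T2 W2 ∨ N ∈ Ow T3 W3) :
    Bm m T W E ≤ Bm m T1 W1 E + Bm m T2 W2 E + Bm m T3 W3 E := by
  classical
  unfold Bm
  have h1 : (Ow T W).filter (· ∈ E) ⊆ (Ow T1 W1).filter (· ∈ E) ∪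
      ((Ow T2 W2).filter (· ∈ E) ∪ (Ow T3 W3).filter (· ∈ E)) := by
    intro N hN
    rw [mem_filter] at hN
    rw [mem_union, mem_union, mem_filter, mem_filter, mem_filter]
    rcases h N hN.1 with h' | h' | h'
    · exact Or.inl ⟨h', hN.2⟩
    · exact Or.inr (Or.inl ⟨h', hN.2⟩)
    · exact Or.inr (Or.inr ⟨h', hN.2⟩)
  refine (sum_le_sum_of_subset_of_nonneg h1 fun M _ _ => W3_term_nonneg m M).trans ?_
  have h2 := sum_union_inter (s₁ := (Ow T1 W1).filter (· ∈ E))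
    (s₂ := (Ow T2 W2).filter (· ∈ E) ∪ (Ow T3 W3).filter (· ∈ E))
    (f := fun M => cm m M / (M : ℝ))
  have h2' := sum_union_inter (s₁ := (Ow T2 W2).filter (· ∈ E))
    (s₂ := (Ow T3 W3).filter (· ∈ E))
    (f := fun M => cm m M / (M : ℝ))
  have h3 : 0 ≤ ∑ M ∈ (Ow T1 W1).filter (· ∈ E) ∩
      ((Ow T2 W2).filter (· ∈ E) ∪ (Ow T3 W3).filter (· ∈ E)), cm m M / (M : ℝ) :=
    sum_nonneg fun M _ => W3_term_nonneg m M
  have h3' : 0 ≤ ∑ M ∈ (Ow T2 W2).filter (· ∈ E) ∩ (Ow T3 W3).filter (· ∈ E), cm m M / (M : ℝ) :=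
    sum_nonneg fun M _ => W3_term_nonneg m M
  linarith

/-- `Ow (T + x) W ⊆ Ow T W ∪ Ow (T + W) x`. -/
theorem Bm_shift (m : ℕ) (T W x : ℝ) (E : Set ℕ) (hT : m * Real.log 3 ≤ T) (hW : 0 ≤ W) (hx : 0 ≤ x) :
    Bm m (T + x) W E ≤ Bm m T W E + (x / 2 + 1) := by
  have h1 : Bm m (T + x) W E ≤ Bm m T W E + Bm m (T + W) x E := by
    apply W3_cover2
    intro N hN
    rw [W3_mem_Ow] at hN
    rw [W3_mem_Ow, W3_mem_Ow]
    obtain ⟨h0, h1, h2⟩ := hN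
    rcases lt_or_ge (Real.log N) (T + W) with h | h
    · exact Or.inl ⟨h0, by linarith, h⟩
    · exact Or.inr ⟨h0, h, by linarith⟩
  have h2 := Bm_le m (T + W) x E (by linarith) hx
  linarith

/-- `Ow (T - kap) (W + 2 kap) = Ow (T - kap) kap ∪ Ow T W ∪ Ow (T + W) kap`. -/
theorem Bm_wide (m : ℕ) (T W kap : ℝ) (E : Set ℕ) (hT : m * Real.log 3 ≤ T - kap) (hW : 0 ≤ W) (hk : 0 ≤ kap) :
    Bm m (T - kap) (W + 2 * kap) E ≤ Bm m T W E + (kap + 2) := by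
  have h1 : Bm m (T - kap) (W + 2 * kap) E ≤
      Bm m (T - kap) kap E + Bm m T W E + Bm m (T + W) kap E := by
    apply W3_cover3
    intro N hN
    rw [W3_mem_Ow] at hN
    rw [W3_mem_Ow, W3_mem_Ow, W3_mem_Ow]
    obtain ⟨h0, h1, h2⟩ := hN
    rcases lt_or_ge (Real.log N) T with h | h
    · exact Or.inl ⟨h0, h1, by linarith⟩
    · rcases lt_or_ge (Real.log N) (T + W) with h' | h'
      · exact Or.inr (Or.inl ⟨h0, h, h'⟩)
      · exact Or.inr (Or.inr ⟨h0, h', by linarith⟩)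
  have h2 := Bm_le m (T - kap) kap E hT hk
  have h3 := Bm_le m (T + W) kap E (by linarith) hk
  linarith

/-- `Ow T W ⊆ Ow T kap ∪ Ow (T + kap) (W - 2 kap) ∪ Ow (T + W - kap) kap` (if `W < 2 kap`, the two outer windows cover). -/
theorem Bm_narrow (m : ℕ) (T W kap : ℝ) (E : Set ℕ) (hT : m * Real.log 3 ≤ T - kap) (hW : 0 ≤ W) (hk : 0 ≤ kap) :
    Bm m T W E ≤ Bm m (T + kap) (W - 2 * kap) E + (kap + 2) := by
  have h1 : Bm m T W E ≤
      Bm m T kap E + Bm m (T + kap) (W - 2 * kap) E + Bm m (T + W - kap) kap E := by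
    apply W3_cover3
    intro N hN
    rw [W3_mem_Ow] at hN
    rw [W3_mem_Ow, W3_mem_Ow, W3_mem_Ow]
    obtain ⟨h0, h1, h2⟩ := hN
    rcases lt_or_ge (Real.log N) (T + kap) with h | h
    · exact Or.inl ⟨h0, h1, h⟩
    · rcases lt_or_ge (Real.log N) (T + W - kap) with h' | h'
      · exact Or.inr (Or.inl ⟨h0, h, by linarith⟩)
      · exact Or.inr (Or.inr ⟨h0, h', by linarith⟩)
  have h2 := Bm_le m T kap E (by linarith) hk
  have h3 := Bm_le m (T + W - kap) kap E (by linarith) hk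
  linarith

end Pool.Agent.E21
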