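import Pool.Agent.W_e21c_h6.Dyn
import Pool.Agent.W_e21c_h6.W3

/-!
# Windows and scales (MP_e21d3a_lc, natural density; file F0)
-/

set_option autoImplicit false

noncomputable section

open Finset

namespace Pool.Agent.E21

private theorem F0_split (T W : ℝ) (hW : 0 ≤ W) (E : Set ℕ) (k : ℕ) :
    Ls T (k * W) E = ∑ i ∈ range k, Ls (T + i * W) W E := by
  classical
  induction k with
  | zero =>
    have h : Ow T (((0 : ℕ) : ℝ) * W) = ∅ := by
      ext N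
      rw [mem_Ow]
      constructor
      · rintro ⟨_, h1, h2⟩
        exfalso
        have h3 : ((0 : ℕ) : ℝ) * W = 0 := by simp
        rw [h3] at h2
        linarith
      · intro h1
        exact absurd h1 (notMem_empty N)
    unfold Ls
    rw [h]
    simp
  | succ k ih =>
    rw [sum_range_succ, ← ih]
    have h0 : (0 : ℝ) ≤ k * W := mul_nonneg (Nat.cast_nonneg k) hW
    have h1 : Ow T (((k + 1 : ℕ) : ℝ) * W) = Ow T (k * W) ∪ Ow (T + k * W) W := by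
      ext N
      rw [mem_union, mem_Ow, mem_Ow, mem_Ow]
      have e : ((k + 1 : ℕ) : ℝ) * W = k * W + W := by
        push_cast
        ring
      rw [e]
      constructor
      · rintro ⟨a, b, c⟩
        rcases lt_or_ge (Real.log N) (T + k * W) with h | h
        · exact Or.inl ⟨a, b, h⟩
        · exact Or.inr ⟨a, h, by linarith⟩
      · rintro (⟨a, b, c⟩ | ⟨a, b, c⟩)
        · exact ⟨a, b, by linarith⟩
        · exact ⟨a, by linarith, by linarith⟩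
    have h2 : Disjoint ((Ow T (k * W)).filter (· ∈ E)) ((Ow (T + k * W) W).filter (· ∈ E)) := by
      rw [disjoint_left]
      intro N ha hb
      rw [mem_filter, mem_Ow] at ha hb
      linarith [ha.1.2.2, hb.1.2.1]
    unfold Ls
    rw [h1, filter_union, sum_union h2]

/-- `Ow T (16 W)` is the disjoint union of the `Ow (T + i W) W`, `i < 16`. -/
theorem Ls_split (T W : ℝ) (hW : 0 ≤ W) (E : Set ℕ) : Ls T (16 * W) E = ∑ i ∈ range 16, Ls (T + i * W) W E := by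
  have h := F0_split T W hW E 16
  rw [← h]
  norm_num

theorem Ls_mono_W (T : ℝ) {W W' : ℝ} (h : W ≤ W') (E : Set ℕ) : Ls T W E ≤ Ls T W' E := by
  classical
  unfold Ls
  refine sum_le_sum_of_subset_of_nonneg ?_ fun N _ _ => by positivity
  intro N hN
  rw [mem_filter, mem_Ow] at hN ⊢
  exact ⟨⟨hN.1.1, hN.1.2.1, by linarith [hN.1.2.2]⟩, hN.2⟩

/-- `32 ^ jj T ≤ T < 32 ^ (jj T + 1)`. -/
theorem jj_spec {T : ℝ} (hT : 1 ≤ T) : (2 : ℝ) ^ (5 * jj T) ≤ T ∧ T < 2 ^ (5 * jj T + 5) := by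
  have h1 : 1 ≤ ⌊T⌋₊ := Nat.le_floor (by exact_mod_cast hT)
  have h2 : 32 ^ jj T ≤ ⌊T⌋₊ := Nat.pow_log_le_self 32 (by omega)
  have h3 : ⌊T⌋₊ < 32 ^ (jj T + 1) := Nat.lt_pow_succ_log_self (by norm_num) _
  have e1 : (2 : ℝ) ^ (5 * jj T) = ((32 ^ jj T : ℕ) : ℝ) := by
    rw [pow_mul]
    norm_num
  have e2 : (2 : ℝ) ^ (5 * jj T + 5) = ((32 ^ (jj T + 1) : ℕ) : ℝ) := by
    rw [show 5 * jj T + 5 = 5 * (jj T + 1) by ring, pow_mul]
    norm_num
  rw [e1, e2]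
  constructor
  · exact (Nat.cast_le.2 h2).trans (Nat.floor_le (by linarith))
  · have h4 : T < (⌊T⌋₊ : ℝ) + 1 := Nat.lt_floor_add_one T
    have h5 : ((⌊T⌋₊ + 1 : ℕ) : ℝ) ≤ ((32 ^ (jj T + 1) : ℕ) : ℝ) := Nat.cast_le.2 h3
    rw [Nat.cast_add, Nat.cast_one] at h5
    linarith

/-- For `T ≤ T' ≤ 1.06 T` the scale `jj T'` is `jj T` or `jj T + 1`. -/
theorem jj_step {T T' : ℝ} (hT : 1 ≤ T) (h1 : T ≤ T') (h2 : T' ≤ 1.06 * T) : jj T' = jj T ∨ jj T' = jj T + 1 := by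
  have h3 : jj T ≤ jj T' := Nat.log_mono_right (Nat.floor_mono h1)
  have h4 := (jj_spec hT).2
  have h5 := (jj_spec (hT.trans h1)).1
  have h6 : (2 : ℝ) ^ (5 * jj T') < 2 ^ (5 * jj T + 10) := by
    have h7 : (2 : ℝ) ^ (5 * jj T + 10) = 2 ^ (5 * jj T + 5) * 32 := by
      rw [show 5 * jj T + 10 = (5 * jj T + 5) + 5 by ring, pow_add]
      norm_num
    rw [h7]
    linarith
  have h7 : 5 * jj T' < 5 * jj T + 10 := (pow_lt_pow_iff_right₀ (by norm_num)).1 h6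
  omega

/-- `2 ^ (-jj T) < 2 T ^ (-1/5)` (from `jj_spec`). -/
theorem jj_rpow {T : ℝ} (hT : 1 ≤ T) : 1 / (2 : ℝ) ^ jj T ≤ 2 * T ^ (-(1 / 5) : ℝ) := by
  have h1 := (jj_spec hT).2
  have h2 : ((2 : ℝ) ^ (5 * jj T + 5)) ^ (-(1 / 5) : ℝ) ≤ T ^ (-(1 / 5) : ℝ) :=
    Real.rpow_le_rpow_of_nonpos (by linarith) h1.le (by norm_num)
  have h3 : ((2 : ℝ) ^ (5 * jj T + 5)) ^ (-(1 / 5) : ℝ) = 1 / 2 ^ (jj T + 1) := by
    rw [← Real.rpow_natCast 2 (5 * jj T + 5), ← Real.rpow_mul (by norm_num),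
      show ((5 * jj T + 5 : ℕ) : ℝ) * (-(1 / 5)) = -((jj T + 1 : ℕ) : ℝ) by push_cast; ring,
      Real.rpow_neg (by norm_num), Real.rpow_natCast, one_div]
  rw [h3] at h2
  have h4 : (1 : ℝ) / 2 ^ jj T = 2 * (1 / 2 ^ (jj T + 1)) := by
    rw [pow_succ]
    field_simp
  rw [h4]
  linarith

end Pool.Agent.E21
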