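import Pool.Agent.W_e21c_h6.E1
import Pool.Agent.W_e21c_h6.F0

/-!
# One step of the telescoping (MP_e21d3a_lc, natural density; file F1)
-/

set_option autoImplicit false

noncomputable section

open Finset

namespace Pool.Agent.E21

private theorem F1_be_le {N0 : ℕ} {K T B : ℝ} {j : ℕ} (hj : jj T = j ∨ jj T = j + 1)
    (h : ∀ i ∈ range 16, Ls (T + (i : ℕ) * 16 ^ j) (16 ^ j) (Bd N0 K 0) ≤ 16 ^ j * B) :
    be N0 K T ≤ 2 * B := by
  have hpos : (0 : ℝ) < 16 ^ j := by positivity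
  unfold be ww
  rcases hj with hj | hj
  · rw [hj]
    have h0 := h 0 (by simp)
    simp only [Nat.cast_zero, zero_mul, add_zero] at h0
    calc 2 / (16 : ℝ) ^ j * Ls T (16 ^ j) (Bd N0 K 0) ≤ 2 / (16 : ℝ) ^ j * (16 ^ j * B) :=
          mul_le_mul_of_nonneg_left h0 (by positivity)
      _ = 2 * B := by field_simp
  · rw [hj]
    have e : (16 : ℝ) ^ (j + 1) = 16 * 16 ^ j := by rw [pow_succ]; ring
    rw [e, Ls_split T (16 ^ j) hpos.le]
    have h1 : ∑ i ∈ range 16, Ls (T + i * 16 ^ j) (16 ^ j) (Bd N0 K 0) ≤ 16 * (16 ^ j * B) := by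
      refine (Finset.sum_le_sum h).trans (le_of_eq ?_)
      rw [Finset.sum_const, Finset.card_range, nsmul_eq_mul]
      norm_num
    calc 2 / (16 * (16 : ℝ) ^ j) * ∑ i ∈ range 16, Ls (T + i * 16 ^ j) (16 ^ j) (Bd N0 K 0)
        ≤ 2 / (16 * (16 : ℝ) ^ j) * (16 * (16 ^ j * B)) :=
          mul_le_mul_of_nonneg_left h1 (by positivity)
      _ = 2 * B := by field_simp

private theorem F1_jj_ge {T : ℝ} {J : ℕ} (hT1 : 1 ≤ T) (hT : (2 : ℝ) ^ (5 * J) ≤ T) :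
    J ≤ jj T := by
  have h1 := (jj_spec hT1).2
  have h2 : (2 : ℝ) ^ (5 * J) < 2 ^ (5 * jj T + 5) := lt_of_le_of_lt hT h1
  have h3 : 5 * J < 5 * jj T + 5 := (pow_lt_pow_iff_right₀ (by norm_num)).1 h2
  omega

private theorem F1_small {j : ℕ} (hj : 10 ≤ j) : 1024 * (16 : ℝ) ^ j ≤ 2 ^ (5 * j) := by
  have h1 : (2 : ℝ) ^ (5 * j) = 2 ^ j * 16 ^ j := by
    rw [pow_mul, ← mul_pow]; norm_num
  have h2 : (1024 : ℝ) ≤ 2 ^ j := by
    calc (1024 : ℝ) = 2 ^ 10 := by norm_num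
      _ ≤ 2 ^ j := pow_le_pow_right₀ (by norm_num) hj
  rw [h1]
  exact mul_le_mul_of_nonneg_right h2 (by positivity)

/-- **F1.** `j = jj T1`, `W = 16 ^ j`. If `jj T2 = j`: `compare` (second part). If `jj T2 = j + 1`: `ww T2 = 16 W`, `Ls_split`, and
`compare` for `T1`, `T2 + i W ≤ 1.06 T1`, average over `i < 16`. -/
theorem be_step {Cm : ℝ} (hmix : Mix Cm) : ∃ C2 : ℝ, 0 < C2 ∧ ∀ del : ℝ, 0 < del → ∃ Ts : ℝ, 1 ≤ Ts ∧
    ∀ (N0 : ℕ) (T1 T2 : ℝ), 1 ≤ N0 → Ts ≤ Real.log N0 → 1.01 * Real.log N0 ≤ T1 → 1.01 * T1 ≤ T2 → T2 ≤ 1.02 * T1 →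
    be N0 (KK del) T2 ≤ be N0 (KK del) T1 + C2 / 2 ^ jj T1 := by
  obtain ⟨C1, hC1, hcmp⟩ := compare hmix
  refine ⟨2 * C1, by positivity, fun del hdel => ?_⟩
  obtain ⟨js, hjs⟩ := hcmp del hdel
  refine ⟨2 ^ (5 * max js 10), one_le_pow₀ (by norm_num), ?_⟩
  intro N0 T1 T2 hN0 hTs h1 h2 h3
  have hpow1 : (1 : ℝ) ≤ 2 ^ (5 * max js 10) := one_le_pow₀ (by norm_num)
  have hL : (1 : ℝ) ≤ Real.log N0 := hpow1.trans hTs
  have hT1 : (1 : ℝ) ≤ T1 := by linarith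
  have hT1' : (2 : ℝ) ^ (5 * max js 10) ≤ T1 := by linarith
  have hJ := F1_jj_ge hT1 hT1'
  have hj1 : js ≤ jj T1 := (le_max_left _ _).trans hJ
  have hj2 : 10 ≤ jj T1 := (le_max_right _ _).trans hJ
  obtain ⟨hs1, hs2⟩ := jj_spec hT1
  have hstep := jj_step hT1 (T' := T2) (by linarith) (by linarith)
  have hsmall := F1_small hj2
  generalize hjdef : jj T1 = j at *
  have hpos : (0 : ℝ) < 16 ^ j := by positivity
  have h2pos : (0 : ℝ) < 2 ^ j := by positivity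
  have key := F1_be_le (N0 := N0) (K := KK del) (B := Ls T1 (16 ^ j) (Bd N0 (KK del) 0) / 16 ^ j + C1 / 2 ^ j)
    hstep (by
      intro i hi
      rw [mem_range] at hi
      have hi' : (i : ℝ) ≤ 15 := by exact_mod_cast (by omega : i ≤ 15)
      have hi0 : (0 : ℝ) ≤ i := Nat.cast_nonneg i
      have hm1 : (0 : ℝ) ≤ i * 16 ^ j := by positivity
      have hm2 : (i : ℝ) * 16 ^ j ≤ 15 * 16 ^ j := mul_le_mul_of_nonneg_right hi' hpos.le
      have h6 : (2 : ℝ) ^ (5 * j + 6) = 64 * 2 ^ (5 * j) := by rw [pow_add]; ring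
      have h5 : (2 : ℝ) ^ (5 * j + 5) = 32 * 2 ^ (5 * j) := by rw [pow_add]; ring
      have hc := (hjs j hj1 N0 T1 (T2 + i * 16 ^ j) hN0 (by linarith)
        (by rw [h6]; rw [h5] at hs2; linarith) (by linarith) (by linarith)).2 (by linarith)
      refine hc.trans (le_of_eq ?_)
      field_simp)
  refine key.trans (le_of_eq ?_)
  unfold be ww
  rw [hjdef]
  field_simp

/-- **F2.** `L0 = log N0`, `j = jj L0`, `T1 = L0 / 1.01`: `T1 + 16 ^ j ≤ L0`, `2 T1 ≥ 2 ^ (5 j)`, and `T + i 16 ^ j` (`i < 16`) lies in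
`[1.005 T1, 1.06 T1]`. `compare` (first part) for `T` if `jj T = j`, for all `T + i 16 ^ j`, `i < 16`, if `jj T = j + 1` (`Ls_split`). -/
theorem be_base {Cm : ℝ} (hmix : Mix Cm) : ∃ C2 : ℝ, 0 < C2 ∧ ∀ del : ℝ, 0 < del → ∃ Ts : ℝ, 1 ≤ Ts ∧
    ∀ (N0 : ℕ) (T : ℝ), 1 ≤ N0 → Ts ≤ Real.log N0 → Real.log N0 ≤ T → T ≤ 1.03 * Real.log N0 →
    be N0 (KK del) T ≤ C2 / 2 ^ jj (Real.log N0) := by
  obtain ⟨C1, hC1, hcmp⟩ := compare hmix
  refine ⟨2 * C1, by positivity, fun del hdel => ?_⟩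
  obtain ⟨js, hjs⟩ := hcmp del hdel
  refine ⟨2 ^ (5 * max js 10), one_le_pow₀ (by norm_num), ?_⟩
  intro N0 T hN0 hTs h1 h2
  have hpow1 : (1 : ℝ) ≤ 2 ^ (5 * max js 10) := one_le_pow₀ (by norm_num)
  have hL : (1 : ℝ) ≤ Real.log N0 := hpow1.trans hTs
  have hJ := F1_jj_ge hL hTs
  have hj1 : js ≤ jj (Real.log N0) := (le_max_left _ _).trans hJ
  have hj2 : 10 ≤ jj (Real.log N0) := (le_max_right _ _).trans hJ
  obtain ⟨hs1, hs2⟩ := jj_spec hL
  have hstep := jj_step hL (T' := T) h1 (by linarith)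
  have hsmall := F1_small hj2
  generalize hjdef : jj (Real.log N0) = j at *
  have hpos : (0 : ℝ) < 16 ^ j := by positivity
  have h2pos : (0 : ℝ) < 2 ^ j := by positivity
  have key := F1_be_le (N0 := N0) (K := KK del) (B := C1 / 2 ^ j)
    hstep (by
      intro i hi
      rw [mem_range] at hi
      have hi' : (i : ℝ) ≤ 15 := by exact_mod_cast (by omega : i ≤ 15)
      have hi0 : (0 : ℝ) ≤ i := Nat.cast_nonneg i
      have hm1 : (0 : ℝ) ≤ i * 16 ^ j := by positivity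
      have hm2 : (i : ℝ) * 16 ^ j ≤ 15 * 16 ^ j := mul_le_mul_of_nonneg_right hi' hpos.le
      have h6 : (2 : ℝ) ^ (5 * j + 6) = 64 * 2 ^ (5 * j) := by rw [pow_add]; ring
      have h5 : (2 : ℝ) ^ (5 * j + 5) = 32 * 2 ^ (5 * j) := by rw [pow_add]; ring
      have hc := (hjs j hj1 N0 (Real.log N0 / 1.01) (T + i * 16 ^ j) hN0
        (by rw [← mul_div_assoc, le_div_iff₀ (by norm_num)]; linarith)
        (by rw [h6, div_le_iff₀ (by norm_num)]; rw [h5] at hs2; linarith)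
        (by rw [← mul_div_assoc, div_le_iff₀ (by norm_num)]; linarith)
        (by rw [← mul_div_assoc, le_div_iff₀ (by norm_num)]; linarith)).1
        (by rw [← le_sub_iff_add_le, div_le_iff₀ (by norm_num)]; linarith)
      refine hc.trans (le_of_eq ?_)
      field_simp)
  refine key.trans (le_of_eq ?_)
  ring

end Pool.Agent.E21
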