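import Pool.Agent.W_e21c_h6.F1

/-!
# Telescoping (MP_e21d3a_lc, natural density; file F2)
-/

set_option autoImplicit false

noncomputable section

open Finset

namespace Pool.Agent.E21

/-- **F3.** `Phi T = D T ^ (-1/5)` with `D = 2 C2 / (1 - 1.015 ^ (-1/5))`: `be_step` with `T2 = 1.015 T1` and `jj_rpow` give
`be T2 + Phi T2 ≤ be T1 + Phi T1`. Induction on `k` for `T ≤ 1.015 ^ k * 1.03 * log N0`: if `T ≤ 1.03 log N0` use `be_base`, otherwise
go to `T / 1.015 ≥ 1.01 log N0`. Conclusion `be T ≤ (2 C2 + D) (log N0) ^ (-1/5)`. -/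
theorem be_le {Cm : ℝ} (hmix : Mix Cm) : ∃ C3 : ℝ, 0 < C3 ∧ ∀ del : ℝ, 0 < del → ∃ Ts : ℝ, 1 ≤ Ts ∧
    ∀ (N0 : ℕ) (T : ℝ), 1 ≤ N0 → Ts ≤ Real.log N0 → Real.log N0 ≤ T →
    be N0 (KK del) T ≤ C3 * (Real.log N0) ^ (-(1 / 5) : ℝ) := by
  obtain ⟨C2, hC2, hstep⟩ := be_step hmix
  obtain ⟨C2', hC2', hbase⟩ := be_base hmix
  set c : ℝ := (1.015 : ℝ) ^ (-(1 / 5) : ℝ) with hc
  have hc1 : c < 1 := Real.rpow_lt_one_of_one_lt_of_neg (by norm_num) (by norm_num)
  have hc0 : 0 < c := Real.rpow_pos_of_pos (by norm_num) _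
  set D : ℝ := 2 * C2 / (1 - c) with hD
  have hD0 : 0 < D := div_pos (by linarith) (by linarith)
  have hDc : D * (1 - c) = 2 * C2 := by
    rw [hD, div_mul_cancel₀ _ (by linarith)]
  refine ⟨2 * C2' + D, by linarith, fun del hdel => ?_⟩
  obtain ⟨Ts1, hTs1, hs⟩ := hstep del hdel
  obtain ⟨Ts2, hTs2, hb⟩ := hbase del hdel
  refine ⟨max Ts1 Ts2, hTs1.trans (le_max_left _ _), fun N0 T hN0 hTs hT => ?_⟩
  set L0 : ℝ := Real.log N0 with hL0
  have hL1 : Ts1 ≤ L0 := (le_max_left _ _).trans hTs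
  have hL2 : Ts2 ≤ L0 := (le_max_right _ _).trans hTs
  have hL01 : 1 ≤ L0 := hTs1.trans hL1
  have base : ∀ S : ℝ, L0 ≤ S → S ≤ 1.03 * L0 →
      be N0 (KK del) S + D * S ^ (-(1 / 5) : ℝ) ≤ (2 * C2' + D) * L0 ^ (-(1 / 5) : ℝ) := by
    intro S h1 h2
    have h3 := hb N0 S hN0 hL2 h1 h2
    have h4 := jj_rpow hL01
    have h5 : S ^ (-(1 / 5) : ℝ) ≤ L0 ^ (-(1 / 5) : ℝ) :=
      Real.rpow_le_rpow_of_nonpos (by linarith) h1 (by norm_num)
    have h6 : C2' / 2 ^ jj L0 ≤ C2' * (2 * L0 ^ (-(1 / 5) : ℝ)) := by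
      rw [div_eq_mul_one_div]
      exact mul_le_mul_of_nonneg_left h4 hC2'.le
    have h7 := mul_le_mul_of_nonneg_left h5 hD0.le
    linarith
  have ind : ∀ k : ℕ, ∀ S : ℝ, L0 ≤ S → S ≤ 1.015 ^ k * (1.03 * L0) →
      be N0 (KK del) S + D * S ^ (-(1 / 5) : ℝ) ≤ (2 * C2' + D) * L0 ^ (-(1 / 5) : ℝ) := by
    intro k
    induction k with
    | zero =>
      intro S h1 h2
      rw [pow_zero, one_mul] at h2
      exact base S h1 h2
    | succ k ih =>
      intro S h1 h2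
      rcases le_or_gt S (1.03 * L0) with h3 | h3
      · exact base S h1 h3
      · set T1 : ℝ := S / 1.015 with hT1
        have hST : S = T1 * 1.015 := by
          rw [hT1]
          field_simp
        have h4 : 1.01 * L0 ≤ T1 := by
          rw [hT1, le_div_iff₀ (by norm_num)]
          nlinarith
        have h5 : L0 ≤ T1 := by linarith
        have h6 : T1 ≤ 1.015 ^ k * (1.03 * L0) := by
          rw [hT1, div_le_iff₀ (by norm_num)]
          calc S ≤ 1.015 ^ (k + 1) * (1.03 * L0) := h2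
            _ = 1.015 ^ k * (1.03 * L0) * 1.015 := by ring
        have h7 := ih T1 h5 h6
        have hT10 : (0 : ℝ) < T1 := by linarith
        have h8 := hs N0 T1 S hN0 hL1 h4 (by linarith) (by linarith)
        have h9 := jj_rpow (show (1 : ℝ) ≤ T1 by linarith)
        have h10 : C2 / 2 ^ jj T1 ≤ C2 * (2 * T1 ^ (-(1 / 5) : ℝ)) := by
          rw [div_eq_mul_one_div]
          exact mul_le_mul_of_nonneg_left h9 hC2.le
        have h11 : S ^ (-(1 / 5) : ℝ) = T1 ^ (-(1 / 5) : ℝ) * c := by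
          rw [hST, Real.mul_rpow hT10.le (by norm_num)]
        rw [h11]
        have h12 : D * (T1 ^ (-(1 / 5) : ℝ) * c) =
            D * T1 ^ (-(1 / 5) : ℝ) - (D * (1 - c)) * T1 ^ (-(1 / 5) : ℝ) := by ring
        rw [h12, hDc]
        linarith
  obtain ⟨k, hk⟩ := pow_unbounded_of_one_lt (T / (1.03 * L0)) (show (1 : ℝ) < 1.015 by norm_num)
  have hk' : T ≤ 1.015 ^ k * (1.03 * L0) := by
    rw [← div_le_iff₀ (by linarith)]
    exact hk.le
  have h1 := ind k T hT hk'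
  have h2 : 0 ≤ D * T ^ (-(1 / 5) : ℝ) :=
    mul_nonneg hD0.le (Real.rpow_nonneg (by linarith) _)
  linarith

end Pool.Agent.E21
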