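import Pool.Agent.W_e21c_h6.A1
import Pool.Agent.W_e21c_h6.A4
import Pool.Agent.W_e21c_h6.P2

/-!
# Top step: untypical numbers (MP_e21d3a_lc, natural density; file H1)
-/

set_option autoImplicit false

noncomputable section

open Finset

namespace Pool.Agent.E21

theorem card_mod_bounds (q r a b : ℕ) (hq : 0 < q) (hab : a ≤ b) :
    ((b : ℝ) - a) / q - 1 ≤ (((Ico a b).filter fun N => N ≡ r [MOD q]).card : ℝ) ∧
    (((Ico a b).filter fun N => N ≡ r [MOD q]).card : ℝ) ≤ ((b : ℝ) - a) / q + 1 := by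
  have h := Nat.Ico_filter_modEq_card a b hq r
  have hq0 : (0 : ℚ) < q := by exact_mod_cast hq
  have h1 : ((b : ℚ) - a) / q - 1 ≤ (((Ico a b).filter fun N => N ≡ r [MOD q]).card : ℚ) := by
    have h2 : (⌈((b : ℚ) - r) / q⌉ - ⌈((a : ℚ) - r) / q⌉ : ℤ) ≤ (((Ico a b).filter fun N => N ≡ r [MOD q]).card : ℤ) := by
      rw [h]; exact le_max_left _ _
    have h3 : ((⌈((b : ℚ) - r) / q⌉ : ℚ) - ⌈((a : ℚ) - r) / q⌉) ≤ (((Ico a b).filter fun N => N ≡ r [MOD q]).card : ℚ) := by
      exact_mod_cast h2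
    have h4 := Int.le_ceil (((b : ℚ) - r) / q)
    have h5 := Int.ceil_lt_add_one (((a : ℚ) - r) / q)
    have h6 : ((b : ℚ) - a) / q = ((b : ℚ) - r) / q - ((a : ℚ) - r) / q := by ring
    linarith
  have h1' : (((Ico a b).filter fun N => N ≡ r [MOD q]).card : ℚ) ≤ ((b : ℚ) - a) / q + 1 := by
    have h2 : (((Ico a b).filter fun N => N ≡ r [MOD q]).card : ℚ) =
        max ((⌈((b : ℚ) - r) / q⌉ : ℚ) - ⌈((a : ℚ) - r) / q⌉) 0 := by
      exact_mod_cast h
    rw [h2]
    have h4 := Int.ceil_lt_add_one (((b : ℚ) - r) / q)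
    have h5 := Int.le_ceil (((a : ℚ) - r) / q)
    have h6 : ((b : ℚ) - a) / q = ((b : ℚ) - r) / q - ((a : ℚ) - r) / q := by ring
    apply max_le
    · linarith
    · have : (a : ℚ) ≤ b := by exact_mod_cast hab
      have : 0 ≤ ((b : ℚ) - a) / q := div_nonneg (by linarith) hq0.le
      linarith
  constructor
  · have := (Rat.cast_le (K := ℝ)).2 h1
    push_cast at this
    exact this
  · have := (Rat.cast_le (K := ℝ)).2 h1'
    push_cast at this
    exact this

theorem Od_eq (y : ℝ) : Od y = (Ico ⌈y⌉₊ ⌈2 * y⌉₊).filter fun N => N % 2 = 1 := by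
  ext N
  rw [mem_Od, mem_filter, mem_Ico, Nat.lt_ceil, Nat.ceil_le]
  tauto

/-- **H1.** `#(Od y) ≤ y / 2 + 1`; for `l ∈ win n bb`, `b ∈ comps n l` the numbers of `Od y` with `vals n N = b` are the elements of one
class modulo `2 ^ (l + 1)` in `[y, 2 y)` (`class_vals`), at least `y / 2 ^ (l + 1) - 1`. There are at most `2 ^ (3 n + 1)` such `b`
(`card_comps_le`, `bb ≤ n`). So the number is `≤ (y / 2) (1 - ∑_{win} Pn) + 1 + 2 ^ (3 n + 1)`, and `2 ^ (3 n + 1) + 1 ≤ sqrt y` for
`n ≤ log y / 40`, `y` large. `tail_le`. -/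
theorem bad_count : ∃ t0 : ℝ, 0 < t0 ∧ ∀ (y : ℝ) (n bb : ℕ), 1 ≤ y → t0 ≤ Real.log y → 1 ≤ n → (n : ℝ) ≤ Real.log y / 40 →
    1 ≤ bb → bb ≤ n →
    (((Od y).filter fun N => (vals n N).sum ∉ win n bb).card : ℝ) ≤ y * (n / bb ^ 2) + Real.sqrt y := by
  refine ⟨20, by norm_num, ?_⟩
  intro y n bb hy ht hn hny hbb hbbn
  have hy0 : 0 < y := by linarith
  set a := ⌈y⌉₊ with ha
  set b := ⌈2 * y⌉₊ with hb
  have hab : a ≤ b := Nat.ceil_le_ceil (by linarith)
  have ha1 : y ≤ a := Nat.le_ceil _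
  have ha2 : (a : ℝ) < y + 1 := Nat.ceil_lt_add_one hy0.le
  have hb1 : 2 * y ≤ b := Nat.le_ceil _
  have hb2 : (b : ℝ) < 2 * y + 1 := Nat.ceil_lt_add_one (by linarith)
  -- size of Od
  have hOd : ((Od y).card : ℝ) ≤ y / 2 + 2 := by
    rw [Od_eq]
    have h1 := (card_mod_bounds 2 1 a b (by norm_num) hab).2
    have h2 : ((Ico a b).filter fun N => N ≡ 1 [MOD 2]) = (Ico a b).filter fun N => N % 2 = 1 := by
      apply filter_congr
      intro N _
      unfold Nat.ModEq
      norm_num
    rw [h2] at h1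
    push_cast at h1
    linarith
  -- classes
  have hcl : ∀ l, ∀ c ∈ comps n l, y / 2 ^ (l + 1) - 2 ≤ (((Od y).filter fun N => vals n N = c).card : ℝ) := by
    intro l c hc
    obtain ⟨r, hr⟩ := class_vals hc
    have h1 := (card_mod_bounds (2 ^ (l + 1)) r a b (by positivity) hab).1
    have h2 : ((Ico a b).filter fun N => N ≡ r [MOD 2 ^ (l + 1)]) = (Od y).filter fun N => vals n N = c := by
      rw [Od_eq, filter_filter]
      apply filter_congr
      intro N _
      exact (hr N).symm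
    rw [h2] at h1
    refine le_trans ?_ h1
    push_cast
    have h3 : ((y : ℝ) - 1) / 2 ^ (l + 1) ≤ ((b : ℝ) - a) / 2 ^ (l + 1) := by
      apply div_le_div_of_nonneg_right _ (by positivity)
      linarith
    have h4 : (1 : ℝ) / 2 ^ (l + 1) ≤ 1 := by
      rw [div_le_one (by positivity)]
      exact one_le_pow₀ (by norm_num)
    have h5 : ((y : ℝ) - 1) / 2 ^ (l + 1) = y / 2 ^ (l + 1) - 1 / 2 ^ (l + 1) := by ring
    linarith
  -- good numbers
  have hgood : ∑ l ∈ win n bb, ∑ c ∈ comps n l, (((Od y).filter fun N => vals n N = c).card : ℝ) ≤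
      (((Od y).filter fun N => (vals n N).sum ∈ win n bb).card : ℝ) := by
    have h1 : ((Od y).filter fun N => (vals n N).sum ∈ win n bb).card =
        ∑ l ∈ win n bb, (((Od y).filter fun N => (vals n N).sum ∈ win n bb).filter fun N => (vals n N).sum = l).card := by
      apply card_eq_sum_card_fiberwise
      intro N hN
      exact (mem_filter.1 hN).2
    rw [h1]
    push_cast
    apply sum_le_sum
    intro l hl
    have h2 : (((Od y).filter fun N => (vals n N).sum ∈ win n bb).filter fun N => (vals n N).sum = l) =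
        (Od y).filter fun N => (vals n N).sum = l := by
      rw [filter_filter]
      apply filter_congr
      intro N _
      constructor
      · exact fun h => h.2
      · exact fun h => ⟨h ▸ hl, h⟩
    rw [h2]
    have h3 : ((Od y).filter fun N => (vals n N).sum = l).card =
        ∑ c ∈ comps n l, (((Od y).filter fun N => (vals n N).sum = l).filter fun N => vals n N = c).card := by
      apply card_eq_sum_card_fiberwise
      intro N hN
      obtain ⟨h4, h5⟩ := mem_filter.1 hN
      have h6 := path_vals (mem_Od.1 h4).1 n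
      exact mem_comps.2 ⟨length_vals n N, h5, h6.2.2.1⟩
    rw [h3]
    push_cast
    apply sum_le_sum
    intro c hc
    have h7 : (Od y).filter (fun N => vals n N = c) ⊆
        ((Od y).filter fun N => (vals n N).sum = l).filter fun N => vals n N = c := by
      intro N hN
      rw [mem_filter] at hN
      rw [mem_filter, mem_filter]
      refine ⟨⟨hN.1, ?_⟩, hN.2⟩
      rw [hN.2]
      exact (mem_comps.1 hc).2.1
    exact_mod_cast card_le_card h7
  have hlow : y / 2 * ∑ l ∈ win n bb, Pn n l - 2 ^ (3 * n + 2) ≤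
      ∑ l ∈ win n bb, ∑ c ∈ comps n l, (((Od y).filter fun N => vals n N = c).card : ℝ) := by
    have h1 : ∑ l ∈ win n bb, (y / 2 * Pn n l - 2 * 2 ^ l) ≤
        ∑ l ∈ win n bb, ∑ c ∈ comps n l, (((Od y).filter fun N => vals n N = c).card : ℝ) := by
      apply sum_le_sum
      intro l hl
      have h2 : ∑ c ∈ comps n l, (y / 2 ^ (l + 1) - 2) ≤
          ∑ c ∈ comps n l, (((Od y).filter fun N => vals n N = c).card : ℝ) :=
        sum_le_sum fun c hc => hcl l c hc
      refine le_trans ?_ h2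
      rw [sum_const, nsmul_eq_mul]
      have h3 : ((comps n l).card : ℝ) ≤ 2 ^ l := by exact_mod_cast card_comps_le n l
      have h4 : y / 2 * Pn n l = (comps n l).card * (y / 2 ^ (l + 1)) := by
        unfold Pn
        rw [pow_succ]
        field_simp
      rw [h4, mul_sub]
      linarith
    refine le_trans ?_ h1
    rw [sum_sub_distrib, ← mul_sum, ← mul_sum]
    have h5 : ∑ l ∈ win n bb, (2 : ℝ) ^ l ≤ 2 ^ (3 * n + 1) := by
      have h6 : ∑ l ∈ win n bb, (2 : ℝ) ^ l ≤ ∑ l ∈ range (3 * n + 1), (2 : ℝ) ^ l := by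
        apply sum_le_sum_of_subset_of_nonneg
        · intro l hl
          unfold win at hl
          rw [mem_Icc] at hl
          rw [mem_range]
          omega
        · intro l _ _
          positivity
      refine h6.trans ?_
      rw [geom_sum_eq (by norm_num)]
      have : (0 : ℝ) < 2 ^ (3 * n + 1) := by positivity
      norm_num
    have h7 : (2 : ℝ) ^ (3 * n + 2) = 2 * 2 ^ (3 * n + 1) := by ring
    rw [h7]
    linarith
  have hsplit : (((Od y).filter fun N => (vals n N).sum ∉ win n bb).card : ℝ) +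
      (((Od y).filter fun N => (vals n N).sum ∈ win n bb).card : ℝ) = (Od y).card := by
    have := card_filter_add_card_filter_not (s := Od y) (fun N => (vals n N).sum ∈ win n bb)
    rw [add_comm]
    exact_mod_cast this
  have htail := tail_le n bb hbb
  have hsqrt : (2 : ℝ) ^ (3 * n + 2) + 2 ≤ Real.sqrt y := by
    have h1 : (2 : ℝ) ^ (3 * n + 2) + 2 ≤ 2 ^ (3 * n + 3) := by
      have h8 : (2 : ℝ) ≤ 2 ^ (3 * n + 2) := by
        calc (2 : ℝ) = 2 ^ 1 := by norm_num
          _ ≤ 2 ^ (3 * n + 2) := pow_le_pow_right₀ (by norm_num) (by omega)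
      have h9 : (2 : ℝ) ^ (3 * n + 3) = 2 * 2 ^ (3 * n + 2) := by ring
      linarith
    refine h1.trans ?_
    have h2 : Real.sqrt y = Real.exp (Real.log y / 2) := by
      rw [Real.sqrt_eq_rpow, Real.rpow_def_of_pos hy0]
      congr 1
      ring
    rw [h2]
    have h3 : (2 : ℝ) ^ (3 * n + 3) = Real.exp (((3 * n + 3 : ℕ) : ℝ) * Real.log 2) := by
      rw [Real.exp_nat_mul, Real.exp_log (by norm_num)]
    rw [h3]
    apply Real.exp_le_exp.2
    have h4 : Real.log 2 < 1 := by
      have := Real.log_two_lt_d9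
      linarith
    have h5 : 0 < Real.log 2 := Real.log_pos (by norm_num)
    have h6 : (((3 * n + 3 : ℕ) : ℝ)) * Real.log 2 ≤ ((3 * n + 3 : ℕ) : ℝ) * 1 :=
      mul_le_mul_of_nonneg_left h4.le (by positivity)
    push_cast at h6 ⊢
    linarith
  have h10 : y * (n / bb ^ 2) = y / 2 * (2 * n / bb ^ 2) := by ring
  rw [h10]
  have h11 : y / 2 * (1 - ∑ l ∈ win n bb, Pn n l) ≤ y / 2 * (2 * n / bb ^ 2) :=
    mul_le_mul_of_nonneg_left htail (by positivity)
  linarith

end Pool.Agent.E21
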