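import Pool.Agent.W_e21c_h6.A6
import Pool.Agent.W_e21c_h6.P4

/-!
# Top step: counting formula (MP_e21d3a_lc, natural density; file H2)
-/

set_option autoImplicit false

noncomputable section

open Finset

namespace Pool.Agent.E21

open Classical in
/-- **H2.** `N ↦ (vals n N, syr^n N)` is injective; `M = syr^n N ∈ Bd c` by `bad_forward` (`2 ^ l ≤ 2 ^ n N` as `l ≤ 3 n`,
`2 ^ (2 n) ≤ y`); `log M = log N + n log 3 - l log 2 + [0, 2 ^ l / (2 ^ n N)]` (`log_path_ge`, `log_path_le`) and `log N` in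
`[log y, log y + log 2)`, so `M` is in the window of length `log 4`. The number of `b ∈ comps n l` with `G b ≡ 2 ^ l M` is `2 ^ l nu n n l M`. -/
theorem count_top : ∃ t0 : ℝ, 0 < t0 ∧ ∀ (y : ℝ) (n bb N0 : ℕ) (del c : ℝ), 1 ≤ y → t0 ≤ Real.log y → 1 ≤ n →
    (n : ℝ) ≤ Real.log y / 40 → 1 ≤ bb → bb ≤ n → 0 < del → 0 ≤ c → c + (KK del + 1) * (bb + 1) ≤ del * n * La →
    (((Od y).filter fun N => (vals n N).sum ∈ win n bb ∧ N ∈ Bd N0 (KK del) 0).card : ℝ) ≤
      ∑ l ∈ win n bb, ∑ M ∈ (Ow (Real.log y + n * Real.log 3 - l * Real.log 2) (Real.log 4)).filter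
        (· ∈ Bd N0 (KK del) c), 2 ^ l * nu n n l M := by
  refine ⟨20, by norm_num, ?_⟩
  intro y n bb N0 del c hy ht hn hny hbb hbbn hdel hc0 hc
  have hy0 : 0 < y := by linarith
  have h2 : 0 < Real.log 2 := Real.log_pos (by norm_num)
  have h2' : Real.log 2 < 1 := by
    have := Real.log_two_lt_d9
    linarith
  have h2'' : 1 / 2 < Real.log 2 := by
    have := Real.log_two_gt_d9
    linarith
  have h4 : Real.log 4 = 2 * Real.log 2 := by
    rw [show (4 : ℝ) = 2 ^ 2 by norm_num, Real.log_pow]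
    norm_num
  have hpow : (2 : ℝ) ^ (2 * n) ≤ y / 2 := by
    have h3 : (2 : ℝ) ^ (2 * n + 1) ≤ y := by
      have h5 : (2 : ℝ) ^ (2 * n + 1) = Real.exp (((2 * n + 1 : ℕ) : ℝ) * Real.log 2) := by
        rw [Real.exp_nat_mul, Real.exp_log (by norm_num)]
      rw [h5, ← Real.exp_log hy0]
      apply Real.exp_le_exp.2
      have h6 : (((2 * n + 1 : ℕ) : ℝ)) * Real.log 2 ≤ ((2 * n + 1 : ℕ) : ℝ) * 1 :=
        mul_le_mul_of_nonneg_left h2'.le (by positivity)
      push_cast at h6 ⊢
      linarith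
    have h7 : (2 : ℝ) ^ (2 * n + 1) = 2 * 2 ^ (2 * n) := by ring
    linarith
  set S := (Od y).filter fun N => (vals n N).sum ∈ win n bb ∧ N ∈ Bd N0 (KK del) 0 with hS
  have hmem : ∀ N ∈ S, Path (vals n N) N (syr^[n] N) ∧ vals n N ∈ comps n (vals n N).sum ∧
      (vals n N).sum ∈ win n bb ∧
      syr^[n] N ∈ (Ow (Real.log y + n * Real.log 3 - (vals n N).sum * Real.log 2) (Real.log 4)).filter
        (· ∈ Bd N0 (KK del) c) := by
    intro N hN
    obtain ⟨hN1, hN2, hN3⟩ := mem_filter.1 hN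
    obtain ⟨hodd, hNy, hNy2⟩ := mem_Od.1 hN1
    have hN0 : (0 : ℝ) < N := by linarith
    have hp := path_vals hodd n
    have hlen := length_vals n N
    have hl3 : (vals n N).sum ≤ 3 * n := by
      have h5 := hN2
      unfold win at h5
      rw [mem_Icc] at h5
      omega
    have hsm : 2 ^ (vals n N).sum ≤ 2 ^ (vals n N).length * N := by
      rw [hlen]
      have h5 : 2 ^ (vals n N).sum ≤ 2 ^ (3 * n) := Nat.pow_le_pow_right (by norm_num) hl3
      have h6 : 2 ^ (3 * n) = 2 ^ n * 2 ^ (2 * n) := by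
        rw [← pow_add]
        congr 1
        ring
      have h7 : 2 ^ (2 * n) ≤ N := by
        have : (2 : ℝ) ^ (2 * n) ≤ N := by linarith
        exact_mod_cast this
      calc 2 ^ (vals n N).sum ≤ 2 ^ n * 2 ^ (2 * n) := by rw [← h6]; exact h5
        _ ≤ 2 ^ n * N := Nat.mul_le_mul_left _ h7
    refine ⟨hp, mem_comps.2 ⟨hlen, rfl, hp.2.2.1⟩, hN2, ?_⟩
    rw [mem_filter, mem_Ow]
    refine ⟨⟨hp.2.1, ?_, ?_⟩, ?_⟩
    · have h5 := log_path_ge hp
      rw [hlen, La_eq] at h5
      have h6 : Real.log y ≤ Real.log N := Real.log_le_log hy0 hNy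
      linarith
    · have h5 := log_path_le hp
      rw [hlen, La_eq] at h5
      have h6 : Real.log N < Real.log (2 * y) := Real.log_lt_log hN0 hNy2
      rw [Real.log_mul (by norm_num) hy0.ne'] at h6
      have h7 : (2 : ℝ) ^ (vals n N).sum / (2 ^ n * N) ≤ 1 / 2 := by
        rw [div_le_iff₀ (by positivity)]
        have h8 : (2 : ℝ) ^ (vals n N).sum ≤ 2 ^ (3 * n) := pow_le_pow_right₀ (by norm_num) hl3
        have h9 : (2 : ℝ) ^ (3 * n) = 2 ^ n * 2 ^ (2 * n) := by
          rw [← pow_add]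
          congr 1
          ring
        have h10 : (2 : ℝ) ^ n * 2 ^ (2 * n) ≤ 2 ^ n * (N / 2) := by
          apply mul_le_mul_of_nonneg_left _ (by positivity)
          linarith
        linarith
      rw [h4]
      linarith
    · refine bad_forward hdel hp (by rw [hlen]; exact hN2) hbb hsm ?_ hN3
      rw [hlen]
      exact hc
  have hfib : (S.card : ℝ) = ∑ l ∈ win n bb, ((S.filter fun N => (vals n N).sum = l).card : ℝ) := by
    have := card_eq_sum_card_fiberwise (s := S) (t := win n bb) (f := fun N => (vals n N).sum)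
      (fun N hN => (hmem N hN).2.2.1)
    exact_mod_cast this
  rw [hfib]
  apply sum_le_sum
  intro l hl
  have hfib2 : ((S.filter fun N => (vals n N).sum = l).card : ℝ) =
      ∑ M ∈ (Ow (Real.log y + n * Real.log 3 - l * Real.log 2) (Real.log 4)).filter (· ∈ Bd N0 (KK del) c),
        (((S.filter fun N => (vals n N).sum = l).filter fun N => syr^[n] N = M).card : ℝ) := by
    have := card_eq_sum_card_fiberwise (s := S.filter fun N => (vals n N).sum = l)
      (t := (Ow (Real.log y + n * Real.log 3 - l * Real.log 2) (Real.log 4)).filter (· ∈ Bd N0 (KK del) c))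
      (f := fun N => syr^[n] N) (fun N hN => by
        obtain ⟨h5, h6⟩ := mem_filter.1 hN
        have h7 := (hmem N h5).2.2.2
        rw [h6] at h7
        exact h7)
    exact_mod_cast this
  rw [hfib2]
  apply sum_le_sum
  intro M _
  have hnu : (2 : ℝ) ^ l * nu n n l M = (((comps n l).filter fun b => G b ≡ 2 ^ l * M [MOD 3 ^ n]).card : ℝ) := by
    unfold nu
    have : (2 : ℝ) ^ l ≠ 0 := by positivity
    field_simp
  rw [hnu]
  have hinj : ((S.filter fun N => (vals n N).sum = l).filter fun N => syr^[n] N = M).card ≤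
      ((comps n l).filter fun b => G b ≡ 2 ^ l * M [MOD 3 ^ n]).card := by
    apply card_le_card_of_injOn (fun N => vals n N)
    · intro N hN
      have hN' := mem_filter.1 (mem_coe.1 hN)
      obtain ⟨h5, h6⟩ := hN'
      obtain ⟨h7, h8⟩ := mem_filter.1 h5
      obtain ⟨h9, h10, _⟩ := hmem N h7
      apply mem_coe.2
      rw [mem_filter]
      refine ⟨h8 ▸ h10, ?_⟩
      have h11 := h9.2.2.2
      rw [h8, h6, length_vals] at h11
      rw [h11]
      show G (vals n N) % 3 ^ n = (3 ^ n * N + G (vals n N)) % 3 ^ n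
      rw [Nat.mul_add_mod]
    · intro N hN N' hN' heq
      have hN1 := mem_filter.1 (mem_coe.1 hN)
      have hN1' := mem_filter.1 (mem_coe.1 hN')
      obtain ⟨h7, h8⟩ := mem_filter.1 hN1.1
      obtain ⟨h7', h8'⟩ := mem_filter.1 hN1'.1
      have h9 := (hmem N h7).1.2.2.2
      have h9' := (hmem N' h7').1.2.2.2
      have heq' : vals n N = vals n N' := heq
      rw [hN1.2] at h9
      rw [hN1'.2, ← heq', h9] at h9'
      rw [length_vals] at h9'
      have h10 : 3 ^ n * N = 3 ^ n * N' := by omega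
      exact Nat.eq_of_mul_eq_mul_left (by positivity) h10
  exact_mod_cast hinj

end Pool.Agent.E21
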