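import Pool.Agent.W_e21c_h6.W3

/-!
# Top step: mixing (MP_e21d3a_lc, natural density; file H3)
-/

set_option autoImplicit false

noncomputable section

open Finset

namespace Pool.Agent.E21

theorem nu_add_pow {m n : ℕ} (h : m ≤ n) (k l Y : ℕ) : nu m k l (Y + 3 ^ n) = nu m k l Y := by
  obtain ⟨d, rfl⟩ := Nat.exists_eq_add_of_le h
  have key : ∀ j : ℕ, nu m k l (Y + j * 3 ^ m) = nu m k l Y := by
    intro j
    induction j with
    | zero => simp
    | succ j ih => rw [Nat.succ_mul, ← add_assoc, nu_periodic, ih]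
  rw [pow_add, mul_comm, key]

open Classical in
/-- **H3.** On the window `2 ^ l M < 4 y 3 ^ n`, so `2 ^ l nu n n l M ≤ (4 y / M) 3 ^ n nu n n l M`. Replace `3 ^ n nu n n l M` by
`3 ^ m nu m n l M`, error `≤ 4 y ∑_l (log 4 / 2 + 1) ∑_Y |nu n n l Y - nu m n l Y / 3 ^ (n - m)| ≤ 8 y Cm / m` (`sum_periodic`, `nu_periodic`;
`l log 2 ≤ log y`). `3 ^ m nu m n l M ≤ cm m M / (2 sqrt (n - m))` (`nu_le_sqrt`). -/
theorem mix_top {Cm : ℝ} (hmix : Mix Cm) (y : ℝ) (m n bb : ℕ) (E : Set ℕ) (hy : 1 ≤ y) (hm : 1 ≤ m) (hmn : 2 * m ≤ n)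
    (hbb : bb ≤ n) (hn : (n : ℝ) ≤ Real.log y / 40) :
    ∑ l ∈ win n bb, ∑ M ∈ (Ow (Real.log y + n * Real.log 3 - l * Real.log 2) (Real.log 4)).filter (· ∈ E),
        2 ^ l * nu n n l M ≤
      4 * y / Real.sqrt n * (∑ l ∈ win n bb, ∑ M ∈ (Ow (Real.log y + n * Real.log 3 - l * Real.log 2)
        (Real.log 4)).filter (· ∈ E), cm m M / M) + 8 * y * (Cm / m) := by
  have hy0 : 0 < y := by linarith
  have hn1 : 1 ≤ n := by omega
  have hn0 : (0 : ℝ) < n := by exact_mod_cast hn1
  have hlogy : 0 ≤ Real.log y := Real.log_nonneg hy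
  have h2 : 0 < Real.log 2 := Real.log_pos (by norm_num)
  have h2' : Real.log 2 < 1 := by
    have := Real.log_two_lt_d9
    linarith
  have h4 : Real.log 4 = 2 * Real.log 2 := by
    rw [show (4 : ℝ) = 2 ^ 2 by norm_num, Real.log_pow]
    norm_num
  set psi : ℕ → ℕ → ℝ := fun l M => |nu n n l M - nu m n l M / 3 ^ (n - m)| with hpsi
  -- pointwise bound
  have hpt : ∀ l ∈ win n bb, ∀ M ∈ Ow (Real.log y + n * Real.log 3 - l * Real.log 2) (Real.log 4),
      2 ^ l * nu n n l M ≤ 4 * y / Real.sqrt n * (cm m M / M) + 4 * y * 3 ^ n * (psi l M / M) := by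
    intro l _ M hM
    rw [mem_Ow] at hM
    obtain ⟨hodd, hlo, hhi⟩ := hM
    have hM1 : 1 ≤ M := by omega
    have hM0 : (0 : ℝ) < M := by exact_mod_cast hM1
    have hMlt : (2 : ℝ) ^ l * M ≤ 4 * y * 3 ^ n := by
      have h3 : Real.log (2 ^ l * M) ≤ Real.log (4 * y * 3 ^ n) := by
        rw [Real.log_mul (by positivity) hM0.ne', Real.log_mul (by positivity) (by positivity),
          Real.log_mul (by norm_num) hy0.ne', Real.log_pow, Real.log_pow]
        linarith
      exact (Real.log_le_log_iff (by positivity) (by positivity)).1 h3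
    have h2l : (2 : ℝ) ^ l ≤ 4 * y * 3 ^ n / M := by
      rw [le_div_iff₀ hM0]
      exact hMlt
    have hnu : 0 ≤ nu n n l M := nu_nonneg _ _ _ _
    have h5 : 2 ^ l * nu n n l M ≤ 4 * y * 3 ^ n / M * nu n n l M :=
      mul_le_mul_of_nonneg_right h2l hnu
    have h6 : nu n n l M ≤ nu m n l M / 3 ^ (n - m) + psi l M := by
      have := le_abs_self (nu n n l M - nu m n l M / 3 ^ (n - m))
      simp only [hpsi]
      linarith
    have h7 : 3 ^ m * nu m n l M ≤ cm m M / Real.sqrt n := by
      refine (nu_le_sqrt (by omega) l M).trans ?_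
      have hsq : Real.sqrt n ≤ 2 * Real.sqrt ((n - m : ℕ) : ℝ) := by
        rw [show (2 : ℝ) = Real.sqrt 4 by rw [show (4 : ℝ) = 2 ^ 2 by norm_num]; exact (Real.sqrt_sq (by norm_num)).symm,
          ← Real.sqrt_mul (by norm_num)]
        apply Real.sqrt_le_sqrt
        have : n ≤ 4 * (n - m) := by omega
        exact_mod_cast this
      exact div_le_div_of_nonneg_left (cm_nonneg _ _) (Real.sqrt_pos.2 hn0) hsq
    have h8 : (3 : ℝ) ^ n * (nu m n l M / 3 ^ (n - m)) = 3 ^ m * nu m n l M := by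
      have h9 : (3 : ℝ) ^ n = 3 ^ m * 3 ^ (n - m) := by
        rw [← pow_add]
        congr 1
        omega
      rw [h9]
      field_simp
    calc 2 ^ l * nu n n l M ≤ 4 * y * 3 ^ n / M * nu n n l M := h5
      _ ≤ 4 * y * 3 ^ n / M * (nu m n l M / 3 ^ (n - m) + psi l M) :=
          mul_le_mul_of_nonneg_left h6 (by positivity)
      _ = 4 * y / M * (3 ^ n * (nu m n l M / 3 ^ (n - m))) + 4 * y * 3 ^ n * (psi l M / M) := by ring
      _ = 4 * y / M * (3 ^ m * nu m n l M) + 4 * y * 3 ^ n * (psi l M / M) := by rw [h8]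
      _ ≤ 4 * y / M * (cm m M / Real.sqrt n) + 4 * y * 3 ^ n * (psi l M / M) := by
          gcongr
      _ = 4 * y / Real.sqrt n * (cm m M / M) + 4 * y * 3 ^ n * (psi l M / M) := by ring
  have herr : ∀ l ∈ win n bb, ∑ M ∈ Ow (Real.log y + n * Real.log 3 - l * Real.log 2) (Real.log 4), psi l M / M ≤
      2 / 3 ^ n * ∑ Y ∈ range (3 ^ n), psi l Y := by
    intro l hl
    have hl3 : (l : ℝ) ≤ 3 * n := by
      unfold win at hl
      rw [mem_Icc] at hl
      have : l ≤ 3 * n := by omega
      exact_mod_cast this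
    have hT : n * Real.log 3 ≤ Real.log y + n * Real.log 3 - l * Real.log 2 := by
      have : (l : ℝ) * Real.log 2 ≤ 3 * n * 1 := mul_le_mul hl3 h2'.le h2.le (by positivity)
      linarith
    refine (sum_periodic n (psi l) (fun M => abs_nonneg _) ?_ _ _ hT (by rw [h4]; positivity)).trans ?_
    · intro M
      simp only [hpsi]
      rw [nu_add_pow le_rfl, nu_add_pow (by omega)]
    · apply mul_le_mul_of_nonneg_right _ (sum_nonneg fun _ _ => abs_nonneg _)
      apply div_le_div_of_nonneg_right _ (by positivity)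
      rw [h4]
      linarith
  have hmixn := hmix.2 m n hm (by omega) (win n bb)
  calc ∑ l ∈ win n bb, ∑ M ∈ (Ow (Real.log y + n * Real.log 3 - l * Real.log 2) (Real.log 4)).filter (· ∈ E),
        2 ^ l * nu n n l M
      ≤ ∑ l ∈ win n bb, ∑ M ∈ (Ow (Real.log y + n * Real.log 3 - l * Real.log 2) (Real.log 4)).filter (· ∈ E),
        (4 * y / Real.sqrt n * (cm m M / M) + 4 * y * 3 ^ n * (psi l M / M)) := by
          apply sum_le_sum
          intro l hl
          apply sum_le_sum
          intro M hM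
          exact hpt l hl M (mem_filter.1 hM).1
    _ = 4 * y / Real.sqrt n * (∑ l ∈ win n bb, ∑ M ∈ (Ow (Real.log y + n * Real.log 3 - l * Real.log 2)
        (Real.log 4)).filter (· ∈ E), cm m M / M) + 4 * y * 3 ^ n *
        ∑ l ∈ win n bb, ∑ M ∈ (Ow (Real.log y + n * Real.log 3 - l * Real.log 2)
        (Real.log 4)).filter (· ∈ E), psi l M / M := by
          simp only [sum_add_distrib, mul_sum]
    _ ≤ 4 * y / Real.sqrt n * (∑ l ∈ win n bb, ∑ M ∈ (Ow (Real.log y + n * Real.log 3 - l * Real.log 2)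
        (Real.log 4)).filter (· ∈ E), cm m M / M) + 8 * y * (Cm / m) := by
          refine add_le_add_right ?_ _
          calc 4 * y * 3 ^ n * ∑ l ∈ win n bb, ∑ M ∈ (Ow (Real.log y + n * Real.log 3 - l * Real.log 2)
                (Real.log 4)).filter (· ∈ E), psi l M / M
              ≤ 4 * y * 3 ^ n * ∑ l ∈ win n bb, (2 / 3 ^ n * ∑ Y ∈ range (3 ^ n), psi l Y) := by
                gcongr with l hl
                refine le_trans ?_ (herr l hl)
                apply sum_le_sum_of_subset_of_nonneg (filter_subset _ _)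
                intro M _ _
                positivity
            _ = 8 * y * ∑ l ∈ win n bb, ∑ Y ∈ range (3 ^ n), psi l Y := by
                rw [← mul_sum]
                have : (3 : ℝ) ^ n ≠ 0 := by positivity
                field_simp
                ring
            _ ≤ 8 * y * (Cm / m) := by
                apply mul_le_mul_of_nonneg_left hmixn (by positivity)

end Pool.Agent.E21
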