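import Pool.Agent.W_e21c_h6.W3

/-!
# Top step: the average over n (MP_e21d3a_lc, natural density; file H4)
-/

set_option autoImplicit false

noncomputable section

open Finset

namespace Pool.Agent.E21

private theorem H4_card {S : Finset ℕ} {c D : ℝ} (hD : 0 ≤ D) (h : ∀ n ∈ S, c ≤ n ∧ (n : ℝ) < c + D) :
    (S.card : ℝ) < D + 1 := by
  rcases S.eq_empty_or_nonempty with rfl | hne
  · rw [card_empty, Nat.cast_zero]
    linarith
  · have h1 : S ⊆ Icc (S.min' hne) (S.max' hne) := fun x hx => mem_Icc.2 ⟨S.min'_le x hx, S.le_max' x hx⟩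
    have h2 := card_le_card h1
    rw [Nat.card_Icc] at h2
    have h3 := h _ (S.min'_mem hne)
    have h4 := h _ (S.max'_mem hne)
    have h5 : S.min' hne ≤ S.max' hne := S.min'_le _ (S.max'_mem hne)
    have h6 : S.card + S.min' hne ≤ S.max' hne + 1 := by omega
    have h7 : (S.card : ℝ) + (S.min' hne : ℕ) ≤ (S.max' hne : ℕ) + 1 := by exact_mod_cast h6
    linarith

private theorem H4_La : 1 / 4 ≤ La := by
  have h := Real.one_sub_inv_le_log_of_pos (show (0 : ℝ) < 4 / 3 by norm_num)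
  unfold La
  refine le_trans ?_ h
  norm_num

private theorem H4_log4 : Real.log 4 = 2 * Real.log 2 := by
  rw [show (4 : ℝ) = 2 ^ 2 by norm_num, Real.log_pow]
  norm_num

open Classical in
/-- The `l` of one `n`. -/
private def H4S (t X : ℝ) (n bb : ℕ) : Finset ℕ :=
  (win n bb).filter fun l : ℕ => t + n * Real.log 3 - l * Real.log 2 ≤ X ∧
    X < t + n * Real.log 3 - l * Real.log 2 + Real.log 4

/-- The number of pairs. -/
private theorem H4_pairs (t X : ℝ) (n1 bb : ℕ) (hbb : 1 ≤ bb) :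
    ((∑ n ∈ Ioc n1 (2 * n1), #(H4S t X n bb) : ℕ) : ℝ) ≤ 32 * bb := by
  have hbb' : (1 : ℝ) ≤ bb := by exact_mod_cast hbb
  have hLa := H4_La
  have hlog3 : Real.log 3 = 2 * Real.log 2 - La := by
    rw [La_eq]
    ring
  have h2 : Real.log 2 < 0.7 := Real.log_two_lt_d9.trans (by norm_num)
  have h2' : 0 < Real.log 2 := Real.log_pos (by norm_num)
  have hl : ∀ n : ℕ, #(H4S t X n bb) ≤ 2 := by
    intro n
    have h3 := H4_card (S := H4S t X n bb) (c := (t + n * Real.log 3 - X) / Real.log 2) (D := 2)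
      (by norm_num) (by
        intro l hl
        unfold H4S at hl
        rw [mem_filter, H4_log4] at hl
        obtain ⟨-, h4, h5⟩ := hl
        constructor
        · rw [div_le_iff₀ h2']
          linarith
        · have : (t + n * Real.log 3 - X) / Real.log 2 + 2 = (t + n * Real.log 3 - X + 2 * Real.log 2) / Real.log 2 := by
            field_simp
          rw [this, lt_div_iff₀ h2']
          linarith)
    have h4 : #(H4S t X n bb) < 3 := by
      have : (#(H4S t X n bb) : ℝ) < 3 := by linarith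
      exact_mod_cast this
    omega
  obtain ⟨S, hS⟩ : ∃ S : Finset ℕ, S = {n ∈ Ioc n1 (2 * n1) | 0 < #(H4S t X n bb)} := ⟨_, rfl⟩
  have hsum : ∑ n ∈ Ioc n1 (2 * n1), #(H4S t X n bb) ≤ S.card * 2 := by
    have e1 : ∑ n ∈ Ioc n1 (2 * n1), #(H4S t X n bb) = ∑ n ∈ S, #(H4S t X n bb) := by
      rw [hS]
      symm
      refine sum_filter_of_ne fun n _ hne => ?_
      exact Nat.pos_of_ne_zero hne
    rw [e1, ← smul_eq_mul]
    exact sum_le_card_nsmul _ _ _ fun n _ => hl n
  have hcard := H4_card (S := S) (c := (t - X - bb * Real.log 2) / La) (D := (2 * bb * Real.log 2 + Real.log 4) / La)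
    (by
      rw [H4_log4]
      have := La_pos
      positivity) (by
      intro n hn
      rw [hS, mem_filter, card_pos] at hn
      obtain ⟨-, l, hl⟩ := hn
      unfold H4S at hl
      rw [mem_filter, mem_win, abs_le] at hl
      obtain ⟨⟨h3, h4⟩, h5, h6⟩ := hl
      have k1 : ((l : ℝ) - 2 * n) * Real.log 2 ≤ bb * Real.log 2 := mul_le_mul_of_nonneg_right h4 h2'.le
      have k2 : -(bb : ℝ) * Real.log 2 ≤ ((l : ℝ) - 2 * n) * Real.log 2 := mul_le_mul_of_nonneg_right h3 h2'.le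
      rw [hlog3] at h5 h6
      constructor
      · rw [div_le_iff₀ La_pos]
        nlinarith
      · rw [← add_div, lt_div_iff₀ La_pos]
        nlinarith)
  have hD : (2 * bb * Real.log 2 + Real.log 4) / La ≤ 11.2 * bb := by
    rw [div_le_iff₀ La_pos, H4_log4]
    nlinarith
  have h3 : ((∑ n ∈ Ioc n1 (2 * n1), #(H4S t X n bb) : ℕ) : ℝ) ≤ S.card * 2 := by exact_mod_cast hsum
  linarith

open Classical in
/-- **H4.** For fixed `M` the pairs `(n, l)`, `n1 < n ≤ 2 n1`, `l ∈ win n bb`, with `M` in the window of `(n, l)` satisfy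
`|log M - (t - n La)| ≤ bb log 2 + log 4` (`n log 3 - l log 2 = - n La - (l - 2 n) log 2`), so `n` lies in an interval of length
`2 (bb log 2 + log 4) / La`, and for each `n` there are at most two `l` (an interval of length `log 4 = 2 log 2`): at most
`2 (2 (bb log 2 + log 4) / La + 1) ≤ 32 bb` pairs; moreover `M` is in the big window. -/
theorem avg_top (t : ℝ) (n1 m bb : ℕ) (E : Set ℕ) (hn1 : 1 ≤ n1) (hbb : 1 ≤ bb) (ht : (0 : ℝ) ≤ t) :
    ∑ n ∈ Ioc n1 (2 * n1), ∑ l ∈ win n bb, ∑ M ∈ (Ow (t + n * Real.log 3 - l * Real.log 2) (Real.log 4)).filter (· ∈ E),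
        cm m M / M ≤
      32 * bb * ∑ M ∈ (Ow (t - 2 * n1 * La - bb - 2) (n1 * La + 2 * bb + 4)).filter (· ∈ E), cm m M / M := by
  obtain ⟨Big, hBig⟩ : ∃ Big : Finset ℕ, Big = (Ow (t - 2 * n1 * La - bb - 2) (n1 * La + 2 * bb + 4)).filter (· ∈ E) :=
    ⟨_, rfl⟩
  rw [← hBig]
  have h2 : Real.log 2 < 0.7 := Real.log_two_lt_d9.trans (by norm_num)
  have h2' : 0 < Real.log 2 := Real.log_pos (by norm_num)
  have hlog3 : Real.log 3 = 2 * Real.log 2 - La := by
    rw [La_eq]
    ring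
  have hbb' : (1 : ℝ) ≤ bb := by exact_mod_cast hbb
  have hterm : ∀ n ∈ Ioc n1 (2 * n1), ∀ l ∈ win n bb,
      ∑ M ∈ (Ow (t + n * Real.log 3 - l * Real.log 2) (Real.log 4)).filter (· ∈ E), cm m M / M =
      ∑ M ∈ Big, if t + n * Real.log 3 - l * Real.log 2 ≤ Real.log M ∧
        Real.log M < t + n * Real.log 3 - l * Real.log 2 + Real.log 4 then cm m M / M else 0 := by
    intro n hn l hl
    rw [← sum_filter]
    refine sum_congr ?_ fun _ _ => rfl
    rw [mem_Ioc] at hn
    rw [mem_win, abs_le] at hl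
    have k1 : ((l : ℝ) - 2 * n) * Real.log 2 ≤ bb * Real.log 2 := mul_le_mul_of_nonneg_right hl.2 h2'.le
    have k2 : -(bb : ℝ) * Real.log 2 ≤ ((l : ℝ) - 2 * n) * Real.log 2 := mul_le_mul_of_nonneg_right hl.1 h2'.le
    have n1' : (n1 : ℝ) ≤ n := by exact_mod_cast hn.1.le
    have n2' : (n : ℝ) ≤ 2 * n1 := by exact_mod_cast hn.2
    have k3 : (n1 : ℝ) * La ≤ n * La := mul_le_mul_of_nonneg_right n1' La_pos.le
    have k4 : (n : ℝ) * La ≤ 2 * n1 * La := mul_le_mul_of_nonneg_right n2' La_pos.le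
    have k5 : (bb : ℝ) * Real.log 2 ≤ bb := by nlinarith
    ext M
    rw [hBig]
    simp only [mem_filter, mem_Ow, hlog3, H4_log4]
    constructor
    · rintro ⟨⟨m1, m2, m3⟩, m4⟩
      exact ⟨⟨⟨m1, by nlinarith, by nlinarith⟩, m4⟩, m2, m3⟩
    · rintro ⟨⟨⟨m1, _, _⟩, m4⟩, m2, m3⟩
      exact ⟨⟨m1, m2, m3⟩, m4⟩
  rw [sum_congr rfl fun n hn => sum_congr rfl (hterm n hn)]
  have hswap : ∑ n ∈ Ioc n1 (2 * n1), ∑ l ∈ win n bb, ∑ M ∈ Big,
      (if t + n * Real.log 3 - l * Real.log 2 ≤ Real.log M ∧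
        Real.log M < t + n * Real.log 3 - l * Real.log 2 + Real.log 4 then cm m M / M else 0) =
      ∑ M ∈ Big, ((∑ n ∈ Ioc n1 (2 * n1), #(H4S t (Real.log M) n bb) : ℕ) : ℝ) * (cm m M / M) := by
    rw [sum_congr rfl fun n _ => sum_comm, sum_comm]
    refine sum_congr rfl fun M _ => ?_
    rw [Nat.cast_sum, sum_mul]
    refine sum_congr rfl fun n _ => ?_
    rw [← sum_filter, sum_const, nsmul_eq_mul]
    unfold H4S
    congr
  rw [hswap, mul_sum]
  refine sum_le_sum fun M _ => ?_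
  refine mul_le_mul_of_nonneg_right (H4_pairs t (Real.log M) n1 bb hbb) ?_
  exact div_nonneg (cm_nonneg m M) (Nat.cast_nonneg M)

end Pool.Agent.E21
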