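import Pool.Agent.W_e21c_h6.C5
import Pool.Agent.W_e21c_h6.D1
import Pool.Agent.W_e21c_h6.F2

/-!
# Top step: the bad numbers of the big window (MP_e21d3a_lc, natural density; file H5)
-/

set_option autoImplicit false

noncomputable section

open Finset

namespace Pool.Agent.E21

/-- Ten times the scale is small. -/
private theorem H5_scale {t : ℝ} (ht : (2 : ℝ) ^ 60 ≤ t) :
    10 ≤ jj t ∧ (16 : ℝ) ^ jj t ≤ t / 1000 ∧ (1 : ℝ) ≤ 16 ^ jj t := by
  have ht1 : (1 : ℝ) ≤ t := le_trans (by norm_num) ht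
  obtain ⟨h1, h2⟩ := jj_spec ht1
  have h3 : 10 ≤ jj t := by
    by_contra hcon
    have h4 : 5 * jj t + 5 ≤ 60 := by omega
    have h5 : (2 : ℝ) ^ (5 * jj t + 5) ≤ 2 ^ 60 := pow_le_pow_right₀ (by norm_num) h4
    linarith
  refine ⟨h3, ?_, one_le_pow₀ (by norm_num)⟩
  have h4 : (2 : ℝ) ^ (5 * jj t) = 16 ^ jj t * 2 ^ jj t := by
    rw [pow_mul, ← mul_pow]
    norm_num
  have h5 : (2 : ℝ) ^ 10 ≤ 2 ^ jj t := pow_le_pow_right₀ (by norm_num) h3
  have h6 : (0 : ℝ) < 16 ^ jj t := by positivity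
  rw [h4] at h1
  have h7 : (16 : ℝ) ^ jj t * 2 ^ 10 ≤ 16 ^ jj t * 2 ^ jj t := mul_le_mul_of_nonneg_left h5 h6.le
  have h8 : (16 : ℝ) ^ jj t * 2 ^ 10 ≤ t := h7.trans h1
  have h9 : (2 : ℝ) ^ 10 = 1024 := by norm_num
  rw [h9] at h8
  linarith

/-- One window of a sixteenth of the length. -/
private theorem H5_one {N0 : ℕ} {K t T'' e0 : ℝ} (ht : (2 : ℝ) ^ 60 ≤ t) (h1 : T'' ≤ t)
    (h2 : 0.95 * t ≤ T'') (he0 : 0 ≤ e0) (hbe : be N0 K T'' ≤ e0) :
    Ls T'' (16 ^ (jj t - 1)) (Bd N0 K 0) ≤ 16 ^ jj t / 2 * e0 := by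
  have ht0 : (0 : ℝ) < t := lt_of_lt_of_le (by positivity) ht
  have hT1 : (1 : ℝ) ≤ T'' := by
    have : (2 : ℝ) ≤ t := le_trans (by norm_num) ht
    linarith
  have hj := jj_step hT1 h1 (by linarith)
  have hw : (16 : ℝ) ^ (jj t - 1) ≤ ww T'' ∧ ww T'' ≤ 16 ^ jj t := by
    unfold ww
    constructor
    · exact pow_le_pow_right₀ (by norm_num) (by omega)
    · exact pow_le_pow_right₀ (by norm_num) (by omega)
  have hwpos : 0 < ww T'' := by unfold ww; positivity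
  have h3 : Ls T'' (ww T'') (Bd N0 K 0) ≤ ww T'' / 2 * e0 := by
    unfold be at hbe
    have h4 : 2 / ww T'' * Ls T'' (ww T'') (Bd N0 K 0) * (ww T'' / 2) ≤ e0 * (ww T'' / 2) :=
      mul_le_mul_of_nonneg_right hbe (by positivity)
    have h5 : 2 / ww T'' * Ls T'' (ww T'') (Bd N0 K 0) * (ww T'' / 2) =
        Ls T'' (ww T'') (Bd N0 K 0) := by
      field_simp
    rw [h5] at h4
    linarith
  calc Ls T'' (16 ^ (jj t - 1)) (Bd N0 K 0) ≤ Ls T'' (ww T'') (Bd N0 K 0) := Ls_mono_W _ hw.1 _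
    _ ≤ ww T'' / 2 * e0 := h3
    _ ≤ 16 ^ jj t / 2 * e0 := by
        apply mul_le_mul_of_nonneg_right _ he0
        linarith [hw.2]

private theorem H5_poly {q C : ℝ} (hq1 : 1 ≤ q) (hC : 0 < C) :
    q * q * q * q * (q * q * q * q / (q * q * q) ^ 2) + 1 + (C * (q * q * q + 1) +
      C * (q * q * q * q + q * q * q + 1) *
        (1 / (q * q * q * q) + q * q * q * q / (q * q * q) ^ 2)) ≤
      q * q * q * q * ((2 + 8 * C) / q) := by
  have hq : 0 < q := by linarith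
  have i1 : q * q * q * q * (q * q * q * q / (q * q * q) ^ 2) = q * q := by
    field_simp
  have i2 : q * q * q * q / (q * q * q) ^ 2 = 1 / (q * q) := by
    field_simp
  have i3 : q * q * q * q * ((2 + 8 * C) / q) = (2 + 8 * C) * (q * q * q) := by
    field_simp
  rw [i1, i2, i3]
  have hqq : 1 ≤ q * q := by nlinarith
  have hqqq : q * q ≤ q * q * q := by nlinarith
  have hqqq1 : 1 ≤ q * q * q := by linarith
  have hq4 : q * q * q ≤ q * q * q * q := le_mul_of_one_le_right (by linarith) hq1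
  have i4 : 1 / (q * q * q * q) + 1 / (q * q) ≤ 2 / q := by
    have i5 : 1 / (q * q * q * q) ≤ 1 / q := by
      apply one_div_le_one_div_of_le hq
      nlinarith
    have i6 : 1 / (q * q) ≤ 1 / q := by
      apply one_div_le_one_div_of_le hq
      nlinarith
    have : 2 / q = 1 / q + 1 / q := by ring
    linarith
  have i7 : C * (q * q * q * q + q * q * q + 1) * (1 / (q * q * q * q) + 1 / (q * q)) ≤
      C * (3 * (q * q * q * q)) * (2 / q) := by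
    apply mul_le_mul _ i4 (by positivity) (by positivity)
    apply mul_le_mul_of_nonneg_left _ hC.le
    linarith
  have i8 : C * (3 * (q * q * q * q)) * (2 / q) = 6 * (C * (q * q * q)) := by
    field_simp
    ring
  have i9 : C * (q * q * q + 1) ≤ C * (2 * (q * q * q)) :=
    mul_le_mul_of_nonneg_left (by linarith) hC.le
  have i10 : (2 + 8 * C) * (q * q * q) = 2 * (q * q * q) + 8 * (C * (q * q * q)) := by ring
  have i11 : C * (2 * (q * q * q)) = 2 * (C * (q * q * q)) := by ring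
  rw [i10]
  rw [i11] at i9
  rw [i8] at i7
  linarith

private theorem H5_err (j : ℕ) {C : ℝ} (hC : 0 < C) :
    (16 : ℝ) ^ j * (16 ^ j / (8 ^ j) ^ 2) + 1 + (C * (8 ^ j + 1) +
      C * (16 ^ j + 8 ^ j + 1) * (1 / 16 ^ j + 16 ^ j / (8 ^ j) ^ 2)) ≤
      16 ^ j * ((2 + 8 * C) / 2 ^ j) := by
  have hq1 : (1 : ℝ) ≤ 2 ^ j := one_le_pow₀ (by norm_num)
  have e8 : (8 : ℝ) ^ j = 2 ^ j * 2 ^ j * 2 ^ j := by
    rw [← mul_pow, ← mul_pow]
    norm_num
  have e16 : (16 : ℝ) ^ j = 2 ^ j * 2 ^ j * 2 ^ j * 2 ^ j := by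
    rw [← mul_pow, ← mul_pow, ← mul_pow]
    norm_num
  rw [e8, e16]
  exact H5_poly hq1 hC

open Classical in
/-- **H5.** `t` large, `j = jj t`, `m = W = 16 ^ j`, `lam = 8 ^ j`, `c = del m La + (K + 1) (lam + 1)`. For `T'` with
`.95 t ≤ T'`, `T' + m La + W ≤ t`: `transfer` with `n = m`, `T = T' + m La`, then `Ls_backward`, give
`∑_{M ∈ Bd c ∩ Ow T' W} cm m M / M ≤ Ls T W (Bd 0) + C4 W / 2 ^ j`; `Ls T W (Bd 0) ≤ 8 W e0`: `Ls_split` into 16 windows of length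
`W / 16`, each of them is `≤ Ls T'' (ww T'') (Bd 0) ≤ ww T'' / 2 * e0` with `T'' ≤ t`, so `ww T'' ∈ {W, W / 16}` (`be_le`, `Ls_mono_W`, `jj_step`). -/
theorem window_bad {Cm : ℝ} (hmix : Mix Cm) : ∃ C3 C4 : ℝ, 0 < C3 ∧ 0 < C4 ∧ ∀ del : ℝ, 0 < del → ∃ Ts : ℝ, 1 ≤ Ts ∧
    ∀ N0 : ℕ, 1 ≤ N0 → Ts ≤ Real.log N0 → ∃ t0 : ℝ, ∀ t T' : ℝ, t0 ≤ t → 0.95 * t ≤ T' → T' + 16 ^ jj t * La + 16 ^ jj t ≤ t →
    Bm (16 ^ jj t) T' (16 ^ jj t)
        (Bd N0 (KK del) (del * (16 ^ jj t : ℕ) * La + (KK del + 1) * ((8 ^ jj t : ℕ) + 1))) ≤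
      16 ^ jj t * (8 * C3 * (Real.log N0) ^ (-(1 / 5) : ℝ) + C4 / 2 ^ jj t) := by
  obtain ⟨C3, hC3, hbe⟩ := be_le hmix
  obtain ⟨C, T0, hC, hT0, htr⟩ := transfer hmix
  obtain ⟨T1, hT1, hback⟩ := Ls_backward
  refine ⟨C3, 2 + 8 * C, hC3, by linarith, fun del hdel => ?_⟩
  obtain ⟨Ts, hTs, hbe2⟩ := hbe del hdel
  refine ⟨Ts, hTs, fun N0 hN0 hTsN => ?_⟩
  set L0 := Real.log N0 with hL0
  have hL0pos : 0 < L0 := by linarith
  refine ⟨2 ^ 60 + 2 * T0 + 2 * T1 + 10 * L0, fun t T' ht0 hT' hT't => ?_⟩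
  have ht60 : (2 : ℝ) ^ 60 ≤ t := by linarith
  have htpos : (0 : ℝ) < t := lt_of_lt_of_le (by positivity) ht60
  obtain ⟨hj10, hW1000, hW1⟩ := H5_scale ht60
  set j := jj t with hj
  have hLa := La_pos
  have hLa1 : La ≤ 1 := by
    unfold La
    have := Real.log_le_sub_one_of_pos (show (0 : ℝ) < 4 / 3 by norm_num)
    linarith
  set c := del * (16 ^ j : ℕ) * La + (KK del + 1) * ((8 ^ j : ℕ) + 1) with hc
  set e0 := C3 * L0 ^ (-(1 / 5) : ℝ) with he0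
  have he0pos : 0 ≤ e0 := by positivity
  have hcast16 : ((16 ^ j : ℕ) : ℝ) = 16 ^ j := by push_cast; rfl
  have hcast8 : ((8 ^ j : ℕ) : ℝ) = 8 ^ j := by push_cast; rfl
  set T := T' + 16 ^ j * La with hT
  have hTT' : T' ≤ T := by
    have : (0 : ℝ) ≤ 16 ^ j * La := by positivity
    linarith
  have hTW : T + 16 ^ j ≤ t := by linarith
  have hT95 : 0.95 * t ≤ T := by linarith
  have hm1 : 1 ≤ 16 ^ j := Nat.one_le_pow _ _ (by norm_num)
  have hl1 : 1 ≤ 8 ^ j := Nat.one_le_pow _ _ (by norm_num)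
  have hlm : 8 ^ j ≤ 16 ^ j := Nat.pow_le_pow_left (by norm_num) j
  have hm4 : ((16 ^ j : ℕ) : ℝ) ≤ T / 4 := by
    rw [hcast16]
    linarith
  have hWT : (16 : ℝ) ^ j ≤ T := by linarith
  -- transfer
  have h1 := htr T (16 ^ j) (16 ^ j) (16 ^ j) (8 ^ j) (Bd N0 (KK del) c) (by linarith) hm1 le_rfl
    hm4 hl1 hlm (by positivity) hWT
  have hTm : T - ((16 ^ j : ℕ) : ℝ) * La = T' := by
    rw [hcast16]
    simp only [hT]
    ring
  rw [hTm, hcast16, hcast8] at h1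
  have h2 := (abs_le.1 h1).1
  -- backward
  have hlog2 : Real.log 2 ≤ 1 := by
    have := Real.log_two_lt_d9
    linarith
  have h3 := hback T (16 ^ j) (16 ^ j) (8 ^ j) N0 del c (by linarith) hm4 hl1 hlm (by positivity)
    hdel hN0 (by
      rw [hcast16]
      have h5 : 3 * (16 : ℝ) ^ j * Real.log 2 ≤ 3 * 16 ^ j * 1 :=
        mul_le_mul_of_nonneg_left hlog2 (by positivity)
      linarith) le_rfl
  rw [hcast16, hcast8] at h3
  -- the window
  have h4 : Ls T (16 ^ j) (Bd N0 (KK del) 0) ≤ 8 * (16 ^ j * e0) := by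
    have hj' : (16 : ℝ) ^ j = 16 * 16 ^ (j - 1) := by
      rw [← pow_succ']
      congr 1
      omega
    have h5 : Ls T (16 ^ j) (Bd N0 (KK del) 0) =
        ∑ i ∈ range 16, Ls (T + i * 16 ^ (j - 1)) (16 ^ (j - 1)) (Bd N0 (KK del) 0) := by
      rw [← Ls_split T (16 ^ (j - 1)) (by positivity), ← hj']
    rw [h5]
    have h6 : ∀ i ∈ range 16, Ls (T + i * 16 ^ (j - 1)) (16 ^ (j - 1)) (Bd N0 (KK del) 0) ≤
        16 ^ j / 2 * e0 := by
      intro i hi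
      have hi' : (i : ℝ) ≤ 16 := by
        have := Finset.mem_range.1 hi
        exact_mod_cast this.le
      have hi0 : (0 : ℝ) ≤ i := by positivity
      have hp : (0 : ℝ) < 16 ^ (j - 1) := by positivity
      have h7 : (i : ℝ) * 16 ^ (j - 1) ≤ 16 ^ j := by
        rw [hj']
        exact mul_le_mul_of_nonneg_right hi' hp.le
      have h8 : 0 ≤ (i : ℝ) * 16 ^ (j - 1) := by positivity
      apply H5_one ht60 (by linarith) (by linarith) he0pos
      exact hbe2 N0 _ hN0 hTsN (by linarith)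
    calc ∑ i ∈ range 16, Ls (T + i * 16 ^ (j - 1)) (16 ^ (j - 1)) (Bd N0 (KK del) 0)
        ≤ ∑ i ∈ range 16, (16 : ℝ) ^ j / 2 * e0 := Finset.sum_le_sum h6
      _ = 8 * (16 ^ j * e0) := by
          rw [Finset.sum_const, Finset.card_range, nsmul_eq_mul]
          push_cast
          ring
  -- errors
  have key := H5_err j hC
  have hfin : (16 : ℝ) ^ j * (8 * C3 * L0 ^ (-(1 / 5) : ℝ) + (2 + 8 * C) / 2 ^ j) =
      8 * (16 ^ j * e0) + 16 ^ j * ((2 + 8 * C) / 2 ^ j) := by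
    simp only [he0]
    ring
  rw [hfin]
  linarith

end Pool.Agent.E21
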