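import Pool.Agent.W_e21c_h6.H5

/-!
# Top step: covering the big window (MP_e21d3a_lc, natural density; file H6)
-/

set_option autoImplicit false

noncomputable section

open Finset

namespace Pool.Agent.E21

theorem H6_term_nonneg (m M : ℕ) : 0 ≤ cm m M / M :=
  div_nonneg (cm_nonneg m M) (Nat.cast_nonneg M)

open Classical in
theorem H6_mono (m : ℕ) (T : ℝ) {W W' : ℝ} (h : W ≤ W') (E : Set ℕ) : Bm m T W E ≤ Bm m T W' E := by
  unfold Bm
  refine sum_le_sum_of_subset_of_nonneg ?_ (fun M _ _ => H6_term_nonneg m M)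
  intro M hM
  rw [mem_filter, mem_Ow] at hM ⊢
  exact ⟨⟨hM.1.1, hM.1.2.1, by linarith [hM.1.2.2]⟩, hM.2⟩

open Classical in
theorem H6_split (m : ℕ) (T W W' : ℝ) (E : Set ℕ) :
    Bm m T (W + W') E ≤ Bm m T W E + Bm m (T + W) W' E := by
  unfold Bm
  have hsub : (Ow T (W + W')).filter (· ∈ E) ⊆
      (Ow T W).filter (· ∈ E) ∪ (Ow (T + W) W').filter (· ∈ E) := by
    intro M hM
    rw [mem_union, mem_filter, mem_filter, mem_Ow, mem_Ow]
    rw [mem_filter, mem_Ow] at hM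
    obtain ⟨⟨h1, h2, h3⟩, h4⟩ := hM
    rcases lt_or_ge (Real.log M) (T + W) with h | h
    · exact Or.inl ⟨⟨h1, h2, h⟩, h4⟩
    · exact Or.inr ⟨⟨h1, h, by linarith⟩, h4⟩
  have h1 := sum_le_sum_of_subset_of_nonneg (f := fun M : ℕ => cm m M / M) hsub
    (fun M _ _ => H6_term_nonneg m M)
  have h2 := sum_union_inter (f := fun M : ℕ => cm m M / M)
    (s₁ := (Ow T W).filter (· ∈ E)) (s₂ := (Ow (T + W) W').filter (· ∈ E))
  have h3 : 0 ≤ ∑ M ∈ (Ow T W).filter (· ∈ E) ∩ (Ow (T + W) W').filter (· ∈ E), cm m M / M :=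
    sum_nonneg fun M _ => H6_term_nonneg m M
  linarith

open Classical in
theorem H6_cover (m : ℕ) (a W X : ℝ) (E : Set ℕ) (k : ℕ)
    (hX : ∀ i < k, Bm m (a + i * W) W E ≤ X) : Bm m a (k * W) E ≤ k * X := by
  induction k with
  | zero =>
    have : Bm m a (((0 : ℕ) : ℝ) * W) E = 0 := by
      unfold Bm
      refine sum_eq_zero fun M hM => ?_
      rw [mem_filter, mem_Ow] at hM
      have h1 := hM.1.2.1
      have h2 := hM.1.2.2
      exfalso
      push_cast at h2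
      linarith
    rw [this]
    simp
  | succ k ih =>
    have h1 := ih fun i hi => hX i (by omega)
    have h2 := hX k (by omega)
    have h3 := H6_split m a (k * W) W E
    have e : (((k + 1 : ℕ) : ℝ)) * W = k * W + W := by push_cast; ring
    rw [e]
    have e2 : (((k + 1 : ℕ) : ℝ)) * X = k * X + X := by push_cast; ring
    rw [e2]
    linarith

theorem H6_La_le : La ≤ 1 := by
  unfold La
  have := Real.log_le_sub_one_of_pos (show (0 : ℝ) < 4 / 3 by norm_num)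
  linarith

open Classical in
/-- `Ow a Wt` is covered by the windows `Ow (a + i W) W`, `i < ⌈Wt / W⌉`, `W = 16 ^ jj t`; `window_bad` for each
(`0.95 t ≤ a`, `a + i W + W La + W ≤ a + Wt + 2 W ≤ t`). -/
theorem big_window {Cm : ℝ} (hmix : Mix Cm) : ∃ C3 C4 : ℝ, 0 < C3 ∧ 0 < C4 ∧ ∀ del : ℝ, 0 < del → ∃ Ts : ℝ, 1 ≤ Ts ∧
    ∀ N0 : ℕ, 1 ≤ N0 → Ts ≤ Real.log N0 → ∃ t0 : ℝ, ∀ t a Wt : ℝ, t0 ≤ t → 0.95 * t ≤ a → 0 ≤ Wt →
    a + Wt + 2 * 16 ^ jj t ≤ t →
    Bm (16 ^ jj t) a Wt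
        (Bd N0 (KK del) (del * (16 ^ jj t : ℕ) * La + (KK del + 1) * ((8 ^ jj t : ℕ) + 1))) ≤
      (Wt + 16 ^ jj t) * (8 * C3 * (Real.log N0) ^ (-(1 / 5) : ℝ) + C4 / 2 ^ jj t) := by
  obtain ⟨C3, C4, hC3, hC4, h⟩ := window_bad hmix
  refine ⟨C3, C4, hC3, hC4, fun del hdel => ?_⟩
  obtain ⟨Ts, hTs, h⟩ := h del hdel
  refine ⟨Ts, hTs, fun N0 hN0 hTN => ?_⟩
  obtain ⟨t0, h⟩ := h N0 hN0 hTN
  refine ⟨t0, fun t a Wt ht ha hWt hle => ?_⟩
  set E := Bd N0 (KK del) (del * (16 ^ jj t : ℕ) * La + (KK del + 1) * ((8 ^ jj t : ℕ) + 1)) with hE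
  set W : ℝ := 16 ^ jj t with hW
  set X : ℝ := 8 * C3 * (Real.log N0) ^ (-(1 / 5) : ℝ) + C4 / 2 ^ jj t with hX
  have hW0 : 0 < W := by positivity
  have hlog : 0 ≤ Real.log N0 := by linarith
  have hX0 : 0 ≤ X := by
    have := Real.rpow_nonneg hlog (-(1 / 5) : ℝ)
    positivity
  set k : ℕ := ⌈Wt / W⌉₊ with hk
  have hk1 : Wt ≤ k * W := by
    have := Nat.le_ceil (Wt / W)
    rw [div_le_iff₀ hW0] at this
    exact this
  have hk2 : (k : ℝ) * W ≤ Wt + W := by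
    have := (Nat.ceil_lt_add_one (div_nonneg hWt hW0.le)).le
    rw [← hk] at this
    calc (k : ℝ) * W ≤ (Wt / W + 1) * W := by gcongr
      _ = Wt + W := by field_simp
  have hcov := H6_cover (16 ^ jj t) a W (W * X) E k (fun i hi => by
    have hi1 : (i : ℝ) * W ≤ Wt := by
      have h1 : (i : ℝ) < Wt / W := by
        rw [hk] at hi
        exact Nat.lt_ceil.1 hi
      rw [lt_div_iff₀ hW0] at h1
      exact h1.le
    refine h t (a + i * W) ht ?_ ?_
    · have : (0 : ℝ) ≤ i * W := by positivity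
      linarith
    · have h1 : W * La ≤ W * 1 := mul_le_mul_of_nonneg_left H6_La_le hW0.le
      linarith)
  calc Bm (16 ^ jj t) a Wt E ≤ Bm (16 ^ jj t) a (k * W) E := H6_mono _ _ hk1 _
    _ ≤ k * (W * X) := hcov
    _ = (k * W) * X := by ring
    _ ≤ (Wt + W) * X := by gcongr

end Pool.Agent.E21
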