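import Pool.Agent.W_e21c_h6.H1
import Pool.Agent.W_e21c_h6.H2
import Pool.Agent.W_e21c_h6.H3
import Pool.Agent.W_e21c_h6.H4
import Pool.Agent.W_e21c_h6.H6
import Pool.Agent.W_e21c_h6.F0

/-!
# Top step: natural density of the bad odd numbers (MP_e21d3a_lc, natural density; file H7)
-/

set_option autoImplicit false

noncomputable section

open Finset

namespace Pool.Agent.E21

theorem H7_La_lt : La < 0.3 := by
  have h : La = Real.log (4 / 3) := rfl
  rw [h, Real.log_lt_iff_lt_exp (by norm_num)]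
  have := Real.quadratic_le_exp_of_nonneg (x := (0.3 : ℝ)) (by norm_num)
  norm_num at this ⊢
  linarith

theorem H7_La_gt : 0.28 < La := by
  have h : La = Real.log (4 / 3) := rfl
  rw [h, Real.lt_log_iff_exp_lt (by norm_num)]
  have h1 : Real.exp 0.28 ^ 25 = Real.exp 7 := by
    rw [← Real.exp_nat_mul]; norm_num
  have h2 : Real.exp 7 = Real.exp 1 ^ 7 := by
    rw [← Real.exp_nat_mul]; norm_num
  have h3 : Real.exp 7 < (4 / 3 : ℝ) ^ 25 := by
    rw [h2]
    calc Real.exp 1 ^ 7 < 2.7182818286 ^ 7 :=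
          pow_lt_pow_left₀ Real.exp_one_lt_d9 (Real.exp_pos _).le (by norm_num)
      _ < (4 / 3 : ℝ) ^ 25 := by norm_num
  rw [← h1] at h3
  exact lt_of_pow_lt_pow_left₀ 25 (by norm_num) h3

open Classical in
/-- **H.** `t = log y`, `j = jj t`, `m = 16 ^ j`, `n1 = ⌊t / 100⌋`, `B ≥ 1`, `bb = ⌈B sqrt n1⌉`, `c` as in `big_window`. For `n ∈ (n1, 2 n1]`
(then `n ≤ t / 40`, `2 m ≤ n`, `bb ≤ n`, `c + (K + 1) (bb + 1) ≤ del n La` for `t` large):
`#(Od y ∩ Bd 0) ≤ [bad_count] y n / bb ^ 2 + sqrt y + [count_top, mix_top] 4 y / sqrt n1 * S_n + 8 y Cm / m`, where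
`∑_n S_n ≤ 32 bb Bm m a Wt (Bd c)` (`avg_top`), `a = t - 2 n1 La - bb - 2`, `Wt = n1 La + 2 bb + 4`, and `Wt + 16 ^ j ≤ n1`. Average over the
`n1` values of `n`: `#/y ≤ 2 / B ^ 2 + 1 / sqrt y + 8 Cm / m + (128 bb / sqrt n1) (8 C3 (log N0) ^ (-1/5) + C4 / 2 ^ j)`, `bb ≤ 2 B sqrt n1`.
Choose `B` with `2 / B ^ 2 ≤ eps / 4`, `N0` with `2048 B C3 (log N0) ^ (-1/5) ≤ eps / 4` and `log N0 ≥ Ts`, then `y0`. -/
theorem top_step {Cm : ℝ} (hmix : Mix Cm) (del eps : ℝ) (hdel : 0 < del) (heps : 0 < eps) :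
    ∃ (N0 : ℕ) (y0 : ℝ), 1 ≤ N0 ∧ 1 ≤ y0 ∧ ∀ y : ℝ, y0 ≤ y →
      (((Od y).filter fun N => N ∈ Bd N0 (KK del) 0).card : ℝ) ≤ eps * y := by
  have hCm : 1 ≤ Cm := hmix.1
  obtain ⟨C3, C4, hC3, hC4, hbig⟩ := big_window hmix
  obtain ⟨Ts, hTs, hbig⟩ := hbig del hdel
  obtain ⟨t1, ht1, hbad⟩ := bad_count
  obtain ⟨t2, ht2, hcount⟩ := count_top
  have hLa := La_pos
  have hLa3 := H7_La_lt
  have hLa28 := H7_La_gt
  set K1 : ℝ := KK del + 1 with hK1
  have hK1p : 0 < K1 := by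
    have : 0 < 3 / La := by positivity
    rw [hK1, KK]; linarith
  set q : ℝ := del * La with hq
  have hqp : 0 < q := mul_pos hdel hLa
  set B : ℝ := 1 + 8 / eps with hB
  have hB8 : 0 < 8 / eps := by positivity
  have hB1 : 1 ≤ B := by linarith
  have hB0 : 0 < B := by linarith
  have hBsq : 2 / B ^ 2 ≤ eps / 4 := by
    have h1 : 8 / eps ≤ B ^ 2 := by rw [hB]; nlinarith
    rw [div_le_iff₀ (by positivity)]
    have h2 : 8 ≤ eps * B ^ 2 := by
      have := mul_le_mul_of_nonneg_left h1 heps.le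
      rwa [mul_div_cancel₀ _ heps.ne'] at this
    linarith
  -- choice of N0
  have hlim : Filter.Tendsto (fun L : ℝ => 2048 * B * C3 * L ^ (-(1 / 5) : ℝ)) Filter.atTop (nhds 0) := by
    have := (tendsto_rpow_neg_atTop (y := (1 / 5 : ℝ)) (by norm_num)).const_mul (2048 * B * C3)
    simpa using this
  obtain ⟨L0, hL0⟩ := Filter.eventually_atTop.1 (hlim.eventually (gt_mem_nhds (by positivity : (0 : ℝ) < eps / 4)))
  set N0 : ℕ := ⌈Real.exp (max L0 Ts)⌉₊ with hN0
  have hN0le : Real.exp (max L0 Ts) ≤ N0 := Nat.le_ceil _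
  have hN0pos : (0 : ℝ) < N0 := lt_of_lt_of_le (Real.exp_pos _) hN0le
  have hN01 : 1 ≤ N0 := by exact_mod_cast hN0pos
  have hlogN0 : max L0 Ts ≤ Real.log N0 := by
    rw [Real.le_log_iff_exp_le hN0pos]; exact hN0le
  have hN0eps := hL0 (Real.log N0) ((le_max_left _ _).trans hlogN0)
  obtain ⟨t3, hbig⟩ := hbig N0 hN01 ((le_max_right _ _).trans hlogN0)
  -- smallness parameters
  set e0 : ℝ := min (1 / 10000) (q / (100 * (2 * q + 5 * K1))) with he0
  have he0p : 0 < e0 := lt_min (by norm_num) (by positivity)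
  have he01 : e0 ≤ 1 / 10000 := min_le_left _ _
  have he02 : e0 * (2 * q + 5 * K1) ≤ q / 100 := by
    have h1 : e0 ≤ q / (100 * (2 * q + 5 * K1)) := min_le_right _ _
    rw [le_div_iff₀ (by positivity)] at h1
    linarith
  set Rr : ℝ := max (1 / e0) ((8 * Cm + 256 * B * C4) * (8 / eps)) with hRr
  have hRr1 : 1 / e0 ≤ Rr := le_max_left _ _
  have hRr2 : (8 * Cm + 256 * B * C4) * (8 / eps) ≤ Rr := le_max_right _ _
  have hRrp : 0 < Rr := lt_of_lt_of_le (by positivity) hRr1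
  set ts : ℝ := t1 + t2 + |t3| + 32 * Rr ^ 5 + (B / e0) ^ 2 + 1 / e0 + (8 / eps) ^ 2 + 1 with hts
  have hts1 : 1 ≤ ts := by
    have : 0 ≤ |t3| := abs_nonneg _
    have : 0 < 32 * Rr ^ 5 := by positivity
    have : 0 < (B / e0) ^ 2 := by positivity
    have : 0 < 1 / e0 := by positivity
    have : 0 < (8 / eps) ^ 2 := by positivity
    linarith
  refine ⟨N0, Real.exp ts, hN01, Real.one_le_exp (by linarith), fun y hy => ?_⟩
  have hy0 : 0 < y := lt_of_lt_of_le (Real.exp_pos _) hy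
  have hy1 : 1 ≤ y := (Real.one_le_exp (by linarith)).trans hy
  set t : ℝ := Real.log y with ht
  have htts : ts ≤ t := by rw [ht, Real.le_log_iff_exp_le hy0]; exact hy
  have p3 : 0 ≤ |t3| := abs_nonneg _
  have p3' : t3 ≤ |t3| := le_abs_self _
  have p4 : 0 < 32 * Rr ^ 5 := by positivity
  have p5 : 0 < (B / e0) ^ 2 := by positivity
  have p6 : 0 < 1 / e0 := by positivity
  have p7 : 0 < (8 / eps) ^ 2 := by positivity
  have htt1 : t1 ≤ t := by linarith
  have htt2 : t2 ≤ t := by linarith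
  have htt3 : t3 ≤ t := by linarith
  have ht1' : 1 ≤ t := by linarith
  have ht0 : 0 < t := by linarith
  have hte0 : 1 ≤ e0 * t := by
    have h1 : 1 / e0 ≤ t := by linarith
    rw [div_le_iff₀ he0p] at h1
    linarith
  -- sqrt t
  have hsqt : B * Real.sqrt t ≤ e0 * t := by
    have h1 : B / e0 ≤ Real.sqrt t := by
      apply Real.le_sqrt_of_sq_le; linarith
    rw [div_le_iff₀ he0p] at h1
    have h2 : Real.sqrt t * Real.sqrt t = t := Real.mul_self_sqrt ht0.le
    have h3 := mul_le_mul_of_nonneg_right h1 (Real.sqrt_nonneg t)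
    calc B * Real.sqrt t ≤ Real.sqrt t * e0 * Real.sqrt t := h3
      _ = e0 * (Real.sqrt t * Real.sqrt t) := by ring
      _ = e0 * t := by rw [h2]
  -- the scale
  obtain ⟨hj1, hj2⟩ := jj_spec ht1'
  set j : ℕ := jj t with hj
  have hjR : Rr ≤ 2 ^ j := by
    by_contra hlt
    push Not at hlt
    have h1 : ((2 : ℝ) ^ j) ^ 5 < Rr ^ 5 := pow_lt_pow_left₀ hlt (by positivity) (by norm_num)
    have h2 : (2 : ℝ) ^ (5 * j + 5) = 32 * ((2 : ℝ) ^ j) ^ 5 := by
      rw [pow_add, ← pow_mul, mul_comm j 5]; norm_num; ring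
    rw [h2] at hj2
    linarith
  have h16 : (16 : ℝ) ^ j ≤ e0 * t := by
    have h1 : (16 : ℝ) ^ j * 2 ^ j = 2 ^ (5 * j) := by
      rw [← mul_pow, pow_mul]; norm_num
    have h2 : (16 : ℝ) ^ j * (1 / e0) ≤ t := by
      have h3 : (16 : ℝ) ^ j * (1 / e0) ≤ 16 ^ j * 2 ^ j :=
        mul_le_mul_of_nonneg_left (hRr1.trans hjR) (by positivity)
      linarith
    have h3 : (16 : ℝ) ^ j / e0 ≤ t := by rw [div_eq_mul_one_div]; exact h2
    rw [div_le_iff₀ he0p] at h3
    linarith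
  have h8 : (8 : ℝ) ^ j ≤ e0 * t := by
    have : (8 : ℝ) ^ j ≤ 16 ^ j := pow_le_pow_left₀ (by norm_num) (by norm_num) j
    linarith
  have h16p : (0 : ℝ) < 16 ^ j := by positivity
  -- n1 and bb
  set n1 : ℕ := ⌊t / 100⌋₊ with hn1
  have hn1le : (n1 : ℝ) ≤ t / 100 := Nat.floor_le (by positivity)
  have hn1ge : t / 100 - 1 ≤ n1 := by
    have := Nat.lt_floor_add_one (t / 100)
    rw [← hn1] at this; linarith
  have het : 10000 * (e0 * t) ≤ t := by
    have h1 := mul_le_mul_of_nonneg_right he01 ht0.le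
    rw [div_mul_eq_mul_div, one_mul, le_div_iff₀ (by norm_num)] at h1
    rw [mul_comm]; exact h1
  clear_value e0 Rr ts
  have hn1one : (1 : ℝ) ≤ n1 := by linarith
  have hn1pos : 1 ≤ n1 := by exact_mod_cast hn1one
  have hn1p : (0 : ℝ) < n1 := by linarith
  have hsq1 : 1 ≤ Real.sqrt n1 := Real.one_le_sqrt.2 hn1one
  set bb : ℕ := ⌈B * Real.sqrt n1⌉₊ with hbb
  have hbbge : B * Real.sqrt n1 ≤ bb := Nat.le_ceil _
  have hbble : (bb : ℝ) ≤ B * Real.sqrt n1 + 1 := (Nat.ceil_lt_add_one (by positivity)).le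
  have hBs1 : 1 ≤ B * Real.sqrt n1 := one_le_mul_of_one_le_of_one_le hB1 hsq1
  have hbb1 : (1 : ℝ) ≤ bb := hBs1.trans hbbge
  have hbb1' : 1 ≤ bb := by exact_mod_cast hbb1
  have hsqn : Real.sqrt n1 ≤ Real.sqrt t := Real.sqrt_le_sqrt (by linarith)
  have hbbt : (bb : ℝ) ≤ e0 * t + 1 := by
    have := mul_le_mul_of_nonneg_left hsqn hB0.le
    linarith
  have hbb2 : (bb : ℝ) ≤ 2 * B * Real.sqrt n1 := by
    linarith
  have hbbn1 : (bb : ℝ) ≤ n1 := by linarith
  have hbbn1' : bb ≤ n1 := by exact_mod_cast hbbn1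
  set c : ℝ := del * (16 ^ j : ℕ) * La + (KK del + 1) * ((8 ^ j : ℕ) + 1) with hc
  have hc0 : 0 ≤ c := by rw [hc]; positivity
  set m : ℕ := 16 ^ j with hm
  have hmcast : (m : ℝ) = 16 ^ j := by rw [hm]; push_cast; rfl
  have hm1 : 1 ≤ m := Nat.one_le_pow _ _ (by norm_num)
  set Wt : ℝ := n1 * La + 2 * bb + 4 with hWt
  set a : ℝ := t - 2 * n1 * La - bb - 2 with ha
  have hWt0 : 0 ≤ Wt := by rw [hWt]; positivity
  have hn1La : (n1 : ℝ) * La ≤ t / 100 * 0.3 := mul_le_mul hn1le hLa3.le hLa.le (by positivity)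
  have hn1La' : (t / 100 - 1) * 0.28 ≤ (n1 : ℝ) * La := by
    have h1 : (t / 100 - 1) * 0.28 ≤ n1 * 0.28 := mul_le_mul_of_nonneg_right hn1ge (by norm_num)
    have h2 : (n1 : ℝ) * 0.28 ≤ n1 * La := mul_le_mul_of_nonneg_left hLa28.le hn1p.le
    linarith only [hn1ge, h2]
  have hBm := hbig t a Wt htt3 (by rw [ha]; linarith only [he0p, he01, hte0, het, hbbt, hn1La]) hWt0 (by rw [ha, hWt]; linarith only [he0p, he01, hte0, h16, het, hbbt, hn1La'])
  have hWt1 : Wt + 16 ^ j ≤ n1 := by rw [hWt]; linarith only [he0p, he01, hte0, h16, hn1ge, het, hbbt, hn1La]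
  set E : Set ℕ := Bd N0 (KK del) c with hE
  -- the single estimate
  set A : ℝ := (((Od y).filter fun N => N ∈ Bd N0 (KK del) 0).card : ℝ) with hA
  set S : ℕ → ℝ := fun n => ∑ l ∈ win n bb, ∑ M ∈ (Ow (t + n * Real.log 3 - l * Real.log 2)
        (Real.log 4)).filter (· ∈ E), cm m M / M with hS
  have hcm : ∀ M, 0 ≤ cm m M := by
    intro M
    unfold cm
    refine mul_nonneg (by positivity) (tsum_nonneg fun l => ?_)
    unfold nu
    positivity
  have hS0 : ∀ n, 0 ≤ S n := by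
    intro n
    exact sum_nonneg fun l _ => sum_nonneg fun M _ => div_nonneg (hcm M) (Nat.cast_nonneg _)
  have hsingle : ∀ n ∈ Ioc n1 (2 * n1), A ≤ y * (2 / B ^ 2) + Real.sqrt y + 4 * y / Real.sqrt n1 * S n + 8 * y * (Cm / m) := by
    intro n hn
    rw [mem_Ioc] at hn
    have hnr1 : (n1 : ℝ) ≤ n := by exact_mod_cast hn.1.le
    have hnr2 : (n : ℝ) ≤ 2 * n1 := by exact_mod_cast hn.2
    have hn40 : (n : ℝ) ≤ t / 40 := by linarith only [he0p, he01, hte0, hn1le, het, hnr2]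
    have hn1' : 1 ≤ n := by omega
    have hnbb : bb ≤ n := by omega
    have b1 := hbad y n bb hy1 htt1 hn1' hn40 hbb1' hnbb
    have hcond : c + (KK del + 1) * (bb + 1) ≤ del * n * La := by
      have g1 : del * (m : ℝ) * La ≤ q * (e0 * t) := by
        have : del * (m : ℝ) * La = q * m := by rw [hq]; ring
        rw [this, hmcast]
        exact mul_le_mul_of_nonneg_left h16 hqp.le
      have g2 : K1 * (((8 ^ j : ℕ) : ℝ) + 1) ≤ K1 * (2 * (e0 * t)) := by
        apply mul_le_mul_of_nonneg_left _ hK1p.le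
        push_cast; linarith only [hte0, h8]
      have g3 : K1 * ((bb : ℝ) + 1) ≤ K1 * (3 * (e0 * t)) := by
        apply mul_le_mul_of_nonneg_left _ hK1p.le
        linarith only [hte0, hbbt]
      have g4 : q * (t / 100 - 1) ≤ del * n * La := by
        have : del * n * La = q * n := by rw [hq]; ring
        rw [this]
        exact mul_le_mul_of_nonneg_left (by linarith only [hn1ge, hnr1]) hqp.le
      have g5 : e0 * (2 * q + 5 * K1) * t ≤ q / 100 * t := mul_le_mul_of_nonneg_right he02 ht0.le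
      have g6 : q * 1 ≤ q * (e0 * t) := mul_le_mul_of_nonneg_left hte0 hqp.le
      rw [hc]
      have g7 : del * ((16 ^ j : ℕ) : ℝ) * La = del * (m : ℝ) * La := rfl
      rw [g7]
      have g8 : q * (e0 * t) + K1 * (2 * (e0 * t)) + K1 * (3 * (e0 * t)) = e0 * (q + 5 * K1) * t := by ring
      have g9 : e0 * (2 * q + 5 * K1) * t = e0 * (q + 5 * K1) * t + q * (e0 * t) := by ring
      have g10 : del * (m : ℝ) * La + K1 * (((8 ^ j : ℕ) : ℝ) + 1) + K1 * ((bb : ℝ) + 1) ≤ del * n * La := by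
        linarith only [g1, g2, g3, g4, g5, g6, g8, g9]
      exact g10
    have b2 := hcount y n bb N0 del c hy1 htt2 hn1' hn40 hbb1' hnbb hdel hc0 hcond
    have h2mn : 2 * m ≤ n := by
      have : (2 : ℝ) * m ≤ n := by rw [hmcast]; linarith only [he0p, he01, hte0, h16, hn1ge, het, hnr1]
      exact_mod_cast this
    have b3 := mix_top hmix y m n bb E hy1 hm1 h2mn hnbb hn40
    have hcard : A ≤ (((Od y).filter fun N => (vals n N).sum ∉ win n bb).card : ℝ) +
        (((Od y).filter fun N => (vals n N).sum ∈ win n bb ∧ N ∈ Bd N0 (KK del) 0).card : ℝ) := by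
      rw [hA]
      have : ((Od y).filter fun N => N ∈ Bd N0 (KK del) 0) ⊆
          ((Od y).filter fun N => (vals n N).sum ∉ win n bb) ∪
          ((Od y).filter fun N => (vals n N).sum ∈ win n bb ∧ N ∈ Bd N0 (KK del) 0) := by
        intro N hN
        rw [mem_filter] at hN
        rw [mem_union, mem_filter, mem_filter]
        by_cases h : (vals n N).sum ∈ win n bb
        · exact Or.inr ⟨hN.1, h, hN.2⟩
        · exact Or.inl ⟨hN.1, h⟩
      have h1 := (card_le_card this).trans (card_union_le _ _)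
      exact_mod_cast h1
    have hfirst : y * (n / (bb : ℝ) ^ 2) ≤ y * (2 / B ^ 2) := by
      apply mul_le_mul_of_nonneg_left _ hy0.le
      rw [div_le_div_iff₀ (by positivity) (by positivity)]
      have h1 : (B * Real.sqrt n1) ^ 2 ≤ (bb : ℝ) ^ 2 := pow_le_pow_left₀ (by positivity) hbbge 2
      rw [mul_pow, Real.sq_sqrt hn1p.le] at h1
      have : (n : ℝ) * B ^ 2 ≤ 2 * n1 * B ^ 2 := mul_le_mul_of_nonneg_right hnr2 (by positivity)
      linarith only [h1, this]
    have hthird : 4 * y / Real.sqrt n * S n ≤ 4 * y / Real.sqrt n1 * S n := by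
      apply mul_le_mul_of_nonneg_right _ (hS0 n)
      apply div_le_div_of_nonneg_left (by positivity) (by positivity)
      exact Real.sqrt_le_sqrt hnr1
    have b3' : ∑ l ∈ win n bb, ∑ M ∈ (Ow (Real.log y + n * Real.log 3 - l * Real.log 2) (Real.log 4)).filter (· ∈ E),
        2 ^ l * nu n n l M ≤ 4 * y / Real.sqrt n * S n + 8 * y * (Cm / m) := b3
    linarith only [b1, b2, b3, hcard, hfirst, hthird]
  have hsum : (n1 : ℝ) * A ≤ n1 * (y * (2 / B ^ 2) + Real.sqrt y + 8 * y * (Cm / m)) +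
      4 * y / Real.sqrt n1 * ∑ n ∈ Ioc n1 (2 * n1), S n := by
    have h1 : ∑ n ∈ Ioc n1 (2 * n1), A ≤ ∑ n ∈ Ioc n1 (2 * n1),
        (y * (2 / B ^ 2) + Real.sqrt y + 4 * y / Real.sqrt n1 * S n + 8 * y * (Cm / m)) := sum_le_sum hsingle
    rw [sum_const, Nat.card_Ioc, show 2 * n1 - n1 = n1 by omega, nsmul_eq_mul] at h1
    have h2 : ∑ n ∈ Ioc n1 (2 * n1),
        (y * (2 / B ^ 2) + Real.sqrt y + 4 * y / Real.sqrt n1 * S n + 8 * y * (Cm / m)) =
        n1 * (y * (2 / B ^ 2) + Real.sqrt y + 8 * y * (Cm / m)) + 4 * y / Real.sqrt n1 * ∑ n ∈ Ioc n1 (2 * n1), S n := by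
      rw [mul_sum]
      rw [sum_add_distrib, sum_add_distrib, sum_const, sum_const, Nat.card_Ioc, show 2 * n1 - n1 = n1 by omega,
        nsmul_eq_mul, nsmul_eq_mul]
      ring
    rw [h2] at h1
    exact h1
  have havg : ∑ n ∈ Ioc n1 (2 * n1), S n ≤ 32 * bb * Bm m a Wt E := by
    have := avg_top t n1 m bb E hn1pos hbb1' ht0.le
    exact this
  have hBm' : Bm m a Wt E ≤ n1 * (8 * C3 * (Real.log N0) ^ (-(1 / 5) : ℝ) + C4 / 2 ^ j) := by
    refine hBm.trans (mul_le_mul_of_nonneg_right hWt1 ?_)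
    have : 0 ≤ Real.log N0 := by
      have := (le_max_right L0 Ts).trans hlogN0
      linarith only [hTs, he0p, he01, this]
    positivity
  set X : ℝ := 8 * C3 * (Real.log N0) ^ (-(1 / 5) : ℝ) + C4 / 2 ^ j with hX
  have hlogn : 0 ≤ Real.log N0 := by
    have := (le_max_right L0 Ts).trans hlogN0
    linarith only [hTs, he0p, he01, this]
  have hX0 : 0 ≤ X := by rw [hX]; positivity
  have hfin : (n1 : ℝ) * A ≤ n1 * (y * (2 / B ^ 2) + Real.sqrt y + 8 * y * (Cm / m) + 256 * B * y * X) := by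
    have h1 : 4 * y / Real.sqrt n1 * ∑ n ∈ Ioc n1 (2 * n1), S n ≤ 4 * y / Real.sqrt n1 * (32 * (2 * B * Real.sqrt n1) * (n1 * X)) := by
      apply mul_le_mul_of_nonneg_left _ (by positivity)
      calc ∑ n ∈ Ioc n1 (2 * n1), S n ≤ 32 * bb * Bm m a Wt E := havg
        _ ≤ 32 * bb * (n1 * X) := mul_le_mul_of_nonneg_left hBm' (by positivity)
        _ ≤ 32 * (2 * B * Real.sqrt n1) * (n1 * X) := by
            apply mul_le_mul_of_nonneg_right _ (by positivity)
            linarith only [hbble, hBs1]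
    have hs : Real.sqrt n1 ≠ 0 := by positivity
    have h2 : 4 * y / Real.sqrt n1 * (32 * (2 * B * Real.sqrt n1) * (n1 * X)) = n1 * (256 * B * y * X) := by
      field_simp; ring
    rw [h2] at h1
    linarith only [hsum, h1]
  have hA' : A ≤ y * (2 / B ^ 2) + Real.sqrt y + 8 * y * (Cm / m) + 256 * B * y * X :=
    le_of_mul_le_mul_left hfin hn1p
  -- final smallness
  have hsqy : Real.sqrt y ≤ eps / 8 * y := by
    have h1 : (8 / eps) ^ 2 ≤ y := by
      have : t ≤ y := (Real.log_le_sub_one_of_pos hy0).trans (by linarith only [he0p, he01])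
      linarith only [ht1, ht2, he0p, he01, hts, htts, p3, p4, p5, p6, this]
    have h2 : 8 / eps ≤ Real.sqrt y := Real.le_sqrt_of_sq_le h1
    rw [div_le_iff₀ heps] at h2
    have h3 : Real.sqrt y * Real.sqrt y = y := Real.mul_self_sqrt hy0.le
    have h4 := mul_le_mul_of_nonneg_right h2 (Real.sqrt_nonneg y)
    have h5 : Real.sqrt y * eps * Real.sqrt y = eps * y := by
      rw [mul_right_comm, h3, mul_comm]
    linarith only [h4, h5]
  have h2j : (0 : ℝ) < 2 ^ j := by positivity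
  have hm2 : Cm / m ≤ Cm / 2 ^ j := by
    apply div_le_div_of_nonneg_left (by linarith only [hCm, he0p, he01]) h2j
    rw [hmcast]
    exact pow_le_pow_left₀ (by norm_num) (by norm_num) j
  have hR : (8 * Cm + 256 * B * C4) / 2 ^ j ≤ eps / 8 := by
    rw [div_le_iff₀ h2j]
    have h1 := hRr2.trans hjR
    have h2 := mul_le_mul_of_nonneg_left h1 (by positivity : 0 ≤ eps / 8)
    have h3 : eps / 8 * ((8 * Cm + 256 * B * C4) * (8 / eps)) = 8 * Cm + 256 * B * C4 := by field_simp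
    linarith only [h2, h3]
  have hXe : 256 * B * X ≤ eps / 4 + 256 * B * C4 / 2 ^ j := by
    have : 256 * B * X = 2048 * B * C3 * (Real.log N0) ^ (-(1 / 5) : ℝ) + 256 * B * C4 / 2 ^ j := by
      rw [hX]; ring
    rw [this]
    linarith only [hN0eps]
  have hR' : 8 * (Cm / 2 ^ j) + 256 * B * C4 / 2 ^ j ≤ eps / 8 := by
    have : 8 * (Cm / 2 ^ j) + 256 * B * C4 / 2 ^ j = (8 * Cm + 256 * B * C4) / 2 ^ j := by ring
    rw [this]; exact hR
  have hfinal : 2 / B ^ 2 + eps / 8 + 8 * (Cm / m) + 256 * B * X ≤ eps := by linarith only [heps, hBsq, hm2, hXe, hR']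
  calc A ≤ y * (2 / B ^ 2) + Real.sqrt y + 8 * y * (Cm / m) + 256 * B * y * X := hA'
    _ ≤ y * (2 / B ^ 2) + eps / 8 * y + 8 * y * (Cm / m) + 256 * B * y * X := by linarith only [hsqy]
    _ = y * (2 / B ^ 2 + eps / 8 + 8 * (Cm / m) + 256 * B * X) := by ring
    _ ≤ y * eps := mul_le_mul_of_nonneg_left hfinal hy0.le
    _ = eps * y := mul_comm _ _

end Pool.Agent.E21
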