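import Pool.Agent.W_e21c_h6.Dyn

/-!
# The number of compositions (MP_e21d3a_lc, natural density; file P1)
-/

set_option autoImplicit false

noncomputable section

open Finset

namespace Pool.Agent.E21

private theorem P1_card_succ (n t : ℕ) :
    (comps (n + 1) t).card = ∑ a ∈ Finset.Icc 1 t, (comps n (t - a)).card := by
  show ((Finset.Icc 1 t).biUnion fun b => (comps n (t - b)).image (List.cons b)).card = _
  rw [Finset.card_biUnion]
  · refine Finset.sum_congr rfl fun a _ => ?_
    exact Finset.card_image_of_injective _ (List.cons_injective)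
  · intro a _ b _ hab
    simp only [Finset.disjoint_left, Finset.mem_image]
    rintro l ⟨c, _, rfl⟩ ⟨d, _, h⟩
    simp only [List.cons.injEq] at h
    exact hab h.1.symm

private theorem P1_empty {n t : ℕ} (h : t < n) : comps n t = ∅ := by
  rw [Finset.eq_empty_iff_forall_notMem]
  intro l hl
  obtain ⟨h1, h2, h3⟩ := mem_comps.mp hl
  have := List.length_le_sum_of_one_le l h3
  omega

private theorem P1_card_rec (n t : ℕ) :
    (comps (n + 1) (t + 1)).card = (comps n t).card + (comps (n + 1) t).card := by
  rw [P1_card_succ n (t + 1), P1_card_succ n t]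
  have h1 : Finset.Icc 1 (t + 1) = insert 1 ((Finset.Icc 1 t).map (addRightEmbedding 1)) := by
    rw [Finset.map_add_right_Icc]
    ext x
    simp only [Finset.mem_Icc, Finset.mem_insert]
    omega
  rw [h1, Finset.sum_insert, Finset.sum_map]
  · simp only [addRightEmbedding_apply, Nat.add_sub_add_right, Nat.add_sub_cancel]
  · simp only [Finset.mem_map, Finset.mem_Icc, addRightEmbedding_apply, not_exists, not_and]
    intro x hx
    omega

private theorem P1_zero (t : ℕ) : comps 0 t = if t = 0 then {[]} else ∅ := rfl

theorem card_comps (n l : ℕ) : (comps (n + 1) (l + 1)).card = Nat.choose l n := by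
  induction l generalizing n with
  | zero =>
    rw [P1_card_rec]
    have h0 : comps (n + 1) 0 = ∅ := P1_empty (Nat.succ_pos n)
    rw [h0, Finset.card_empty, add_zero]
    cases n with
    | zero => simp [P1_zero]
    | succ n => rw [P1_empty (Nat.succ_pos n)]; simp
  | succ t ih =>
    rw [P1_card_rec, ih n]
    cases n with
    | zero => simp [P1_zero]
    | succ n => rw [ih n, Nat.choose_succ_succ]

theorem comps_zero_right (n : ℕ) : comps (n + 1) 0 = ∅ := P1_empty (Nat.succ_pos n)

theorem card_comps_le (n l : ℕ) : (comps n l).card ≤ 2 ^ l := by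
  cases n with
  | zero =>
    rw [P1_zero]
    split_ifs
    · rw [Finset.card_singleton]
      exact Nat.one_le_two_pow
    · rw [Finset.card_empty]
      exact Nat.zero_le _
  | succ n =>
    cases l with
    | zero => rw [comps_zero_right]; simp
    | succ l =>
      rw [card_comps]
      exact le_trans (Nat.choose_le_two_pow l n) (Nat.pow_le_pow_right (by norm_num) (Nat.le_succ l))

theorem Pn_nonneg (n l : ℕ) : 0 ≤ Pn n l := by
  unfold Pn
  positivity

theorem Pn_succ (n l : ℕ) : Pn (n + 1) (l + 1) = Nat.choose l n / 2 ^ (l + 1) := by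
  unfold Pn
  rw [card_comps]

theorem Pn_eq_zero {n l : ℕ} (h : l < n) : Pn n l = 0 := by
  unfold Pn
  rw [P1_empty h]
  simp

end Pool.Agent.E21
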