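import Pool.Agent.W_e21c_h6.Dyn

/-!
# Harmonic sums over an arithmetic progression (MP_e21d3a_lc, natural density; file W1)
-/

set_option autoImplicit false

noncomputable section

open Finset

namespace Pool.Agent.E21

theorem W1_repr (q r : ℕ) (hq : 1 ≤ q) (T W : ℝ) : ∃ N0 J : ℕ, 1 ≤ N0 ∧ T ≤ Real.log N0 ∧
    (N0 < 1 + q ∨ (N0 : ℝ) < Real.exp T + q) ∧ T + W ≤ Real.log ((N0 : ℝ) + q * J) ∧
    (∀ j < J, Real.log ((N0 : ℝ) + q * j) < T + W) ∧
    ∑ N ∈ (Fw T W).filter (fun N => N ≡ r [MOD q]), (1 : ℝ) / N = ∑ j ∈ range J, 1 / ((N0 : ℝ) + q * j) := by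
  classical
  set m := max 1 ⌈Real.exp T⌉₊ with hm
  set N0 := m + (r + (q - 1) * m) % q with hN0
  have hm1 : 1 ≤ m := le_max_left _ _
  have hlt := Nat.mod_lt (r + (q - 1) * m) (show 0 < q by omega)
  have hcl : N0 ≡ r [MOD q] := by
    have h1 : N0 ≡ m + (r + (q - 1) * m) [MOD q] := Nat.ModEq.add_left m (Nat.mod_modEq _ _)
    have h2 : m + (r + (q - 1) * m) = r + q * m := by
      obtain ⟨q', rfl⟩ : ∃ k, q = k + 1 := ⟨q - 1, by omega⟩
      simp only [Nat.add_sub_cancel]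
      ring
    rw [h2] at h1
    refine h1.trans ?_
    have h3 : r + q * m ≡ r + 0 [MOD q] := Nat.ModEq.add_left r ((Nat.modEq_zero_iff_dvd).2 ⟨m, rfl⟩)
    simpa using h3
  have hN1 : 1 ≤ N0 := by omega
  have hNm : m ≤ N0 := by omega
  have hNR : (0 : ℝ) < N0 := by exact_mod_cast hN1
  have hqR : (0 : ℝ) < q := by exact_mod_cast hq
  have hexp : Real.exp T ≤ N0 := by
    have h1 := Nat.le_ceil (Real.exp T)
    have h2 : ((⌈Real.exp T⌉₊ : ℕ) : ℝ) ≤ N0 := by exact_mod_cast (le_max_right 1 _).trans hNm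
    linarith
  set J := ⌈(Real.exp (T + W) - N0) / q⌉₊ with hJ
  have hpos : ∀ j : ℕ, (0 : ℝ) < (N0 : ℝ) + q * j := fun j => by positivity
  have hjJ : ∀ j : ℕ, j < J ↔ Real.log ((N0 : ℝ) + q * j) < T + W := by
    intro j
    rw [hJ, Nat.lt_ceil, lt_div_iff₀ hqR, Real.log_lt_iff_lt_exp (hpos j)]
    constructor <;> intro h <;> linarith
  refine ⟨N0, J, hN1, (Real.le_log_iff_exp_le hNR).2 hexp, ?_, ?_, fun j hj => (hjJ j).1 hj, ?_⟩
  · rcases le_total ⌈Real.exp T⌉₊ 1 with h | h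
    · left
      rw [max_eq_left h] at hm
      omega
    · right
      rw [max_eq_right h] at hm
      have h1 : N0 + 1 ≤ ⌈Real.exp T⌉₊ + q := by omega
      have h2 : ((N0 + 1 : ℕ) : ℝ) ≤ ((⌈Real.exp T⌉₊ + q : ℕ) : ℝ) := by exact_mod_cast h1
      have h3 := Nat.ceil_lt_add_one (Real.exp_pos T).le
      push_cast at h2
      linarith
  · by_contra hcon
    exact lt_irrefl J ((hjJ J).2 (not_le.1 hcon))
  · have hinj : Set.InjOn (fun j => N0 + q * j) (range J : Set ℕ) := by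
      intro a _ b _ hab
      have hab' : q * a = q * b := Nat.add_left_cancel hab
      exact Nat.eq_of_mul_eq_mul_left (by omega) hab'
    have hS : (Fw T W).filter (fun N => N ≡ r [MOD q]) = (range J).image (fun j => N0 + q * j) := by
      ext N
      rw [mem_filter, mem_Fw, mem_image]
      constructor
      · rintro ⟨⟨h1, h2, h3⟩, h4⟩
        have hN : (0 : ℝ) < N := by exact_mod_cast h1
        have h5 : m ≤ N := by
          rw [hm]
          apply max_le h1
          exact Nat.ceil_le.2 ((Real.le_log_iff_exp_le hN).1 h2)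
        have h6 : N0 ≤ N := by
          by_contra hcon
          have h7 : q ∣ N0 - N := (Nat.modEq_iff_dvd' (by omega)).1 (h4.trans hcl.symm)
          have h8 := Nat.le_of_dvd (by omega) h7
          omega
        have h7 : q ∣ N - N0 := (Nat.modEq_iff_dvd' h6).1 (hcl.trans h4.symm)
        obtain ⟨j, hj⟩ := h7
        have h8 : N0 + q * j = N := by omega
        refine ⟨j, ?_, h8⟩
        rw [mem_range, hjJ]
        have h9 : ((N0 : ℝ) + q * j) = N := by exact_mod_cast h8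
        rw [h9]
        exact h3
      · rintro ⟨j, hj, rfl⟩
        rw [mem_range, hjJ] at hj
        refine ⟨⟨by omega, ?_, ?_⟩, ?_⟩
        · rw [Real.le_log_iff_exp_le (by exact_mod_cast (show 0 < N0 + q * j by omega))]
          push_cast
          have : (0 : ℝ) ≤ q * j := by positivity
          linarith
        · push_cast
          exact hj
        · have h3 : N0 + q * j ≡ N0 + 0 [MOD q] := Nat.ModEq.add_left N0 ((Nat.modEq_zero_iff_dvd).2 ⟨j, rfl⟩)
          rw [add_zero] at h3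
          exact h3.trans hcl
    rw [hS, sum_image hinj]
    refine sum_congr rfl fun j _ => ?_
    push_cast
    rfl

theorem W1_tele (N0 q : ℝ) (J : ℕ) :
    ∑ j ∈ range J, (Real.log (N0 + q * ((j + 1 : ℕ) : ℝ)) - Real.log (N0 + q * j)) =
      Real.log (N0 + q * J) - Real.log N0 := by
  rw [sum_range_sub (fun j : ℕ => Real.log (N0 + q * j)) J]
  simp

open Classical in
/-- First term `≤ exp (-T)`; the others are `≤ (1 / q) ∫ dx / x`, i.e. `1 / (x + q) ≤ (1 / q) log ((x + q) / x)`; telescoping. -/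
theorem ap_upper (q r : ℕ) (hq : 1 ≤ q) (T W : ℝ) (hW : 0 ≤ W) :
    ∑ N ∈ (Fw T W).filter (fun N => N ≡ r [MOD q]), (1 : ℝ) / N ≤ W / q + Real.exp (-T) := by
  obtain ⟨N0, J, h1, h2, _, _, h5, h6⟩ := W1_repr q r hq T W
  have h6' : ∑ N ∈ (Fw T W).filter (fun N => N ≡ r [MOD q]), (1 : ℝ) / N =
      ∑ j ∈ range J, 1 / ((N0 : ℝ) + q * j) := by
    rw [← h6]
  rw [h6']
  have hNR : (0 : ℝ) < N0 := by exact_mod_cast h1
  have hqR : (0 : ℝ) < q := by exact_mod_cast hq
  have hexp : Real.exp T ≤ N0 := (Real.le_log_iff_exp_le hNR).1 h2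
  rcases Nat.eq_zero_or_pos J with hJ | hJ
  · rw [hJ]
    simp only [range_zero, sum_empty]
    positivity
  · obtain ⟨J, rfl⟩ : ∃ k, J = k + 1 := ⟨J - 1, by omega⟩
    rw [sum_range_succ']
    have e1 : 1 / ((N0 : ℝ) + q * ((0 : ℕ) : ℝ)) ≤ Real.exp (-T) := by
      rw [Nat.cast_zero, mul_zero, add_zero, Real.exp_neg, ← one_div]
      exact one_div_le_one_div_of_le (Real.exp_pos T) hexp
    have e2 : ∀ j ∈ range J, 1 / ((N0 : ℝ) + q * ((j + 1 : ℕ) : ℝ)) ≤
        (1 / q) * (Real.log ((N0 : ℝ) + q * ((j + 1 : ℕ) : ℝ)) - Real.log ((N0 : ℝ) + q * j)) := by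
      intro j _
      have hx : (0 : ℝ) < (N0 : ℝ) + q * j := by positivity
      have hy : (0 : ℝ) < (N0 : ℝ) + q * ((j + 1 : ℕ) : ℝ) := by positivity
      rw [← Real.log_div hy.ne' hx.ne']
      have h7 := Real.one_sub_inv_le_log_of_pos (div_pos hy hx)
      rw [inv_div] at h7
      have h8 : 1 - ((N0 : ℝ) + q * j) / ((N0 : ℝ) + q * ((j + 1 : ℕ) : ℝ)) =
          q * (1 / ((N0 : ℝ) + q * ((j + 1 : ℕ) : ℝ))) := by
        have : (1 : ℝ) = ((N0 : ℝ) + q * ((j + 1 : ℕ) : ℝ)) / ((N0 : ℝ) + q * ((j + 1 : ℕ) : ℝ)) :=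
          (div_self hy.ne').symm
        nth_rewrite 1 [this]
        rw [← sub_div]
        push_cast
        ring
      rw [h8] at h7
      rw [one_div_mul_eq_div, le_div_iff₀ hqR]
      linarith
    have e3 := sum_le_sum e2
    rw [← mul_sum, W1_tele] at e3
    have e4 := h5 J (by omega)
    have e5 : 1 / (q : ℝ) * (Real.log ((N0 : ℝ) + q * J) - Real.log N0) ≤ W / q := by
      rw [one_div_mul_eq_div]
      apply div_le_div_of_nonneg_right _ hqR.le
      linarith
    linarith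

open Classical in
/-- `1 / x ≥ (1 / q) log ((x + q) / x)`; the first element is `< exp T + q`, the last one plus `q` is `≥ exp (T + W)`. -/
theorem ap_lower (q r : ℕ) (hq : 1 ≤ q) (T W : ℝ) (hT : 0 ≤ T) (hW : 0 ≤ W) :
    W / q - Real.exp (-T) ≤ ∑ N ∈ (Fw T W).filter (fun N => N ≡ r [MOD q]), (1 : ℝ) / N := by
  obtain ⟨N0, J, h1, h2, h3, h4, _, h6⟩ := W1_repr q r hq T W
  have h6' : ∑ N ∈ (Fw T W).filter (fun N => N ≡ r [MOD q]), (1 : ℝ) / N =
      ∑ j ∈ range J, 1 / ((N0 : ℝ) + q * j) := by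
    rw [← h6]
  rw [h6']
  have hNR : (0 : ℝ) < N0 := by exact_mod_cast h1
  have hqR : (0 : ℝ) < q := by exact_mod_cast hq
  have hN0 : (N0 : ℝ) ≤ Real.exp T + q := by
    rcases h3 with h | h
    · have h7 : (N0 : ℝ) ≤ q := by
        have : N0 ≤ q := by omega
        exact_mod_cast this
      have := Real.exp_pos T
      linarith
    · exact h.le
  have e2 : ∀ j ∈ range J, (1 / (q : ℝ)) * (Real.log ((N0 : ℝ) + q * ((j + 1 : ℕ) : ℝ)) - Real.log ((N0 : ℝ) + q * j)) ≤
      1 / ((N0 : ℝ) + q * j) := by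
    intro j _
    have hx : (0 : ℝ) < (N0 : ℝ) + q * j := by positivity
    have hy : (0 : ℝ) < (N0 : ℝ) + q * ((j + 1 : ℕ) : ℝ) := by positivity
    rw [← Real.log_div hy.ne' hx.ne']
    have h7 := Real.log_le_sub_one_of_pos (div_pos hy hx)
    have h8 : ((N0 : ℝ) + q * ((j + 1 : ℕ) : ℝ)) / ((N0 : ℝ) + q * j) - 1 = q * (1 / ((N0 : ℝ) + q * j)) := by
      rw [div_sub_one hx.ne']
      push_cast
      ring
    rw [h8] at h7
    rw [one_div_mul_eq_div, div_le_iff₀ hqR]
    linarith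
  have e3 := sum_le_sum e2
  rw [← mul_sum, W1_tele] at e3
  refine le_trans ?_ e3
  have e4 : Real.log N0 ≤ T + q * Real.exp (-T) := by
    have h7 : Real.log N0 ≤ Real.log (Real.exp T + q) := Real.log_le_log hNR hN0
    have h8 : Real.exp T + q = Real.exp T * (1 + q * Real.exp (-T)) := by
      rw [mul_add, mul_one]
      have : Real.exp T * (q * Real.exp (-T)) = q * (Real.exp T * Real.exp (-T)) := by ring
      rw [this, ← Real.exp_add, add_neg_cancel, Real.exp_zero, mul_one]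
    rw [h8, Real.log_mul (Real.exp_pos T).ne' (by positivity), Real.log_exp] at h7
    have h9 := Real.log_le_sub_one_of_pos (show (0 : ℝ) < 1 + q * Real.exp (-T) by positivity)
    linarith
  have e5 : W - q * Real.exp (-T) ≤ Real.log ((N0 : ℝ) + q * J) - Real.log N0 := by linarith
  calc W / q - Real.exp (-T) = 1 / q * (W - q * Real.exp (-T)) := by
        field_simp
    _ ≤ 1 / q * (Real.log ((N0 : ℝ) + q * J) - Real.log N0) :=
        mul_le_mul_of_nonneg_left e5 (by positivity)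

end Pool.Agent.E21
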