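import Pool.Agent.W_e21c_h6.Z2

/-!
# Errorless tests (MP_e21d3a_lc, natural density; file Y1)

For every `eps > 0` there is a primitive recursive test with the answers yes, no, don't know, which is never wrong on the
question whether the orbit of `n` reaches `1`, and whose answer is that it does not know only for a set of upper density at most `eps`.
-/

set_option autoImplicit false

noncomputable section

open Finset

namespace Pool.Agent.E21

theorem primrec_pow2 : Primrec (fun n : ℕ => 2 ^ n) := by
  have h : Primrec (fun n : ℕ => (fun m : ℕ => 2 * m)^[n] 1) :=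
    Primrec.nat_iterate Primrec.id (Primrec.const 1)
      ((Primrec.nat_mul.comp (Primrec.const 2) Primrec.snd).to₂)
  refine h.of_eq fun n => ?_
  induction n with
  | zero => rfl
  | succ n ih => rw [Function.iterate_succ_apply', ih, pow_succ, mul_comm]

theorem filt_len (p : ℕ → Bool) (L : ℕ) (hp : ∀ k, p k = true ↔ k < L) (n : ℕ) :
    ((List.range n).filter p).length = min L n := by
  induction n with
  | zero => simp
  | succ n ih =>
    rw [List.range_succ, List.filter_append, List.length_append, ih]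
    by_cases h : n < L
    · have h1 : p n = true := (hp n).2 h
      simp only [List.filter_cons, List.filter_nil, h1, if_true, List.length_singleton]
      omega
    · have h1 : p n = false := by
        by_contra h2
        exact h ((hp n).1 (by simpa using h2))
      simp only [List.filter_cons, List.filter_nil, h1, Bool.false_eq_true, if_false, List.length_nil]
      omega

theorem primrec_log2 : Primrec (fun n : ℕ => Nat.log 2 n) := by
  classical
  -- `Nat.log 2 n` is the number of `k < n` with `2 ^ (k + 1) ≤ n`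
  have h1 : PrimrecRel (fun k n : ℕ => 2 ^ (k + 1) ≤ n) :=
    Primrec.nat_le.comp (primrec_pow2.comp (Primrec.succ.comp Primrec.fst)) Primrec.snd
  have h2 := (PrimrecRel.listFilter h1).comp Primrec.list_range Primrec.id
  have h3 := Primrec.list_length.comp h2
  refine h3.of_eq fun n => ?_
  have h4 : ∀ k, 2 ^ (k + 1) ≤ n ↔ k < Nat.log 2 n := by
    intro k
    rcases Nat.eq_zero_or_pos n with rfl | hn
    · simp
    · rw [← Nat.le_log_iff_pow_le one_lt_two hn.ne']
      exact Nat.succ_le_iff
  have h5 : Nat.log 2 n ≤ n := Nat.log_le_self 2 n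
  have h6 := filt_len (fun k => decide (2 ^ (k + 1) ≤ n)) (Nat.log 2 n) (fun k => by simpa using h4 k) n
  rw [min_eq_left h5] at h6
  simpa using h6

theorem primrec_col : Primrec col := by
  unfold col
  refine Primrec.ite ?_ ?_ ?_
  · exact Primrec.eq.comp (Primrec.nat_mod.comp Primrec.id (Primrec.const 2)) (Primrec.const 0)
  · exact Primrec.nat_div.comp Primrec.id (Primrec.const 2)
  · exact Primrec.succ.comp (Primrec.nat_mul.comp (Primrec.const 3) Primrec.id)

theorem primrec_iter : Primrec₂ (fun n k : ℕ => col^[k] n) :=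
  Primrec.nat_iterate Primrec.snd Primrec.fst (primrec_col.comp Primrec.snd).to₂

private theorem Y1_log (n : ℕ) (hn : 1 ≤ n) :
    KK (1 / 10) * Real.log n ≤ ((9 * (Nat.log 2 n + 1) : ℕ) : ℝ) := by
  have hLa : 1 / 4 ≤ La := by
    have h := Real.one_sub_inv_le_log_of_pos (show (0 : ℝ) < 4 / 3 by norm_num)
    unfold La
    norm_num at h ⊢
    linarith
  have h1 : (n : ℝ) ≤ 2 ^ (Nat.log 2 n + 1) := by
    exact_mod_cast (Nat.lt_pow_succ_log_self one_lt_two n).le
  have h2 : Real.log n ≤ (Nat.log 2 n + 1 : ℕ) * Real.log 2 := by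
    rw [← Real.log_pow]
    exact Real.log_le_log (by exact_mod_cast hn) h1
  have h3 : Real.log 2 ≤ 0.7 := by have := Real.log_two_lt_d9; linarith
  have h4 : KK (1 / 10) ≤ 12.1 := by
    unfold KK
    have : 3 / La ≤ 12 := by
      rw [div_le_iff₀ La_pos]
      linarith
    linarith
  have h5 : 0 < KK (1 / 10) := by
    unfold KK
    have := La_pos
    positivity
  have h6 : (0 : ℝ) ≤ (Nat.log 2 n + 1 : ℕ) := Nat.cast_nonneg _
  calc KK (1 / 10) * Real.log n ≤ KK (1 / 10) * ((Nat.log 2 n + 1 : ℕ) * Real.log 2) :=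
        mul_le_mul_of_nonneg_left h2 h5.le
    _ ≤ 12.1 * ((Nat.log 2 n + 1 : ℕ) * 0.7) := by
        apply mul_le_mul h4 _ (by have := Real.log_nonneg (show (1 : ℝ) ≤ 2 by norm_num); positivity) (by norm_num)
        exact mul_le_mul_of_nonneg_left h3 h6
    _ ≤ ((9 * (Nat.log 2 n + 1) : ℕ) : ℝ) := by
        push_cast at h6 ⊢
        nlinarith

/-- `n` reaches a number of the finite set `L` in `9 (log_2 n + 1)` steps. -/
private theorem Y1_pred (L : List ℕ) :
    PrimrecPred (fun n : ℕ => ∃ k < 9 * (Nat.log 2 n + 1) + 1, ∃ a ∈ L, a = col^[k] n) := by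
  have h1 : PrimrecRel (fun (L : List ℕ) (b : ℕ) => ∃ a ∈ L, a = b) := PrimrecRel.exists_mem_list Primrec.eq
  have h2 : PrimrecRel (fun (k n : ℕ) => ∃ a ∈ L, a = col^[k] n) := by
    have : Primrec₂ (fun k n : ℕ => col^[k] n) := primrec_iter.swap
    exact h1.comp (Primrec.const L) this
  have h3 := PrimrecRel.exists_lt h2
  have hlog := primrec_log2
  have h4 : Primrec (fun n : ℕ => 9 * (Nat.log 2 n + 1) + 1) :=
    Primrec.succ.comp (Primrec.nat_mul.comp (Primrec.const 9) (Primrec.succ.comp hlog))
  exact h3.comp h4 Primrec.id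

theorem col_ge_one {n : ℕ} (hn : 1 ≤ n) : 1 ≤ col n := by
  unfold col
  split_ifs with h
  · omega
  · omega

theorem col_pos {n : ℕ} (hn : 1 ≤ n) (k : ℕ) : 1 ≤ col^[k] n := by
  induction k with
  | zero => exact hn
  | succ k ih =>
    rw [Function.iterate_succ_apply']
    exact col_ge_one ih

/-- `1` is reached from `n` iff it is reached from `col^k n`. -/
theorem reach_iff (n k : ℕ) : (∃ j, col^[j] n = 1) ↔ ∃ j, col^[j] (col^[k] n) = 1 := by
  constructor
  · rintro ⟨j, hj⟩
    rcases le_total k j with h | h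
    · refine ⟨j - k, ?_⟩
      rw [← Function.iterate_add_apply, Nat.sub_add_cancel h, hj]
    · -- `col^k n = col^(k - j) 1` is in the cycle
      have h1 : col^[k] n = col^[k - j] 1 := by
        rw [← hj, ← Function.iterate_add_apply, Nat.sub_add_cancel h]
      rw [h1]
      have h2 : ∀ m, ∃ i, col^[i] (col^[m] 1) = 1 := by
        intro m
        have h3 : ∀ m, col^[m] 1 = 1 ∨ col^[m] 1 = 4 ∨ col^[m] 1 = 2 := by
          intro m
          induction m with
          | zero => left; rfl
          | succ m ih =>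
            rw [Function.iterate_succ_apply']
            rcases ih with ih | ih | ih <;> rw [ih] <;> simp [col]
        rcases h3 m with h | h | h
        · exact ⟨0, h⟩
        · exact ⟨2, by rw [h]; rfl⟩
        · exact ⟨1, by rw [h]; rfl⟩
      exact h2 _
  · rintro ⟨j, hj⟩
    exact ⟨j + k, by rw [Function.iterate_add_apply, hj]⟩

/-- **Errorless tests.** For every `eps > 0` there is a primitive recursive `g` with values yes, no, don't know, which is always
right if it answers yes or no, and the set of the `n` for which it does not answer has upper density at most `eps`. -/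
theorem errorless {Cm : ℝ} (hmix : Mix Cm) (eps : ℝ) (heps : 0 < eps) :
    ∃ g : ℕ → Option Bool, Primrec g ∧
      (∀ n, 1 ≤ n → ∀ b, g n = some b → (b = true ↔ ∃ k, col^[k] n = 1)) ∧
      ∃ X0 : ℕ, ∀ X : ℕ, X0 ≤ X → (Nat.card {n : ℕ // 1 ≤ n ∧ n ≤ X ∧ g n = none} : ℝ) ≤ eps * X := by
  classical
  obtain ⟨N0, X0, hN0, hX⟩ := theorem_one hmix (1 / 10) eps (by norm_num) heps
  set LA : List ℕ := (List.range (N0 + 1)).filter (fun m => decide (1 ≤ m ∧ ∃ j, col^[j] m = 1)) with hLA
  set LB : List ℕ := (List.range (N0 + 1)).filter (fun m => decide (1 ≤ m ∧ ¬ ∃ j, col^[j] m = 1)) with hLB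
  have memA : ∀ m, m ∈ LA ↔ m ≤ N0 ∧ 1 ≤ m ∧ ∃ j, col^[j] m = 1 := by
    intro m
    rw [hLA, List.mem_filter, List.mem_range, decide_eq_true_iff, Nat.lt_succ_iff]
  have memB : ∀ m, m ∈ LB ↔ m ≤ N0 ∧ 1 ≤ m ∧ ¬ ∃ j, col^[j] m = 1 := by
    intro m
    rw [hLB, List.mem_filter, List.mem_range, decide_eq_true_iff, Nat.lt_succ_iff]
  set PA : ℕ → Prop := fun n => ∃ k < 9 * (Nat.log 2 n + 1) + 1, ∃ a ∈ LA, a = col^[k] n with hPA
  set PB : ℕ → Prop := fun n => ∃ k < 9 * (Nat.log 2 n + 1) + 1, ∃ a ∈ LB, a = col^[k] n with hPB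
  refine ⟨fun n => if PA n then some true else if PB n then some false else none, ?_, ?_, X0, ?_⟩
  · exact Primrec.ite (Y1_pred LA) (Primrec.const _) (Primrec.ite (Y1_pred LB) (Primrec.const _) (Primrec.const _))
  · intro n hn b hb
    by_cases h1 : PA n
    · simp only [if_pos h1, Option.some.injEq] at hb
      subst hb
      obtain ⟨k, _, a, ha, rfl⟩ := h1
      simp only [true_iff]
      exact (reach_iff n k).2 ((memA _).1 ha).2.2
    · by_cases h2 : PB n
      · simp only [if_neg h1, if_pos h2, Option.some.injEq] at hb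
        subst hb
        obtain ⟨k, _, a, ha, rfl⟩ := h2
        simp only [Bool.false_eq_true, false_iff]
        exact fun h => ((memB _).1 ha).2.2 ((reach_iff n k).1 h)
      · simp only [if_neg h1, if_neg h2] at hb
        exact absurd hb (by simp)
  · intro X hXX
    refine le_trans ?_ (hX X hXX)
    have hfin : Finite {n : ℕ // 1 ≤ n ∧ n ≤ X ∧ ¬ ∃ k : ℕ, (k : ℝ) ≤ KK (1 / 10) * Real.log n ∧ col^[k] n ≤ N0} :=
      Set.Finite.subset (Set.finite_Iic X) fun n hn => hn.2.1
    have hinj : Nat.card {n : ℕ // 1 ≤ n ∧ n ≤ X ∧ (if PA n then some true else if PB n then some false else none) =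
        (none : Option Bool)} ≤
        Nat.card {n : ℕ // 1 ≤ n ∧ n ≤ X ∧ ¬ ∃ k : ℕ, (k : ℝ) ≤ KK (1 / 10) * Real.log n ∧ col^[k] n ≤ N0} := by
      refine Nat.card_le_card_of_injective (fun n => ⟨n.1, n.2.1, n.2.2.1, ?_⟩) ?_
      · rintro ⟨k, hk, hk2⟩
        have h3 := n.2.2.2
        have h4 : k < 9 * (Nat.log 2 n.1 + 1) + 1 := by
          have h5 := hk.trans (Y1_log n.1 n.2.1)
          have h6 : k ≤ 9 * (Nat.log 2 n.1 + 1) := by exact_mod_cast h5
          omega
        have h7 := col_pos n.2.1 k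
        by_cases h8 : ∃ j, col^[j] (col^[k] n.1) = 1
        · have h9 : PA n.1 := ⟨k, h4, _, (memA _).2 ⟨hk2, h7, h8⟩, rfl⟩
          rw [if_pos h9] at h3
          exact absurd h3 (by simp)
        · have h9 : PB n.1 := ⟨k, h4, _, (memB _).2 ⟨hk2, h7, h8⟩, rfl⟩
          split_ifs at h3 
      · intro a b hab
        simp only [Subtype.mk.injEq] at hab
        exact Subtype.ext hab
    exact_mod_cast hinj

end Pool.Agent.E21
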