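import Pool.Agent.W_e21c_h6.H7

/-!
# From odd numbers to all numbers (MP_e21d3a_lc, natural density; file Z1)
-/

set_option autoImplicit false

noncomputable section

open Finset

namespace Pool.Agent.E21

private theorem Z1_col_pow (v N : ℕ) : col^[v] (2 ^ v * N) = N := by
  induction v with
  | zero => simp
  | succ v ih =>
    rw [Function.iterate_succ_apply]
    have h : col (2 ^ (v + 1) * N) = 2 ^ v * N := by
      have h1 : 2 ^ (v + 1) * N = 2 * (2 ^ v * N) := by ring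
      unfold col
      rw [h1, if_pos (by omega)]
      omega
    rw [h, ih]

private theorem Z1_K {del : ℝ} (hdel : 0 < del) : 1 ≤ KK del * Real.log 2 := by
  have h1 : La ≤ 3 * Real.log 2 := by
    rw [La_eq]
    have h2 : 0 < Real.log 2 := Real.log_pos (by norm_num)
    have h3 : 0 < Real.log 3 := Real.log_pos (by norm_num)
    linarith
  have h2 : 0 < Real.log 2 := Real.log_pos (by norm_num)
  unfold KK
  have h4 : 1 ≤ 3 / La * Real.log 2 := by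
    rw [div_mul_eq_mul_div, le_div_iff₀ La_pos]
    linarith
  nlinarith

/-- `n = 2 ^ v N` with `N` odd, `N ∉ Bd 0`: `col^v n = N` and `v + K log N ≤ K log n` (`K log 2 ≥ 1`: `3 log 2 / La ≥ 1`). -/
theorem hit_even {N0 : ℕ} {del : ℝ} (hdel : 0 < del) (v N : ℕ) (hN : N % 2 = 1) (h : N ∉ Bd N0 (KK del) 0) :
    ∃ k : ℕ, (k : ℝ) ≤ KK del * Real.log ((2 ^ v * N : ℕ) : ℝ) ∧ col^[k] (2 ^ v * N) ≤ N0 := by
  have h1 : ∃ k : ℕ, (k : ℝ) ≤ KK del * Real.log N + 0 ∧ col^[k] N ≤ N0 := by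
    by_contra hc
    exact h ⟨hN, hc⟩
  obtain ⟨k, hk, hc⟩ := h1
  refine ⟨k + v, ?_, ?_⟩
  · have hN0 : (N : ℝ) ≠ 0 := by
      have : N ≠ 0 := by omega
      exact_mod_cast this
    push_cast
    rw [Real.log_mul (by positivity) hN0, Real.log_pow]
    have h2 := Z1_K hdel
    have h3 : (v : ℝ) ≤ v * (KK del * Real.log 2) := by
      have : (0 : ℝ) ≤ v := Nat.cast_nonneg v
      nlinarith
    have h4 : KK del * (v * Real.log 2 + Real.log N) =
      v * (KK del * Real.log 2) + KK del * Real.log N := by ring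
    rw [h4]
    linarith
  · rw [Function.iterate_add_apply, Z1_col_pow]
    exact hc

open Classical in
/-- odd numbers `< Z` in `E` -/
private def Z1_S (E : Set ℕ) (Z : ℝ) : Finset ℕ :=
  (Finset.range ⌈Z⌉₊).filter fun N => N % 2 = 1 ∧ N ∈ E

open Classical in
private theorem Z1_mem {E : Set ℕ} {Z : ℝ} {N : ℕ} :
    N ∈ Z1_S E Z ↔ (N : ℝ) < Z ∧ N % 2 = 1 ∧ N ∈ E := by
  unfold Z1_S
  rw [mem_filter, mem_range, Nat.lt_ceil]

private theorem Z1_base (E : Set ℕ) (y0 : ℝ) (hy0 : 1 ≤ y0) (Z : ℝ) (hZ : Z ≤ 2 * y0) :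
    ((Z1_S E Z).card : ℝ) ≤ 2 * y0 := by
  have h1 : Z1_S E Z ⊆ Finset.Ico 1 ⌈2 * y0⌉₊ := by
    intro N hN
    obtain ⟨a, b, _⟩ := Z1_mem.1 hN
    rw [mem_Ico]
    exact ⟨by omega, Nat.lt_ceil.2 (by linarith)⟩
  have h2 := Finset.card_le_card h1
  rw [Nat.card_Ico] at h2
  have h3 : 1 ≤ ⌈2 * y0⌉₊ := by
    rw [Nat.one_le_ceil_iff]
    linarith
  have h4 : (⌈2 * y0⌉₊ : ℝ) < 2 * y0 + 1 := Nat.ceil_lt_add_one (by linarith)
  have h5 : ((Z1_S E Z).card : ℝ) + 1 ≤ ⌈2 * y0⌉₊ := by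
    have : (Z1_S E Z).card + 1 ≤ ⌈2 * y0⌉₊ := by omega
    exact_mod_cast this
  linarith

private theorem Z1_ind (E : Set ℕ) (eps y0 : ℝ) (heps : 0 < eps) (hy0 : 1 ≤ y0)
    (h : ∀ y : ℝ, y0 ≤ y → (Nat.card {N : ℕ // N ∈ Od y ∧ N ∈ E} : ℝ) ≤ eps * y) (k : ℕ) :
    ∀ Z : ℝ, 0 ≤ Z → Z < 2 ^ k * (2 * y0) → ((Z1_S E Z).card : ℝ) ≤ eps * Z + 2 * y0 := by
  classical
  induction k with
  | zero =>
    intro Z hZ hZ2
    have h1 := Z1_base E y0 hy0 Z (by linarith)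
    have h2 : 0 ≤ eps * Z := by positivity
    linarith
  | succ k ih =>
    intro Z hZ hZ2
    rcases le_total Z (2 * y0) with hc | hc
    · have h1 := Z1_base E y0 hy0 Z hc
      have h2 : 0 ≤ eps * Z := by positivity
      linarith
    · have h1 := ih (Z / 2) (by linarith) (by rw [pow_succ] at hZ2; linarith)
      have h2 := h (Z / 2) (by linarith)
      have h3 : Nat.card {N : ℕ // N ∈ Od (Z / 2) ∧ N ∈ E} = ((Od (Z / 2)).filter (· ∈ E)).card :=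
        Nat.subtype_card _ (by intro x; rw [mem_filter])
      rw [h3] at h2
      have h4 : Z1_S E Z ⊆ Z1_S E (Z / 2) ∪ (Od (Z / 2)).filter (· ∈ E) := by
        intro N hN
        obtain ⟨a, b, c⟩ := Z1_mem.1 hN
        rw [mem_union, Z1_mem, mem_filter, mem_Od]
        rcases lt_or_ge (N : ℝ) (Z / 2) with hd | hd
        · exact Or.inl ⟨hd, b, c⟩
        · exact Or.inr ⟨⟨b, hd, by linarith⟩, c⟩
      have h5 := (Finset.card_le_card h4).trans (Finset.card_union_le _ _)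
      have h6 : ((Z1_S E Z).card : ℝ) ≤
        (Z1_S E (Z / 2)).card + ((Od (Z / 2)).filter (· ∈ E)).card := by exact_mod_cast h5
      linarith

/-- Dyadic windows `Od (Z / 2 ^ (i + 1))`: if `#(Od y ∩ E) ≤ eps y` for `y ≥ y0`, then `#{N ≤ Z odd, N ∈ E} ≤ eps Z + 2 y0 + 1`. -/
theorem sum_dyadic (E : Set ℕ) (eps y0 : ℝ) (heps : 0 < eps) (hy0 : 1 ≤ y0)
    (h : ∀ y : ℝ, y0 ≤ y → (Nat.card {N : ℕ // N ∈ Od y ∧ N ∈ E} : ℝ) ≤ eps * y) (Z : ℝ) (hZ : 0 ≤ Z) :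
    (Nat.card {N : ℕ // N % 2 = 1 ∧ (N : ℝ) ≤ Z ∧ N ∈ E} : ℝ) ≤ eps * Z + 2 * y0 + 1 := by
  classical
  obtain ⟨k, hk⟩ := pow_unbounded_of_one_lt (Z / (2 * y0)) (one_lt_two : (1 : ℝ) < 2)
  have hk' : Z < 2 ^ k * (2 * y0) := by rwa [div_lt_iff₀ (by linarith)] at hk
  have h1 := Z1_ind E eps y0 heps hy0 h k Z hZ hk'
  have h2 : Nat.card {N : ℕ // N % 2 = 1 ∧ (N : ℝ) ≤ Z ∧ N ∈ E} =
      ((Finset.range (⌊Z⌋₊ + 1)).filter (fun N => N % 2 = 1 ∧ N ∈ E)).card := by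
    refine Nat.subtype_card _ ?_
    intro x
    rw [mem_filter, mem_range, Nat.lt_succ_iff, Nat.le_floor_iff hZ]
    tauto
  rw [h2]
  have h3 : (Finset.range (⌊Z⌋₊ + 1)).filter (fun N => N % 2 = 1 ∧ N ∈ E) ⊆ insert ⌊Z⌋₊ (Z1_S E Z) := by
    intro N hN
    rw [mem_filter, mem_range, Nat.lt_succ_iff] at hN
    rw [mem_insert, Z1_mem]
    rcases eq_or_lt_of_le hN.1 with hd | hd
    · exact Or.inl hd
    · refine Or.inr ⟨?_, hN.2⟩
      have h6 := Nat.floor_le hZ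
      have h7 : ((N + 1 : ℕ) : ℝ) ≤ ⌊Z⌋₊ := by exact_mod_cast hd
      push_cast at h7
      linarith
  have h4 := (Finset.card_le_card h3).trans (Finset.card_insert_le _ _)
  have h5 : (((Finset.range (⌊Z⌋₊ + 1)).filter (fun N => N % 2 = 1 ∧ N ∈ E)).card : ℝ) ≤
    (Z1_S E Z).card + 1 := by exact_mod_cast h4
  linarith

end Pool.Agent.E21
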