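import Pool.Agent.W_e21c_h6.Z1

/-!
# Theorem 1 (MP_e21d3a_lc, natural density; file Z2)
-/

set_option autoImplicit false

noncomputable section

open Finset

namespace Pool.Agent.E21

/-- `(log_2 X + 1) c ≤ (eps / 2) X` for large `X`. -/
private theorem Z2_log (c eps : ℝ) (hc : 0 < c) (heps : 0 < eps) :
    ∃ X0 : ℕ, ∀ X : ℕ, X0 ≤ X → ((Nat.log 2 X : ℝ) + 1) * c ≤ eps / 2 * X := by
  have hl2 : 0 < Real.log 2 := Real.log_pos (by norm_num)
  have hd : 0 < eps * Real.log 2 / (4 * c) := by positivity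
  have h1 := (Real.isLittleO_log_id_atTop.def hd)
  obtain ⟨x1, hx1⟩ := Filter.eventually_atTop.1 h1
  refine ⟨max (max 1 ⌈x1⌉₊) ⌈4 * c / eps⌉₊, fun X hX => ?_⟩
  have hX1 : 1 ≤ X := le_trans (le_trans (le_max_left _ _) (le_max_left _ _)) hX
  have hX2 : x1 ≤ X := by
    have : ⌈x1⌉₊ ≤ X := le_trans (le_trans (le_max_right _ _) (le_max_left _ _)) hX
    exact Nat.ceil_le.1 this
  have hX3 : 4 * c / eps ≤ X := by
    have : ⌈4 * c / eps⌉₊ ≤ X := le_trans (le_max_right _ _) hX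
    exact Nat.ceil_le.1 this
  have hXr : (1 : ℝ) ≤ X := by exact_mod_cast hX1
  have h2 := hx1 X hX2
  rw [Real.norm_eq_abs, Real.norm_eq_abs, id, abs_of_nonneg (Real.log_nonneg hXr),
    abs_of_nonneg (by linarith)] at h2
  have h3 : (Nat.log 2 X : ℝ) * Real.log 2 ≤ Real.log X := by
    rw [← Real.log_pow]
    apply Real.log_le_log (by positivity)
    exact_mod_cast Nat.pow_log_le_self 2 (by omega)
  have h4 : (Nat.log 2 X : ℝ) * c ≤ eps / 4 * X := by
    have h5 : (Nat.log 2 X : ℝ) * Real.log 2 ≤ eps * Real.log 2 / (4 * c) * X := h3.trans h2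
    have h6 : (Nat.log 2 X : ℝ) * c * Real.log 2 ≤ eps / 4 * X * Real.log 2 := by
      calc (Nat.log 2 X : ℝ) * c * Real.log 2 = (Nat.log 2 X : ℝ) * Real.log 2 * c := by ring
        _ ≤ eps * Real.log 2 / (4 * c) * X * c := mul_le_mul_of_nonneg_right h5 hc.le
        _ = eps / 4 * X * Real.log 2 := by field_simp
    exact le_of_mul_le_mul_right h6 hl2
  have h7 : c ≤ eps / 4 * X := by
    rw [div_le_iff₀ heps] at hX3
    linarith
  linarith

/-- **Theorem 1.** For all `eps, del > 0` there are `N0`, `X0` such that for `X ≥ X0` at most `eps X` of the `n ∈ [1, X]` do not reach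
`[1, N0]` within `(3 / log (4 / 3) + del) log n` steps. Proof: `top_step` with `eps / 4`; `n = 2 ^ v N`; `hit_even`; `sum_dyadic` with
`Z = X / 2 ^ v`, `v ≤ log_2 X`: the total is `≤ (eps / 2) X + (log_2 X + 1) (2 y0 + 1) ≤ eps X`. -/
theorem theorem_one {Cm : ℝ} (hmix : Mix Cm) (del eps : ℝ) (hdel : 0 < del) (heps : 0 < eps) :
    ∃ N0 X0 : ℕ, 1 ≤ N0 ∧ ∀ X : ℕ, X0 ≤ X →
      (Nat.card {n : ℕ // 1 ≤ n ∧ n ≤ X ∧ ¬ ∃ k : ℕ, (k : ℝ) ≤ KK del * Real.log n ∧ col^[k] n ≤ N0} : ℝ) ≤ eps * X := by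
  classical
  obtain ⟨N0, y0, hN0, hy0, htop⟩ := top_step hmix del (eps / 4) hdel (by positivity)
  obtain ⟨X0, hX0⟩ := Z2_log (2 * y0 + 1) eps (by linarith) heps
  refine ⟨N0, max X0 1, hN0, fun X hX => ?_⟩
  have hXa : X0 ≤ X := le_trans (le_max_left _ _) hX
  have hX1 : 1 ≤ X := le_trans (le_max_right _ _) hX
  have hod : ∀ y : ℝ, y0 ≤ y →
      (Nat.card {N : ℕ // N ∈ Od y ∧ N ∈ Bd N0 (KK del) 0} : ℝ) ≤ eps / 4 * y := by
    intro y hy
    rw [Nat.subtype_card ((Od y).filter fun N => N ∈ Bd N0 (KK del) 0)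
      (fun x => by rw [mem_filter])]
    exact htop y hy
  have hdy := sum_dyadic (Bd N0 (KK del) 0) (eps / 4) y0 (by positivity) hy0 hod
  set bad : ℕ → Prop := fun n =>
    ¬ ∃ k : ℕ, (k : ℝ) ≤ KK del * Real.log n ∧ col^[k] n ≤ N0 with hbad
  set S : Finset ℕ := (Finset.Icc 1 X).filter bad with hS
  have hcard : Nat.card {n : ℕ // 1 ≤ n ∧ n ≤ X ∧
      ¬ ∃ k : ℕ, (k : ℝ) ≤ KK del * Real.log n ∧ col^[k] n ≤ N0} = S.card := by
    apply Nat.subtype_card
    intro x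
    rw [hS, mem_filter, mem_Icc, and_assoc]
  rw [hcard]
  set T : ℕ → Finset ℕ := fun v => (Finset.range (X + 1)).filter fun N =>
    N % 2 = 1 ∧ (N : ℝ) ≤ (X : ℝ) / 2 ^ v ∧ N ∈ Bd N0 (KK del) 0 with hT
  have hTc : ∀ v : ℕ, ((T v).card : ℝ) ≤ eps / 4 * ((X : ℝ) / 2 ^ v) + 2 * y0 + 1 := by
    intro v
    have h1 := hdy ((X : ℝ) / 2 ^ v) (by positivity)
    rwa [Nat.subtype_card (T v)] at h1
    intro x
    rw [hT, mem_filter, mem_range]
    constructor
    · exact fun h => h.2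
    · intro h
      refine ⟨?_, h⟩
      have h2 : (x : ℝ) ≤ X := by
        refine h.2.1.trans (div_le_self (by positivity) ?_)
        exact one_le_pow₀ (by norm_num)
      have h3 : x ≤ X := by exact_mod_cast h2
      omega
  have hsub : S ⊆ (Finset.range (Nat.log 2 X + 1)).biUnion fun v =>
      (T v).image fun N => 2 ^ v * N := by
    intro n hn
    rw [hS, mem_filter, mem_Icc] at hn
    obtain ⟨⟨hn1, hn2⟩, hn3⟩ := hn
    obtain ⟨v, N, hN, rfl⟩ := Nat.exists_eq_two_pow_mul_odd (n := n) (by omega)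
    have hN1 : N % 2 = 1 := Nat.odd_iff.1 hN
    have hNp : 1 ≤ N := by omega
    have hv : 2 ^ v ≤ X := le_trans (Nat.le_mul_of_pos_right _ hNp) hn2
    rw [mem_biUnion]
    refine ⟨v, mem_range.2 (Nat.lt_succ_of_le (Nat.le_log_of_pow_le (by norm_num) hv)), ?_⟩
    rw [mem_image]
    refine ⟨N, ?_, rfl⟩
    rw [hT, mem_filter, mem_range]
    have hle : N ≤ X := le_trans (Nat.le_mul_of_pos_left _ (by positivity)) hn2
    refine ⟨by omega, hN1, ?_, ?_⟩
    · rw [le_div_iff₀ (by positivity)]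
      have : ((2 ^ v * N : ℕ) : ℝ) ≤ X := by exact_mod_cast hn2
      push_cast at this
      linarith
    · by_contra h
      exact hn3 (hit_even hdel v N hN1 h)
  have h1 : (S.card : ℝ) ≤ ∑ v ∈ Finset.range (Nat.log 2 X + 1), ((T v).card : ℝ) := by
    have h2 : S.card ≤ ∑ v ∈ Finset.range (Nat.log 2 X + 1), (T v).card :=
      (card_le_card hsub).trans (card_biUnion_le.trans (sum_le_sum fun v _ => card_image_le))
    exact_mod_cast h2
  have h2 : ∑ v ∈ Finset.range (Nat.log 2 X + 1), ((T v).card : ℝ) ≤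
      ∑ v ∈ Finset.range (Nat.log 2 X + 1),
        (eps / 4 * X * (1 / 2 : ℝ) ^ v + (2 * y0 + 1)) := by
    refine sum_le_sum fun v _ => (hTc v).trans (le_of_eq ?_)
    rw [one_div, inv_pow, div_eq_mul_inv]
    ring
  have h3 : ∑ v ∈ Finset.range (Nat.log 2 X + 1), (1 / 2 : ℝ) ^ v ≤ 2 := by
    have h4 := sum_geometric_two_le (Nat.log 2 X + 1)
    exact h4
  have h5 : ∑ v ∈ Finset.range (Nat.log 2 X + 1),
        (eps / 4 * X * (1 / 2 : ℝ) ^ v + (2 * y0 + 1)) =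
      eps / 4 * X * ∑ v ∈ Finset.range (Nat.log 2 X + 1), (1 / 2 : ℝ) ^ v +
        ((Nat.log 2 X : ℝ) + 1) * (2 * y0 + 1) := by
    rw [sum_add_distrib, ← mul_sum, sum_const, card_range, nsmul_eq_mul]
    push_cast
    ring
  have h6 := hX0 X hXa
  have h7 : eps / 4 * X * ∑ v ∈ Finset.range (Nat.log 2 X + 1), (1 / 2 : ℝ) ^ v ≤
      eps / 4 * X * 2 := mul_le_mul_of_nonneg_left h3 (by positivity)
  have h8 : (S.card : ℝ) ≤ eps / 4 * X * 2 + eps / 2 * X := by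
    linarith
  calc (S.card : ℝ) ≤ eps / 4 * X * 2 + eps / 2 * X := h8
    _ = eps * X := by ring

end Pool.Agent.E21
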